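import Pool.Agent.Lib.MP_d2370c_gt.ZN.Defs

/-!
# ZN, module Det: the determinant inequality for frames
-/

set_option autoImplicit false

open Finset MeasureTheory

namespace Pool.Agent.Lib.MP_d2370c_gt.ZN

variable {n d N : ℕ}

theorem det_ge {l : Fin N → ℝ} {u : Fin N → Fin n → ℝ} (h : Frame l u) (t : Fin N → ℝ) (ht : ∀ j, 0 < t j) :
    ∏ j, t j ^ l j ≤ (Matrix.of fun i k => ∑ j, l j * t j * u j i * u j k).det := by
  set A : Matrix (Fin n) (Fin n) ℝ := Matrix.of fun i k => ∑ j, l j * t j * u j i * u j k with hAdef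
  have hA : A.IsHermitian := by
    ext i k
    simp only [hAdef, Matrix.conjTranspose_apply, Matrix.of_apply, star_trivial]
    exact Finset.sum_congr rfl fun j _ => by ring
  set e : Fin n → Fin n → ℝ := fun i k => (hA.eigenvectorBasis i) k with he
  have hsq : ∀ i, ∑ k, e i k * e i k = 1 := by
    intro i
    have h1 : ‖hA.eigenvectorBasis i‖ ^ 2 = 1 := by
      rw [hA.eigenvectorBasis.norm_eq_one]
      norm_num
    rw [EuclideanSpace.real_norm_sq_eq] at h1
    rw [← h1]
    exact Finset.sum_congr rfl fun k _ => by rw [sq]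
  have hpars : ∀ j, ∑ i, (ana u (e i) j) ^ 2 = 1 := by
    intro j
    have h1 := hA.eigenvectorBasis.sum_sq_norm_inner_right (WithLp.toLp 2 (u j))
    rw [EuclideanSpace.real_norm_sq_eq] at h1
    have h2 : ∑ k, (WithLp.toLp 2 (u j)) k ^ 2 = 1 := h.unit j
    rw [h2] at h1
    rw [← h1]
    refine Finset.sum_congr rfl fun i _ => ?_
    rw [Real.norm_eq_abs, sq_abs]
    rfl
  have hmu : ∀ i, hA.eigenvalues i = ∑ j, l j * (ana u (e i) j) ^ 2 * t j := by
    intro i
    have h1 := hA.mulVec_eigenvectorBasis i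
    have h2 : ∑ a, e i a * (A.mulVec (e i)) a = hA.eigenvalues i := by
      have h3 : A.mulVec (e i) = hA.eigenvalues i • e i := h1
      rw [h3]
      calc ∑ a, e i a * (hA.eigenvalues i • e i) a = hA.eigenvalues i * ∑ a, e i a * e i a := by
            rw [Finset.mul_sum]
            refine Finset.sum_congr rfl fun a _ => ?_
            simp only [Pi.smul_apply, smul_eq_mul]
            ring
        _ = hA.eigenvalues i := by rw [hsq i, mul_one]
    rw [← h2]
    have h4 : ∀ a, e i a * (A.mulVec (e i)) a = ∑ j, (l j * t j * ana u (e i) j) * (u j a * e i a) := by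
      intro a
      simp only [Matrix.mulVec, dotProduct, hAdef, Matrix.of_apply, ana]
      simp only [Finset.sum_mul, Finset.mul_sum]
      rw [Finset.sum_comm]
      refine Finset.sum_congr rfl fun j _ => ?_
      refine Finset.sum_congr rfl fun k _ => ?_
      ring
    rw [Finset.sum_congr rfl fun a _ => h4 a, Finset.sum_comm]
    refine Finset.sum_congr rfl fun j _ => ?_
    rw [← Finset.mul_sum]
    have h5 : ∑ a, u j a * e i a = ana u (e i) j := rfl
    rw [h5]
    ring
  have hp1 : ∀ i, ∑ j, l j * (ana u (e i) j) ^ 2 = 1 := by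
    intro i
    have h1 := h.res (e i) (e i)
    rw [hsq i] at h1
    rw [← h1]
    exact Finset.sum_congr rfl fun j _ => by ring
  have hge : ∀ i, ∏ j, t j ^ (l j * (ana u (e i) j) ^ 2) ≤ hA.eigenvalues i := by
    intro i
    rw [hmu i]
    exact Real.geom_mean_le_arith_mean_weighted Finset.univ _ _
      (fun j _ => mul_nonneg (h.nn j) (sq_nonneg _)) (hp1 i) (fun j _ => (ht j).le)
  have hdet : A.det = ∏ i, hA.eigenvalues i := by
    simpa using hA.det_eq_prod_eigenvalues
  rw [hdet]
  calc ∏ j, t j ^ l j = ∏ j, ∏ i, t j ^ (l j * (ana u (e i) j) ^ 2) := by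
        refine Finset.prod_congr rfl fun j _ => ?_
        rw [← Real.rpow_sum_of_pos (ht j), ← Finset.mul_sum, hpars j, mul_one]
    _ = ∏ i, ∏ j, t j ^ (l j * (ana u (e i) j) ^ 2) := Finset.prod_comm
    _ ≤ ∏ i, hA.eigenvalues i := by
        refine Finset.prod_le_prod (fun i _ => ?_) (fun i _ => hge i)
        exact Finset.prod_nonneg fun j _ => Real.rpow_nonneg (ht j).le _

end Pool.Agent.Lib.MP_d2370c_gt.ZN
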