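import Mathlib

/-!
# MP_d2370c_gt, ZN: monotone transport from the Gauss density

`Φ t = ∫_α^t f`, `Ψ y = c ∫_{-∞}^y exp (-π u^2)`; `τ = Φ⁻¹ ∘ Ψ`.
-/

set_option autoImplicit false

open Finset MeasureTheory Filter Topology

namespace Pool.Agent.Lib.MP_d2370c_gt.ZN

private noncomputable def tg (u : ℝ) : ℝ := Real.exp (-(Real.pi * u ^ 2))

private theorem tg_int : Integrable tg := by
  have h := integrable_exp_neg_mul_sq Real.pi_pos
  refine h.congr (ae_of_all _ fun x => ?_)
  simp only [tg, neg_mul]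

private theorem tg_total : ∫ u, tg u = 1 := by
  have h := integral_gaussian Real.pi
  rw [div_self Real.pi_ne_zero, Real.sqrt_one] at h
  rw [← h]
  congr 1
  funext x
  simp only [tg, neg_mul]

private theorem tg_pos (u : ℝ) : 0 < tg u := Real.exp_pos _

private theorem tg_cont : Continuous tg := by
  unfold tg; fun_prop

private theorem tg_set_pos {s : Set ℝ} (hs : 0 < volume s) : 0 < ∫ u in s, tg u := by
  rw [setIntegral_pos_iff_support_of_nonneg_ae (ae_of_all _ fun x => (tg_pos x).le)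
    tg_int.integrableOn]
  have : Function.support tg = Set.univ := by
    ext x; simp [(tg_pos x).ne']
  rw [this, Set.univ_inter]
  exact hs

private noncomputable def tP (y : ℝ) : ℝ := (∫ u in Set.Iic (0 : ℝ), tg u) + ∫ u in (0 : ℝ)..y, tg u

private theorem tP_eq (y : ℝ) : tP y = ∫ u in Set.Iic y, tg u := by
  have h := intervalIntegral.integral_Iic_sub_Iic (a := (0 : ℝ)) (b := y) (μ := volume) (f := tg)
    tg_int.integrableOn tg_int.integrableOn
  rw [tP, ← h]; ring

private theorem tP_pos (y : ℝ) : 0 < tP y := by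
  rw [tP_eq]
  exact tg_set_pos (by rw [Real.volume_Iic]; exact ENNReal.zero_lt_top)

private theorem tP_lt (y : ℝ) : tP y < 1 := by
  have h1 := intervalIntegral.integral_Iic_add_Ioi (b := y) (μ := volume) (f := tg)
    tg_int.integrableOn tg_int.integrableOn
  have h2 : 0 < ∫ u in Set.Ioi y, tg u :=
    tg_set_pos (by rw [Real.volume_Ioi]; exact ENNReal.zero_lt_top)
  rw [tP_eq]
  rw [tg_total] at h1
  linarith

private theorem tP_deriv (y : ℝ) : HasDerivAt tP (tg y) y :=
  ((tg_cont.integral_hasStrictDerivAt 0 y).hasDerivAt).const_add _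

theorem transport (f : ℝ → ℝ) (α β : ℝ) (hαβ : α < β) (hc : Continuous f) (hpos : ∀ t ∈ Set.Ioo α β, 0 < f t)
    (hout : ∀ t, t ∉ Set.Ioo α β → f t = 0) :
    ∃ τ τ' : ℝ → ℝ, (∀ y, τ y ∈ Set.Ioo α β) ∧ (∀ y, HasDerivAt τ (τ' y) y) ∧ (∀ y, 0 < τ' y) ∧
      ∀ y, f (τ y) * τ' y = (∫ t, f t) * Real.exp (-(Real.pi * y ^ 2)) := by
  set Φ : ℝ → ℝ := fun t => ∫ x in α..t, f x with hΦ
  have hd : ∀ t, HasDerivAt Φ (f t) t := fun t => (hc.integral_hasStrictDerivAt α t).hasDerivAt
  have hΦc : Continuous Φ := continuous_iff_continuousAt.2 fun t => (hd t).continuousAt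
  have hmono : StrictMonoOn Φ (Set.Icc α β) := by
    refine strictMonoOn_of_deriv_pos (convex_Icc α β) hΦc.continuousOn ?_
    intro x hx
    rw [interior_Icc] at hx
    rw [(hd x).deriv]
    exact hpos x hx
  have hΦα : Φ α = 0 := by simp [hΦ]
  have hΦβ : Φ β = ∫ t, f t := by
    simp only [hΦ]
    rw [intervalIntegral.integral_of_le hαβ.le]
    refine setIntegral_eq_integral_of_forall_compl_eq_zero ?_
    intro x hx
    exact hout x fun h => hx ⟨h.1, h.2.le⟩
  set c := ∫ t, f t with hcdef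
  have hcpos : 0 < c := by
    rw [← hΦβ, ← hΦα]
    exact hmono (Set.left_mem_Icc.2 hαβ.le) (Set.right_mem_Icc.2 hαβ.le) hαβ
  have hex : ∀ v ∈ Set.Ioo (0 : ℝ) c, ∃ t ∈ Set.Ioo α β, Φ t = v := by
    intro v hv
    have h := intermediate_value_Ioo hαβ.le (f := Φ) hΦc.continuousOn
    rw [hΦα, hΦβ] at h
    obtain ⟨t, ht, h2⟩ := h hv
    exact ⟨t, ht, h2⟩
  choose! σ hσ1 hσ2 using hex
  have hσc : ∀ v ∈ Set.Ioo (0 : ℝ) c, ContinuousAt σ v := by
    intro v hv
    have hev : ∀ᶠ w in 𝓝 v, w ∈ Set.Ioo (0 : ℝ) c := Ioo_mem_nhds hv.1 hv.2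
    refine tendsto_order.2 ⟨fun a ha => ?_, fun b hb => ?_⟩
    · set a' := max a ((α + σ v) / 2) with ha'
      have h1 : α < a' := lt_of_lt_of_le (by linarith [(hσ1 v hv).1]) (le_max_right _ _)
      have h2 : a' < σ v := max_lt ha (by linarith [(hσ1 v hv).1])
      have h3 : a' ∈ Set.Icc α β := ⟨h1.le, (h2.trans (hσ1 v hv).2).le⟩
      have h4 : Φ a' < v := by
        rw [← hσ2 v hv]
        exact hmono h3 (Set.Ioo_subset_Icc_self (hσ1 v hv)) h2
      filter_upwards [hev, Ioi_mem_nhds h4] with w hw hw2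
      have h5 : a' < σ w := by
        by_contra hcon
        push Not at hcon
        have h6 := hmono.monotoneOn (Set.Ioo_subset_Icc_self (hσ1 w hw)) h3 hcon
        rw [hσ2 w hw] at h6
        exact absurd hw2 (not_lt.2 h6)
      exact lt_of_le_of_lt (le_max_left _ _) h5
    · set b' := min b ((β + σ v) / 2) with hb'
      have h1 : b' < β := lt_of_le_of_lt (min_le_right _ _) (by linarith [(hσ1 v hv).2])
      have h2 : σ v < b' := lt_min hb (by linarith [(hσ1 v hv).2])
      have h3 : b' ∈ Set.Icc α β := ⟨((hσ1 v hv).1.trans h2).le, h1.le⟩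
      have h4 : v < Φ b' := by
        rw [← hσ2 v hv]
        exact hmono (Set.Ioo_subset_Icc_self (hσ1 v hv)) h3 h2
      filter_upwards [hev, Iio_mem_nhds h4] with w hw hw2
      have h5 : σ w < b' := by
        by_contra hcon
        push Not at hcon
        have h6 := hmono.monotoneOn h3 (Set.Ioo_subset_Icc_self (hσ1 w hw)) hcon
        rw [hσ2 w hw] at h6
        exact absurd hw2 (not_lt.2 h6)
      exact lt_of_lt_of_le h5 (min_le_left _ _)
  have hσd : ∀ v ∈ Set.Ioo (0 : ℝ) c, HasDerivAt σ (f (σ v))⁻¹ v := by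
    intro v hv
    refine HasDerivAt.of_local_left_inverse (hσc v hv) (hd (σ v)) (hpos _ (hσ1 v hv)).ne' ?_
    filter_upwards [Ioo_mem_nhds hv.1 hv.2] with w hw
    exact hσ2 w hw
  have hmem : ∀ y, c * tP y ∈ Set.Ioo (0 : ℝ) c := fun y =>
    ⟨mul_pos hcpos (tP_pos y), by
      have := mul_lt_mul_of_pos_left (tP_lt y) hcpos
      linarith⟩
  refine ⟨fun y => σ (c * tP y), fun y => (f (σ (c * tP y)))⁻¹ * (c * tg y), ?_, ?_, ?_, ?_⟩
  · exact fun y => hσ1 _ (hmem y)
  · intro y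
    exact (hσd _ (hmem y)).comp y ((tP_deriv y).const_mul c)
  · intro y
    exact mul_pos (inv_pos.2 (hpos _ (hσ1 _ (hmem y)))) (mul_pos hcpos (tg_pos y))
  · intro y
    have h := (hpos _ (hσ1 _ (hmem y))).ne'
    simp only [tg]
    field_simp

end Pool.Agent.Lib.MP_d2370c_gt.ZN
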