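import Pool.Agent.Lib.MP_d2370c_gt.ZN.Frame
import Pool.Agent.Lib.MP_d2370c_gt.ZN.Trans
import Pool.Agent.Lib.MP_d2370c_gt.ZN.Det

/-!
# The inequality of Barthe in dimension one for a frame (reverse Brascamp-Lieb)
-/

set_option autoImplicit false

open Finset MeasureTheory Filter Topology

namespace Pool.Agent.Lib.MP_d2370c_gt.ZN

open Pool.Agent.Lib.MP_d2370c_gt

variable {n d N : ℕ}

private theorem ba_gauss : Integrable (fun y : Fin n → ℝ => Real.exp (-(Real.pi * ∑ k, y k ^ 2))) ∧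
    ∫ y : Fin n → ℝ, Real.exp (-(Real.pi * ∑ k, y k ^ 2)) = 1 := by
  have h1 : (fun y : Fin n → ℝ => Real.exp (-(Real.pi * ∑ k, y k ^ 2))) =
      fun y : Fin n → ℝ => ∏ k, Real.exp (-Real.pi * y k ^ 2) := by
    funext y
    rw [← Real.exp_sum, ← Finset.mul_sum, neg_mul]
  have hi : Integrable (fun x : ℝ => Real.exp (-Real.pi * x ^ 2)) := integrable_exp_neg_mul_sq Real.pi_pos
  rw [h1]
  refine ⟨Integrable.fintype_prod (f := fun _ : Fin n => fun x : ℝ => Real.exp (-Real.pi * x ^ 2)) fun _ => hi, ?_⟩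
  rw [integral_fintype_prod_volume_eq_prod (fun _ : Fin n => fun x : ℝ => Real.exp (-Real.pi * x ^ 2))]
  simp only [integral_gaussian]
  rw [div_self Real.pi_pos.ne', Real.sqrt_one, Finset.prod_const_one]

/-- linear map of the derivative -/
private theorem ba_deriv {l : Fin N → ℝ} {u : Fin N → Fin n → ℝ} (τ τ' : Fin N → ℝ → ℝ)
    (hτ : ∀ j y, HasDerivAt (τ j) (τ' j y) y) (y : Fin n → ℝ) :
    HasFDerivAt (fun y : Fin n → ℝ => syn l u fun j => τ j (ana u y j))
      (LinearMap.toContinuousLinearMap (Matrix.toLin' (Matrix.of fun i k => ∑ j, l j * τ' j (ana u y j) * u j i * u j k))) y := by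
  rw [hasFDerivAt_pi']
  intro i
  have hana : ∀ j, HasFDerivAt (fun y : Fin n → ℝ => ana u y j)
      (∑ k, (u j k) • (ContinuousLinearMap.proj (R := ℝ) (φ := fun _ : Fin n => ℝ) k)) y := by
    intro j
    unfold ana
    apply HasFDerivAt.fun_sum
    intro k _
    exact (hasFDerivAt_apply k y).const_mul (u j k)
  have h2 : HasFDerivAt (fun y : Fin n → ℝ => ∑ j, l j * τ j (ana u y j) * u j i)
      (∑ j, (u j i) • ((l j) • ((τ' j (ana u y j)) • (∑ k, (u j k) • (ContinuousLinearMap.proj (R := ℝ) (φ := fun _ : Fin n => ℝ) k))))) y := by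
    apply HasFDerivAt.fun_sum
    intro j _
    exact (((hτ j (ana u y j)).comp_hasFDerivAt y (hana j)).const_mul (l j)).mul_const (u j i)
  refine h2.congr_fderiv ?_
  ext x
  simp only [_root_.sum_apply, smul_apply, ContinuousLinearMap.proj_apply, smul_eq_mul,
    ContinuousLinearMap.comp_apply, LinearMap.coe_toContinuousLinearMap', Matrix.toLin'_apply, Matrix.mulVec, dotProduct, Matrix.of_apply]
  simp only [Finset.mul_sum, Finset.sum_mul]
  rw [Finset.sum_comm]
  refine Finset.sum_congr rfl fun k _ => Finset.sum_congr rfl fun j _ => ?_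
  ring

private theorem ba_inj {l : Fin N → ℝ} {u : Fin N → Fin n → ℝ} (h : Frame l u) (τ : Fin N → ℝ → ℝ)
    (hτ : ∀ j, StrictMono (τ j)) : Function.Injective fun y : Fin n → ℝ => syn l u fun j => τ j (ana u y j) := by
  intro y y' hy
  simp only at hy
  have hana : ∀ j, ana u (y - y') j = ana u y j - ana u y' j := by
    intro j
    simp only [ana, Pi.sub_apply, ← Finset.sum_sub_distrib]
    exact Finset.sum_congr rfl fun k _ => by ring
  have h0 : ∑ k, (y - y') k * syn l u (fun j => τ j (ana u y j)) k - ∑ k, (y - y') k * syn l u (fun j => τ j (ana u y' j)) k = 0 := by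
    rw [hy, sub_self]
  rw [dot_syn, dot_syn, ← Finset.sum_sub_distrib] at h0
  have hterm : ∀ j, l j * τ j (ana u y j) * ana u (y - y') j - l j * τ j (ana u y' j) * ana u (y - y') j =
      l j * ((τ j (ana u y j) - τ j (ana u y' j)) * (ana u y j - ana u y' j)) := by
    intro j
    rw [hana]; ring
  simp only [hterm] at h0
  have hnn : ∀ j, 0 ≤ (τ j (ana u y j) - τ j (ana u y' j)) * (ana u y j - ana u y' j) := by
    intro j
    rcases le_total (ana u y j) (ana u y' j) with hle | hle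
    · exact mul_nonneg_of_nonpos_of_nonpos (sub_nonpos.mpr ((hτ j).monotone hle)) (sub_nonpos.mpr hle)
    · exact mul_nonneg (sub_nonneg.mpr ((hτ j).monotone hle)) (sub_nonneg.mpr hle)
  have h1 := (Finset.sum_eq_zero_iff_of_nonneg fun j _ => mul_nonneg (h.nn j) (hnn j)).mp h0
  have h2 : ∑ j, l j * ana u (y - y') j ^ 2 = 0 := by
    refine Finset.sum_eq_zero fun j _ => ?_
    rcases mul_eq_zero.mp (h1 j (Finset.mem_univ j)) with h3 | h3
    · rw [h3, zero_mul]
    · have h4 : ana u y j = ana u y' j := by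
        rcases mul_eq_zero.mp h3 with h5 | h5
        · exact (hτ j).injective (sub_eq_zero.mp h5)
        · exact sub_eq_zero.mp h5
      rw [hana, h4, sub_self]; ring
  rw [h.ana_sq] at h2
  have h3 := (Finset.sum_eq_zero_iff_of_nonneg fun k _ => sq_nonneg ((y - y') k)).mp h2
  funext k
  have h4 := h3 k (Finset.mem_univ k)
  exact sub_eq_zero.mp (pow_eq_zero_iff (two_ne_zero) |>.mp h4)

/-- the inequality of Barthe -/
theorem barthe {l : Fin N → ℝ} {u : Fin N → Fin n → ℝ} (h : Frame l u) (f : Fin N → ℝ → ℝ) (α β : Fin N → ℝ)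
    (hαβ : ∀ j, α j < β j) (hc : ∀ j, Continuous (f j)) (hpos : ∀ j, ∀ t ∈ Set.Ioo (α j) (β j), 0 < f j t)
    (hout : ∀ j t, t ∉ Set.Ioo (α j) (β j) → f j t = 0) (G : (Fin n → ℝ) → ℝ) (hG0 : ∀ x, 0 ≤ G x) (hGi : Integrable G)
    (hG : ∀ s : Fin N → ℝ, (∀ j, s j ∈ Set.Ioo (α j) (β j)) → ∏ j, f j (s j) ^ l j ≤ G (syn l u s)) :
    ∏ j, (∫ t, f j t) ^ l j ≤ ∫ x, G x := by
  choose τ τ' hτm hτd hτp hτe using fun j => transport (f j) (α j) (β j) (hαβ j) (hc j) (hpos j) (hout j)
  have hmono : ∀ j, StrictMono (τ j) := fun j => strictMono_of_hasDerivAt_pos (hτd j) (hτp j)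
  set S : (Fin n → ℝ) → Fin n → ℝ := fun y => syn l u fun j => τ j (ana u y j) with hS
  set M : (Fin n → ℝ) → Matrix (Fin n) (Fin n) ℝ := fun y =>
    Matrix.of fun i k => ∑ j, l j * τ' j (ana u y j) * u j i * u j k with hM
  have hfd : ∀ y ∈ (Set.univ : Set (Fin n → ℝ)), HasFDerivWithinAt S (LinearMap.toContinuousLinearMap (Matrix.toLin' (M y)))
      Set.univ y := fun y _ => (ba_deriv τ τ' hτd y).hasFDerivWithinAt
  have hinj : Set.InjOn S Set.univ := (ba_inj h τ hmono).injOn
  have hdet : ∀ y, (LinearMap.toContinuousLinearMap (Matrix.toLin' (M y))).det = (M y).det := by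
    intro y
    rw [ContinuousLinearMap.det, LinearMap.coe_toContinuousLinearMap, LinearMap.det_toLin']
  have hcv := integral_image_eq_integral_abs_det_fderiv_smul volume MeasurableSet.univ hfd hinj G
  have hci := (integrableOn_image_iff_integrableOn_abs_det_fderiv_smul volume MeasurableSet.univ hfd hinj G).mp hGi.integrableOn
  simp only [hdet, Measure.restrict_univ, integrableOn_univ, smul_eq_mul] at hcv hci
  have hc0 : ∀ j, 0 ≤ ∫ t, f j t := fun j => integral_nonneg fun t => by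
    by_cases ht : t ∈ Set.Ioo (α j) (β j)
    · exact (hpos j t ht).le
    · exact (hout j t ht).ge
  have hpt : ∀ y, (∏ j, (∫ t, f j t) ^ l j) * Real.exp (-(Real.pi * ∑ k, y k ^ 2)) ≤ |(M y).det| * G (S y) := by
    intro y
    have h1 : (∏ j, (∫ t, f j t) ^ l j) * Real.exp (-(Real.pi * ∑ k, y k ^ 2)) =
        (∏ j, τ' j (ana u y j) ^ l j) * ∏ j, f j (τ j (ana u y j)) ^ l j := by
      rw [← h.ana_sq, Finset.mul_sum, ← Finset.sum_neg_distrib, Real.exp_sum, ← Finset.prod_mul_distrib,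
        ← Finset.prod_mul_distrib]
      refine Finset.prod_congr rfl fun j _ => ?_
      rw [← Real.mul_rpow (hτp j _).le (hpos j _ (hτm j _)).le, mul_comm (τ' j _), hτe,
        Real.mul_rpow (hc0 j) (Real.exp_pos _).le, ← Real.exp_mul]
      congr 2
      ring
    rw [h1]
    refine mul_le_mul ((det_ge h _ fun j => hτp j _).trans (le_abs_self _)) (hG _ fun j => hτm j _)
      (Finset.prod_nonneg fun j _ => Real.rpow_nonneg (hpos j _ (hτm j _)).le _) (abs_nonneg _)
  calc ∏ j, (∫ t, f j t) ^ l j = ∫ y : Fin n → ℝ, (∏ j, (∫ t, f j t) ^ l j) * Real.exp (-(Real.pi * ∑ k, y k ^ 2)) := by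
        rw [integral_const_mul, ba_gauss.2, mul_one]
    _ ≤ ∫ y, |(M y).det| * G (S y) := integral_mono (ba_gauss.1.const_mul _) hci hpt
    _ = ∫ x in S '' Set.univ, G x := hcv.symm
    _ ≤ ∫ x, G x := setIntegral_le_integral hGi (ae_of_all _ hG0)

end Pool.Agent.Lib.MP_d2370c_gt.ZN
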