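import Pool.Agent.Lib.MP_d2370c_gt.ZN.Defs

/-!
# MP_d2370c_gt, ZN: the positive arc of the cosine and its Gaussian means

For `|t| ≤ r`, `ω = π / (2 r)`: `∫ g1 s ρ cos (ω (t + ρ)) dρ = exp (-ω^2 s / 2) cos (ω t)`, and `cosp r x - cos (ω x)` is `0` for `|x| ≤ r`
and `sin (ω (|x| - r))` for `|x| ≥ r`; the Gaussian integral of this difference is nonnegative (integration by parts).
-/

set_option autoImplicit false

open Finset MeasureTheory Filter Topology

namespace Pool.Agent.Lib.MP_d2370c_gt.ZN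

open Pool.Agent.Lib.MP_d2370c_gt

theorem cosp_cont {r : ℝ} (hr : 0 < r) : Continuous (cosp r) := by
  unfold cosp
  refine Continuous.if_le (by fun_prop) continuous_const continuous_abs continuous_const ?_
  intro x hx
  rcases (abs_eq hr.le).1 hx with h | h
  · have e : Real.pi * x / (2 * r) = Real.pi / 2 := by
      rw [h]
      field_simp
    rw [e, Real.cos_pi_div_two]
  · have e : Real.pi * x / (2 * r) = -(Real.pi / 2) := by
      rw [h]
      field_simp
    rw [e, Real.cos_neg, Real.cos_pi_div_two]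

theorem cosp_nonneg {r : ℝ} (hr : 0 < r) (t : ℝ) : 0 ≤ cosp r t := by
  unfold cosp
  split_ifs with h
  · have h1 := abs_le.1 h
    have hp := Real.pi_pos
    refine Real.cos_nonneg_of_mem_Icc ⟨?_, ?_⟩
    · rw [le_div_iff₀ (by positivity)]
      nlinarith
    · rw [div_le_iff₀ (by positivity)]
      nlinarith
  · exact le_rfl

theorem cosp_le_one (r t : ℝ) : cosp r t ≤ 1 := by
  unfold cosp
  split_ifs
  · exact Real.cos_le_one _
  · exact zero_le_one

theorem cosp_pos {r : ℝ} (hr : 0 < r) {t : ℝ} (ht : |t| < r) : 0 < cosp r t := by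
  unfold cosp
  rw [if_pos ht.le]
  have h1 := abs_lt.1 ht
  have hp := Real.pi_pos
  refine Real.cos_pos_of_mem_Ioo ⟨?_, ?_⟩
  · rw [lt_div_iff₀ (by positivity)]
    nlinarith
  · rw [div_lt_iff₀ (by positivity)]
    nlinarith

theorem cosp_out {r t : ℝ} (hr : 0 < r) (ht : r ≤ |t|) : cosp r t = 0 := by
  unfold cosp
  split_ifs with h
  · have hx : |t| = r := le_antisymm h ht
    rcases (abs_eq hr.le).1 hx with h | h
    · have e : Real.pi * t / (2 * r) = Real.pi / 2 := by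
        rw [h]
        field_simp
      rw [e, Real.cos_pi_div_two]
    · have e : Real.pi * t / (2 * r) = -(Real.pi / 2) := by
        rw [h]
        field_simp
      rw [e, Real.cos_neg, Real.cos_pi_div_two]
  · rfl

theorem cosp_int_pos {r : ℝ} (hr : 0 < r) : 0 < ∫ t, cosp r t := by
  refine (cosp_cont hr).integral_pos_of_hasCompactSupport_nonneg_nonzero (x := 0) ?_ (cosp_nonneg hr)
    (cosp_pos hr (by rwa [abs_zero])).ne'
  refine HasCompactSupport.intro (isCompact_Icc (a := -r) (b := r)) fun x hx => ?_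
  refine cosp_out hr ?_
  by_contra hcon
  push Not at hcon
  exact hx (abs_le.1 hcon.le)

/-! ### Gaussian integrals -/

private theorem cos_g1 (s ρ : ℝ) : g1 s ρ = (Real.sqrt (2 * Real.pi * s))⁻¹ * Real.exp (-(1 / (2 * s)) * ρ ^ 2) := by
  unfold g1
  congr 2
  ring

private theorem cos_g1_nonneg (s ρ : ℝ) : 0 ≤ g1 s ρ := by
  unfold g1
  positivity

private theorem cos_g1_int {s : ℝ} (hs : 0 < s) : Integrable (g1 s) := by
  have h := (integrable_exp_neg_mul_sq (show (0 : ℝ) < 1 / (2 * s) by positivity)).const_mul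
    (Real.sqrt (2 * Real.pi * s))⁻¹
  exact h.congr (ae_of_all _ fun ρ => (cos_g1 s ρ).symm)

private theorem cos_g1_cont (s : ℝ) : Continuous (g1 s) := by
  unfold g1
  fun_prop

private theorem cos_g1_deriv {s : ℝ} (hs : 0 < s) (ρ : ℝ) : HasDerivAt (g1 s) (-(ρ / s) * g1 s ρ) ρ := by
  have h1 : HasDerivAt (fun x : ℝ => -(1 / (2 * s)) * x ^ 2) (-(ρ / s)) ρ := by
    have h2 := (hasDerivAt_pow 2 ρ).const_mul (-(1 / (2 * s)))
    refine h2.congr_deriv ?_
    field_simp
    norm_num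
  have h3 := (h1.exp).const_mul (Real.sqrt (2 * Real.pi * s))⁻¹
  have h4 : g1 s = fun x : ℝ => (Real.sqrt (2 * Real.pi * s))⁻¹ * Real.exp (-(1 / (2 * s)) * x ^ 2) :=
    funext (cos_g1 s)
  rw [h4]
  refine h3.congr_deriv ?_
  ring

private theorem cos_g1_mul_int {s : ℝ} (hs : 0 < s) : Integrable (fun ρ => -(ρ / s) * g1 s ρ) := by
  have h := (integrable_mul_exp_neg_mul_sq (show (0 : ℝ) < 1 / (2 * s) by positivity)).const_mul
    (-(1 / s) * (Real.sqrt (2 * Real.pi * s))⁻¹)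
  refine h.congr (ae_of_all _ fun ρ => ?_)
  simp only [cos_g1 s ρ]
  ring

private theorem cos_g1_tends {s : ℝ} (hs : 0 < s) : Tendsto (g1 s) atTop (𝓝 0) := by
  have h1 : Tendsto (fun ρ : ℝ => 1 / (2 * s) * ρ ^ 2) atTop atTop :=
    (tendsto_pow_atTop (by norm_num)).const_mul_atTop (by positivity)
  have h2 := (Real.tendsto_exp_neg_atTop_nhds_zero.comp h1).const_mul (Real.sqrt (2 * Real.pi * s))⁻¹
  rw [mul_zero] at h2
  refine h2.congr fun ρ => ?_
  rw [cos_g1]
  simp only [Function.comp]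
  congr 2
  ring

/-- bounded continuous factors -/
private theorem cos_int_mul {f g : ℝ → ℝ} (hf : Integrable f) (hg : Measurable g) {C : ℝ} (hC : ∀ x, |g x| ≤ C) :
    Integrable (fun x => f x * g x) := by
  refine Integrable.mono' (hf.norm.mul_const C) (hf.aestronglyMeasurable.mul hg.aestronglyMeasurable)
    (ae_of_all _ fun x => ?_)
  rw [norm_mul]
  exact mul_le_mul_of_nonneg_left (hC x) (norm_nonneg _)

private theorem cos_parts {s ω c : ℝ} (hs : 0 < s) (hω : 0 < ω) (hc : 0 ≤ c) :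
    0 ≤ ∫ ρ in Set.Ioi c, g1 s ρ * Real.sin (ω * (ρ - c)) := by
  have hv : ∀ x : ℝ, HasDerivAt (fun x => (1 - Real.cos (ω * (x - c))) / ω) (Real.sin (ω * (x - c))) x := by
    intro x
    have h1 : HasDerivAt (fun x : ℝ => ω * (x - c)) ω x := by
      have := ((hasDerivAt_id x).sub_const c).const_mul ω
      simpa using this
    have h2 := ((h1.cos.const_sub 1).div_const ω)
    refine h2.congr_deriv ?_
    field_simp
  have hvb : ∀ x : ℝ, |(1 - Real.cos (ω * (x - c))) / ω| ≤ 2 / ω := by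
    intro x
    have h1 := Real.cos_le_one (ω * (x - c))
    have h2 := Real.neg_one_le_cos (ω * (x - c))
    rw [abs_of_nonneg (div_nonneg (by linarith) hω.le)]
    exact div_le_div_of_nonneg_right (by linarith) hω.le
  have hv0 : ∀ x : ℝ, 0 ≤ (1 - Real.cos (ω * (x - c))) / ω := fun x =>
    div_nonneg (by linarith [Real.cos_le_one (ω * (x - c))]) hω.le
  have hvm : Measurable fun x => (1 - Real.cos (ω * (x - c))) / ω := by fun_prop
  have hp := integral_Ioi_mul_deriv_eq_deriv_mul (a := c) (a' := (0 : ℝ)) (b' := (0 : ℝ)) (u := g1 s)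
    (u' := fun ρ => -(ρ / s) * g1 s ρ) (v := fun x => (1 - Real.cos (ω * (x - c))) / ω)
    (v' := fun x => Real.sin (ω * (x - c)))
    (fun x _ => cos_g1_deriv hs x) (fun x _ => hv x)
    (cos_int_mul (cos_g1_int hs) (by fun_prop) (C := 1) fun x => Real.abs_sin_le_one _).integrableOn
    (cos_int_mul (cos_g1_mul_int hs) hvm hvb).integrableOn
    (by
      have h1 : Continuous (g1 s * fun x => (1 - Real.cos (ω * (x - c))) / ω) :=
        (cos_g1_cont s).mul (by fun_prop)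
      have h2 := h1.tendsto c
      have h3 : (g1 s * fun x => (1 - Real.cos (ω * (x - c))) / ω) c = 0 := by
        simp
      rw [h3] at h2
      exact h2.mono_left nhdsWithin_le_nhds)
    (by
      refine squeeze_zero (g := fun x => g1 s x * (2 / ω)) (fun x => ?_) (fun x => ?_) ?_
      · exact mul_nonneg (cos_g1_nonneg s x) (hv0 x)
      · exact mul_le_mul_of_nonneg_left ((le_abs_self _).trans (hvb x)) (cos_g1_nonneg s x)
      · have := (cos_g1_tends hs).mul_const (2 / ω)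
        rwa [zero_mul] at this)
  rw [hp]
  have h5 : ∫ x in Set.Ioi c, -(x / s) * g1 s x * ((1 - Real.cos (ω * (x - c))) / ω) ≤ 0 := by
    refine setIntegral_nonpos measurableSet_Ioi fun x hx => ?_
    have hx0 : 0 < x := lt_of_le_of_lt hc hx
    have h6 : 0 ≤ x / s * g1 s x * ((1 - Real.cos (ω * (x - c))) / ω) :=
      mul_nonneg (mul_nonneg (by positivity) (cos_g1_nonneg s x)) (hv0 x)
    linarith
  linarith

/-- the difference on the right of `r` -/
private noncomputable def cosD (r ω x : ℝ) : ℝ := if r < x then Real.sin (ω * (x - r)) else 0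

private theorem cosD_meas (r ω : ℝ) : Measurable (cosD r ω) := by
  unfold cosD
  exact Measurable.ite measurableSet_Ioi (by fun_prop) measurable_const

private theorem cosD_le (r ω x : ℝ) : |cosD r ω x| ≤ 1 := by
  unfold cosD
  split_ifs
  · exact Real.abs_sin_le_one _
  · rw [abs_zero]
    exact zero_le_one

private theorem cosD_int {s ω r t : ℝ} (hs : 0 < s) (hω : 0 < ω) (ht : t ≤ r) :
    0 ≤ ∫ ρ, g1 s ρ * cosD r ω (t + ρ) := by
  have h1 : ∫ ρ, g1 s ρ * cosD r ω (t + ρ) = ∫ ρ in Set.Ioi (r - t), g1 s ρ * Real.sin (ω * (ρ - (r - t))) := by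
    rw [← integral_indicator measurableSet_Ioi]
    refine integral_congr_ae (ae_of_all _ fun ρ => ?_)
    simp only [Set.indicator_apply, Set.mem_Ioi, cosD]
    by_cases h : r - t < ρ
    · rw [if_pos h, if_pos (by linarith)]
      congr 3
      ring
    · rw [if_neg h, if_neg (by linarith), mul_zero]
  rw [h1]
  exact cos_parts hs hω (by linarith)

private theorem cos_gauss {s : ℝ} (hs : 0 < s) (ω t : ℝ) :
    ∫ ρ, g1 s ρ * Real.cos (ω * (t + ρ)) = Real.exp (-(ω ^ 2 * s / 2)) * Real.cos (ω * t) := by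
  have hb : (0 : ℝ) < ((1 / (2 * s) : ℝ) : ℂ).re := by
    rw [Complex.ofReal_re]
    positivity
  have h := fourierIntegral_gaussian hb ((ω : ℝ) : ℂ)
  have hsq : (((Real.pi : ℝ) : ℂ) / ((1 / (2 * s) : ℝ) : ℂ)) ^ (1 / 2 : ℂ) = ((Real.sqrt (2 * Real.pi * s) : ℝ) : ℂ) := by
    rw [← Complex.ofReal_div, Real.sqrt_eq_rpow, Complex.ofReal_cpow (by positivity)]
    congr 1
    · congr 1
      field_simp
    · push_cast
      rfl
  rw [hsq] at h
  have h2 : ∀ ρ : ℝ, g1 s ρ * Real.cos (ω * (t + ρ)) =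
      ((((Real.sqrt (2 * Real.pi * s))⁻¹ : ℝ) : ℂ) * Complex.exp (((ω * t : ℝ) : ℂ) * Complex.I) *
        (Complex.exp (Complex.I * ((ω : ℝ) : ℂ) * ρ) * Complex.exp (-((1 / (2 * s) : ℝ) : ℂ) * ρ ^ 2))).re := by
    intro ρ
    have e1 : ((((Real.sqrt (2 * Real.pi * s))⁻¹ : ℝ) : ℂ) * Complex.exp (((ω * t : ℝ) : ℂ) * Complex.I) *
        (Complex.exp (Complex.I * ((ω : ℝ) : ℂ) * ρ) * Complex.exp (-((1 / (2 * s) : ℝ) : ℂ) * ρ ^ 2))) =
        ((g1 s ρ : ℝ) : ℂ) * Complex.exp (((ω * (t + ρ) : ℝ) : ℂ) * Complex.I) := by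
      have e0 : ((g1 s ρ : ℝ) : ℂ) = (((Real.sqrt (2 * Real.pi * s))⁻¹ : ℝ) : ℂ) *
          Complex.exp ((-(1 / (2 * s)) * ρ ^ 2 : ℝ) : ℂ) := by
        rw [cos_g1, Complex.ofReal_mul, Complex.ofReal_exp]
      rw [e0]
      have e2 : Complex.exp (((ω * (t + ρ) : ℝ) : ℂ) * Complex.I) =
          Complex.exp (((ω * t : ℝ) : ℂ) * Complex.I) * Complex.exp (Complex.I * ((ω : ℝ) : ℂ) * ρ) := by
        rw [← Complex.exp_add]
        congr 1
        push_cast
        ring
      have e3 : Complex.exp (-((1 / (2 * s) : ℝ) : ℂ) * (ρ : ℂ) ^ 2) =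
          Complex.exp ((-(1 / (2 * s)) * ρ ^ 2 : ℝ) : ℂ) := by
        congr 1
        push_cast
        ring
      rw [e2, e3]
      ring
    rw [e1, Complex.re_ofReal_mul, Complex.exp_ofReal_mul_I_re]
  have hint : Integrable fun ρ : ℝ =>
      (((Real.sqrt (2 * Real.pi * s))⁻¹ : ℝ) : ℂ) * Complex.exp (((ω * t : ℝ) : ℂ) * Complex.I) *
        (Complex.exp (Complex.I * ((ω : ℝ) : ℂ) * ρ) * Complex.exp (-((1 / (2 * s) : ℝ) : ℂ) * ρ ^ 2)) := by
    refine Integrable.const_mul ?_ _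
    refine Integrable.mono' (integrable_exp_neg_mul_sq (show (0 : ℝ) < 1 / (2 * s) by positivity))
      (by fun_prop) (ae_of_all _ fun ρ => ?_)
    rw [norm_mul, Complex.norm_exp, Complex.norm_exp]
    have e4 : (Complex.I * ((ω : ℝ) : ℂ) * ρ).re = 0 := by simp
    have e5 : (-((1 / (2 * s) : ℝ) : ℂ) * (ρ : ℂ) ^ 2).re = -(1 / (2 * s)) * ρ ^ 2 := by
      rw [← Complex.ofReal_pow, ← Complex.ofReal_neg, ← Complex.ofReal_mul, Complex.ofReal_re]
    rw [e4, e5, Real.exp_zero, one_mul]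
  have h3 := integral_re hint
  have h4 : ∫ ρ, g1 s ρ * Real.cos (ω * (t + ρ)) = ∫ ρ : ℝ, RCLike.re
      ((((Real.sqrt (2 * Real.pi * s))⁻¹ : ℝ) : ℂ) * Complex.exp (((ω * t : ℝ) : ℂ) * Complex.I) *
        (Complex.exp (Complex.I * ((ω : ℝ) : ℂ) * ρ) * Complex.exp (-((1 / (2 * s) : ℝ) : ℂ) * ρ ^ 2))) :=
    integral_congr_ae (ae_of_all _ h2)
  rw [h4, h3, integral_const_mul, h]
  have hne : Real.sqrt (2 * Real.pi * s) ≠ 0 := by positivity
  have e6 : (((Real.sqrt (2 * Real.pi * s))⁻¹ : ℝ) : ℂ) * Complex.exp (((ω * t : ℝ) : ℂ) * Complex.I) *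
      (((Real.sqrt (2 * Real.pi * s) : ℝ) : ℂ) * Complex.exp (-((ω : ℝ) : ℂ) ^ 2 / (4 * ((1 / (2 * s) : ℝ) : ℂ)))) =
      ((Real.exp (-(ω ^ 2 * s / 2)) : ℝ) : ℂ) * Complex.exp (((ω * t : ℝ) : ℂ) * Complex.I) := by
    have e7 : Complex.exp (-((ω : ℝ) : ℂ) ^ 2 / (4 * ((1 / (2 * s) : ℝ) : ℂ))) = ((Real.exp (-(ω ^ 2 * s / 2)) : ℝ) : ℂ) := by
      rw [Complex.ofReal_exp]
      congr 1
      have : (-ω ^ 2 / (4 * (1 / (2 * s))) : ℝ) = -(ω ^ 2 * s / 2) := by
        field_simp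
        ring
      rw [← this]
      push_cast
      ring
    rw [e7]
    have e8 : (((Real.sqrt (2 * Real.pi * s))⁻¹ : ℝ) : ℂ) * ((Real.sqrt (2 * Real.pi * s) : ℝ) : ℂ) = 1 := by
      rw [← Complex.ofReal_mul, inv_mul_cancel₀ hne, Complex.ofReal_one]
    calc _ = ((((Real.sqrt (2 * Real.pi * s))⁻¹ : ℝ) : ℂ) * ((Real.sqrt (2 * Real.pi * s) : ℝ) : ℂ)) *
          (((Real.exp (-(ω ^ 2 * s / 2)) : ℝ) : ℂ) * Complex.exp (((ω * t : ℝ) : ℂ) * Complex.I)) := by ring
      _ = _ := by rw [e8, one_mul]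
  rw [e6]
  change (((Real.exp (-(ω ^ 2 * s / 2)) : ℝ) : ℂ) * Complex.exp (((ω * t : ℝ) : ℂ) * Complex.I)).re = _
  rw [Complex.re_ofReal_mul, Complex.exp_ofReal_mul_I_re]

private theorem cosp_split {r : ℝ} (hr : 0 < r) (x : ℝ) :
    cosp r x = Real.cos (Real.pi / (2 * r) * x) + cosD r (Real.pi / (2 * r)) x + cosD r (Real.pi / (2 * r)) (-x) := by
  have e0 : Real.pi * x / (2 * r) = Real.pi / (2 * r) * x := by ring
  have e1 : ∀ y : ℝ, Real.sin (Real.pi / (2 * r) * (y - r)) = -Real.cos (Real.pi / (2 * r) * y) := by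
    intro y
    have e2 : Real.pi / (2 * r) * (y - r) = Real.pi / (2 * r) * y - Real.pi / 2 := by
      field_simp
    rw [e2, Real.sin_sub_pi_div_two]
  unfold cosp cosD
  by_cases h1 : |x| ≤ r
  · have h2 := abs_le.1 h1
    rw [if_pos h1, if_neg (by linarith), if_neg (by linarith), e0, add_zero, add_zero]
  · rw [if_neg h1]
    push Not at h1
    rcases lt_abs.1 h1 with h2 | h2
    · rw [if_pos h2, if_neg (by linarith), e1]
      ring
    · rw [if_neg (by linarith), if_pos h2, e1]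
      have e3 : Real.pi / (2 * r) * -x = -(Real.pi / (2 * r) * x) := by ring
      rw [e3, Real.cos_neg]
      ring

theorem g1_conv_cosp {r s : ℝ} (hr : 0 < r) (hs : 0 < s) (t : ℝ) :
    Real.exp (-(s * (Real.pi ^ 2 / (8 * r ^ 2)))) * cosp r t ≤ ∫ ρ, g1 s ρ * cosp r (t + ρ) := by
  rcases le_or_gt r |t| with ht | ht
  · rw [cosp_out hr ht, mul_zero]
    exact integral_nonneg fun ρ => mul_nonneg (cos_g1_nonneg s ρ) (cosp_nonneg hr _)
  set ω : ℝ := Real.pi / (2 * r) with hω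
  have hω0 : 0 < ω := by
    rw [hω]
    positivity
  have ht' := abs_lt.1 ht
  have hi1 : Integrable fun ρ => g1 s ρ * Real.cos (ω * (t + ρ)) :=
    cos_int_mul (cos_g1_int hs) (by fun_prop) (C := 1) fun x => Real.abs_cos_le_one _
  have hi2 : Integrable fun ρ => g1 s ρ * cosD r ω (t + ρ) :=
    cos_int_mul (cos_g1_int hs) ((cosD_meas r ω).comp (measurable_const.add measurable_id)) (C := 1)
      fun x => cosD_le _ _ _
  have hi3 : Integrable fun ρ => g1 s ρ * cosD r ω (-(t + ρ)) :=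
    cos_int_mul (cos_g1_int hs) ((cosD_meas r ω).comp (measurable_const.add measurable_id).neg) (C := 1)
      fun x => cosD_le _ _ _
  have h1 : ∫ ρ, g1 s ρ * cosp r (t + ρ) = ∫ ρ, (g1 s ρ * Real.cos (ω * (t + ρ)) + g1 s ρ * cosD r ω (t + ρ) +
      g1 s ρ * cosD r ω (-(t + ρ))) := by
    refine integral_congr_ae (ae_of_all _ fun ρ => ?_)
    simp only
    rw [cosp_split hr (t + ρ)]
    ring
  have hi12 : Integrable fun ρ => g1 s ρ * Real.cos (ω * (t + ρ)) + g1 s ρ * cosD r ω (t + ρ) := hi1.add hi2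
  rw [h1, integral_add hi12 hi3, integral_add hi1 hi2, cos_gauss hs]
  have h2 := cosD_int (r := r) (t := t) hs hω0 ht'.2.le
  have h3 : 0 ≤ ∫ ρ, g1 s ρ * cosD r ω (-(t + ρ)) := by
    have h4 : ∫ ρ, g1 s ρ * cosD r ω (-(t + ρ)) = ∫ ρ, g1 s ρ * cosD r ω (-t + ρ) := by
      rw [← integral_neg_eq_self (fun ρ => g1 s ρ * cosD r ω (-t + ρ))]
      refine integral_congr_ae (ae_of_all _ fun ρ => ?_)
      simp only
      have e1 : g1 s (-ρ) = g1 s ρ := by
        unfold g1
        rw [neg_sq]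
      have e2 : -(t + ρ) = -t + -ρ := by ring
      rw [e1, e2]
    rw [h4]
    exact cosD_int hs hω0 (by linarith)
  have e5 : Real.exp (-(s * (Real.pi ^ 2 / (8 * r ^ 2)))) * cosp r t = Real.exp (-(ω ^ 2 * s / 2)) * Real.cos (ω * t) := by
    have e6 : s * (Real.pi ^ 2 / (8 * r ^ 2)) = ω ^ 2 * s / 2 := by
      rw [hω]
      field_simp
      ring
    have e7 : Real.pi * t / (2 * r) = ω * t := by
      rw [hω]
      ring
    rw [e6]
    unfold cosp
    rw [if_pos ht.le, e7]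
  rw [e5]
  linarith

end Pool.Agent.Lib.MP_d2370c_gt.ZN
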