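import Mathlib

/-!
# Row Z8b: the derivative of the determinant at a maximum point
-/

set_option autoImplicit false

open Finset

namespace Pool.Agent.Lib.MP_d2370c_gt.ZN

variable {n : ℕ}

/-- derivative of the determinant of a matrix of functions -/
private theorem Z8b_det_deriv (F : ℝ → Matrix (Fin n) (Fin n) ℝ) (F' : Matrix (Fin n) (Fin n) ℝ) (s : Set ℝ) (x : ℝ)
    (h : ∀ i k, HasDerivWithinAt (fun t => F t i k) (F' i k) s x) :
    HasDerivWithinAt (fun t => (F t).det)
      (∑ σ : Equiv.Perm (Fin n), ((Equiv.Perm.sign σ : ℤ) : ℝ) *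
        ∑ i, (∏ j ∈ univ.erase i, F x (σ j) j) • F' (σ i) i) s x := by
  have e : (fun t => (F t).det) = fun t => ∑ σ : Equiv.Perm (Fin n), ((Equiv.Perm.sign σ : ℤ) : ℝ) *
      ∏ i, F t (σ i) i := by
    funext t
    rw [Matrix.det_apply']
  rw [e]
  refine HasDerivWithinAt.fun_sum fun σ _ => ?_
  refine HasDerivWithinAt.const_mul _ ?_
  have := HasDerivWithinAt.fun_finsetProd (u := (univ : Finset (Fin n))) (f := fun i t => F t (σ i) i)
    (f' := fun i => F' (σ i) i) (s := s) (x := x) (fun i _ => h (σ i) i)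
  exact this

private theorem Z8b_det_line (A H : Matrix (Fin n) (Fin n) ℝ) (hA : A.det ≠ 0) :
    HasDerivAt (fun t : ℝ => (A + t • H).det) (A.det * (A⁻¹ * H).trace) 0 := by
  have hu : IsUnit A.det := isUnit_iff_ne_zero.mpr hA
  set M := A⁻¹ * H with hM
  set p : Polynomial ℝ := (Matrix.det (1 + (Polynomial.X : Polynomial ℝ) • M.map Polynomial.C)).divX.divX with hp
  have e : (fun t : ℝ => (A + t • H).det) = fun t : ℝ => A.det * (1 + M.trace * t + p.eval t * t ^ 2) := by
    funext t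
    have h1 : A + t • H = A * (1 + t • M) := by
      rw [mul_add, mul_one, Matrix.mul_smul, hM, ← Matrix.mul_assoc, Matrix.mul_nonsing_inv A hu, Matrix.one_mul]
    rw [h1, Matrix.det_mul, Matrix.det_one_add_smul]
  rw [e]
  have h1 : HasDerivAt (fun t : ℝ => p.eval t * t ^ 2) (p.derivative.eval 0 * 0 ^ 2 + p.eval 0 * (2 * 0)) 0 := by
    have a := p.hasDerivAt 0
    have b : HasDerivAt (fun t : ℝ => t ^ 2) (2 * 0) 0 := by
      have := hasDerivAt_pow 2 (0 : ℝ)
      simpa using this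
    exact a.mul b
  have h2 : HasDerivAt (fun t : ℝ => 1 + M.trace * t) (M.trace) 0 := by
    have := ((hasDerivAt_id (0 : ℝ)).const_mul M.trace).const_add 1
    simpa using this
  have h3 := (h2.add h1).const_mul A.det
  simpa using h3

theorem tr_nonpos (A H : Matrix (Fin n) (Fin n) ℝ) (hA : A.det ≠ 0) (R : ℝ → Matrix (Fin n) (Fin n) ℝ) (C ε0 : ℝ) (hε0 : 0 < ε0)
    (hR : ∀ ε, 0 < ε → ε ≤ ε0 → ∀ i k, |R ε i k| ≤ C * ε ^ 2)
    (hmax : ∀ ε, 0 < ε → ε ≤ ε0 → |(A + ε • H + R ε).det| ≤ |A.det|) : (A⁻¹ * H).trace ≤ 0 := by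
  classical
  -- the remainder, cut off at 0
  set S : ℝ → Matrix (Fin n) (Fin n) ℝ := fun t => if t = 0 then 0 else R t with hS
  have hSd : ∀ i k, HasDerivWithinAt (fun t => S t i k) 0 (Set.Icc 0 ε0) 0 := by
    intro i k
    have h0 : S 0 i k = 0 := by simp [hS]
    rw [hasDerivWithinAt_iff_isLittleO]
    simp only [h0, sub_zero, smul_zero]
    have hbig : (fun t : ℝ => S t i k) =O[nhdsWithin 0 (Set.Icc 0 ε0)] fun t : ℝ => t ^ 2 := by
      refine Asymptotics.IsBigO.of_bound C ?_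
      filter_upwards [self_mem_nhdsWithin] with t ht
      by_cases h : t = 0
      · subst h; simp [h0]
      · have htp : 0 < t := lt_of_le_of_ne ht.1 (Ne.symm h)
        have := hR t htp ht.2 i k
        simp only [hS, if_neg h]
        rw [Real.norm_eq_abs, Real.norm_eq_abs, abs_of_nonneg (sq_nonneg t)]
        exact this
    have hlit : (fun t : ℝ => t ^ 2) =o[nhdsWithin 0 (Set.Icc 0 ε0)] fun t : ℝ => t := by
      have : (fun t : ℝ => t ^ 2) =o[nhds 0] fun t : ℝ => t ^ 1 := Asymptotics.isLittleO_pow_pow (by norm_num)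
      have := this.mono (nhdsWithin_le_nhds (s := Set.Icc (0 : ℝ) ε0))
      simpa using this
    exact hbig.trans_isLittleO hlit
  have hl : ∀ i k, HasDerivWithinAt (fun t : ℝ => (A + t • H) i k) (H i k) (Set.Icc 0 ε0) 0 := by
    intro i k
    have : HasDerivAt (fun t : ℝ => A i k + t * H i k) (H i k) 0 := by
      have := ((hasDerivAt_id (0 : ℝ)).mul_const (H i k)).const_add (A i k)
      simpa using this
    simpa [Matrix.add_apply, Matrix.smul_apply, smul_eq_mul] using this.hasDerivWithinAt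
  have hF : ∀ i k, HasDerivWithinAt (fun t : ℝ => (A + t • H + S t) i k) (H i k) (Set.Icc 0 ε0) 0 := by
    intro i k
    have := (hl i k).add (hSd i k)
    rw [add_zero] at this
    exact this
  have d1 := Z8b_det_deriv (fun t => A + t • H) H (Set.Icc 0 ε0) 0 hl
  have d2 := Z8b_det_deriv (fun t => A + t • H + S t) H (Set.Icc 0 ε0) 0 hF
  have hS0 : S 0 = 0 := by simp [hS]
  have d3 := (Z8b_det_line A H hA).hasDerivWithinAt (s := Set.Icc 0 ε0)
  have hun : UniqueDiffWithinAt ℝ (Set.Icc (0 : ℝ) ε0) 0 := (uniqueDiffOn_Icc hε0) 0 ⟨le_rfl, hε0.le⟩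
  have heq := hun.eq_deriv _ d1 d3
  simp only [hS0, add_zero] at d2
  rw [heq] at d2
  -- multiply by the sign of det A
  set ψ : ℝ → ℝ := fun t => A.det * (A + t • H + S t).det with hψ
  have d4 : HasDerivWithinAt ψ (A.det * (A.det * (A⁻¹ * H).trace)) (Set.Icc 0 ε0) 0 := d2.const_mul A.det
  have hψ0 : ψ 0 = A.det * A.det := by simp [hψ, hS0]
  have hle : ∀ t ∈ Set.Icc (0 : ℝ) ε0, ψ t ≤ ψ 0 := by
    intro t ht
    rcases eq_or_lt_of_le ht.1 with h | h
    · rw [← h]
    · have h1 := hmax t h ht.2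
      have h2 : S t = R t := by simp [hS, h.ne']
      rw [hψ0]
      simp only [hψ, h2]
      calc A.det * (A + t • H + R t).det ≤ |A.det * (A + t • H + R t).det| := le_abs_self _
        _ = |A.det| * |(A + t • H + R t).det| := abs_mul _ _
        _ ≤ |A.det| * |A.det| := by gcongr
        _ = A.det * A.det := abs_mul_abs_self _
  have hder : A.det * (A.det * (A⁻¹ * H).trace) ≤ 0 := by
    rw [hasDerivWithinAt_iff_tendsto_slope] at d4
    have hne : (nhdsWithin (0 : ℝ) (Set.Icc 0 ε0 \ {0})).NeBot := by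
      have hsub : Set.Ioc (0 : ℝ) ε0 ⊆ Set.Icc 0 ε0 \ {0} := by
        intro t ht
        exact ⟨⟨ht.1.le, ht.2⟩, by simpa using ht.1.ne'⟩
      have : (nhdsWithin (0 : ℝ) (Set.Ioc 0 ε0)).NeBot := by
        rw [nhdsWithin_Ioc_eq_nhdsGT hε0]
        infer_instance
      exact Filter.NeBot.mono this (nhdsWithin_mono _ hsub)
    refine le_of_tendsto d4 ?_
    filter_upwards [self_mem_nhdsWithin] with t ht
    have ht0 : 0 < t := lt_of_le_of_ne ht.1.1 (fun h => ht.2 (by simpa using h.symm))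
    have := hle t ht.1
    rw [slope_def_field]
    refine div_nonpos_of_nonpos_of_nonneg (by linarith) (by linarith)
  have hpos : 0 < A.det * A.det := mul_self_pos.mpr hA
  have : (A.det * A.det) * (A⁻¹ * H).trace ≤ 0 := by
    have e : (A.det * A.det) * (A⁻¹ * H).trace = A.det * (A.det * (A⁻¹ * H).trace) := by ring
    rw [e]; exact hder
  by_contra hcon
  rw [not_le] at hcon
  have := mul_pos hpos hcon
  linarith

end Pool.Agent.Lib.MP_d2370c_gt.ZN
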