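import Pool.Agent.Lib.MP_d2370c_gt.ZN.Lew1
import Pool.Agent.Lib.MP_d2370c_gt.ZN.Lew2

/-!
# The position of Lewis for a solid 2-convex set
-/

set_option autoImplicit false

open Finset MeasureTheory Filter Topology

namespace Pool.Agent.Lib.MP_d2370c_gt.ZN

open Pool.Agent.Lib.MP_d2370c_gt

variable {n d N : ℕ}

private theorem lw_mem {T : Set (Fin N → ℝ)} (hT : SolidConvex 2 T) {s t : Fin N → ℝ} (hs : s ∈ T) (ht : t ∈ T) {ε : ℝ}
    (h0 : 0 ≤ ε) (h1 : ε ≤ 1) (x : Fin N → Fin n → ℝ)
    (hx : ∀ j, ∑ k, x j k ^ 2 ≤ (1 - ε) * s j ^ 2 + ε * t j ^ 2) : (fun j => Real.sqrt (∑ k, x j k ^ 2)) ∈ T := by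
  refine hT.solid _ (hT.mean s hs t ht (1 - ε) ε (by linarith) h0 (by ring)) _ fun j => ?_
  have h2 : ∀ y : ℝ, |y| ^ (2 : ℝ) = y ^ 2 := fun y => by rw [Real.rpow_two, sq_abs]
  rw [h2, h2, abs_of_nonneg (Real.sqrt_nonneg _), ← Real.sqrt_eq_rpow, abs_of_nonneg (Real.sqrt_nonneg _)]
  exact Real.sqrt_le_sqrt (hx j)

/-- first variation along a path in the class -/
private theorem lw_path (T : Set (Fin N → ℝ)) (w b : Fin N → Fin n → ℝ)
    (hA : (Matrix.of fun i k => ∑ j, w j i * b j k).det ≠ 0)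
    (hmax : ∀ b' : Fin N → Fin n → ℝ, (fun j => Real.sqrt (∑ k, b' j k ^ 2)) ∈ T →
        |(Matrix.of fun i k => ∑ j, w j i * b' j k).det| ≤ |(Matrix.of fun i k => ∑ j, w j i * b j k).det|)
    (h : Fin N → Fin n → ℝ) (r : ℝ → Fin N → Fin n → ℝ) (C ε0 : ℝ) (hC : 0 ≤ C) (hε0 : 0 < ε0)
    (hr : ∀ ε, 0 < ε → ε ≤ ε0 → ∀ j k, |r ε j k| ≤ C * ε ^ 2)
    (hin : ∀ ε, 0 < ε → ε ≤ ε0 → (fun j => Real.sqrt (∑ k, (b j k + ε * h j k + r ε j k) ^ 2)) ∈ T) :
    ∑ j, ∑ k, (∑ i, (Matrix.of fun i k => ∑ j, w j i * b j k)⁻¹ k i * w j i) * h j k ≤ 0 := by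
  set A : Matrix (Fin n) (Fin n) ℝ := Matrix.of fun i k => ∑ j, w j i * b j k with hAd
  have key := tr_nonpos A (Matrix.of fun i k => ∑ j, w j i * h j k) hA (fun ε => Matrix.of fun i k => ∑ j, w j i * r ε j k)
    ((∑ i, ∑ j, |w j i|) * C) ε0 hε0 ?_ ?_
  · have h1 : (A⁻¹ * Matrix.of fun i k => ∑ j, w j i * h j k).trace = ∑ j, ∑ k, (∑ i, A⁻¹ k i * w j i) * h j k := by
      simp only [Matrix.trace, Matrix.diag_apply, Matrix.mul_apply, Matrix.of_apply, Finset.mul_sum, Finset.sum_mul]
      rw [Finset.sum_comm (s := (Finset.univ : Finset (Fin N)))]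
      refine Finset.sum_congr rfl fun k _ => ?_
      rw [Finset.sum_comm]
      exact Finset.sum_congr rfl fun i _ => Finset.sum_congr rfl fun j _ => by ring
    rw [← h1]; exact key
  · intro ε he he' i k
    simp only [Matrix.of_apply]
    calc |∑ j, w j i * r ε j k| ≤ ∑ j, |w j i * r ε j k| := Finset.abs_sum_le_sum_abs _ _
      _ ≤ ∑ j, |w j i| * (C * ε ^ 2) := Finset.sum_le_sum fun j _ => by
          rw [abs_mul]; exact mul_le_mul_of_nonneg_left (hr ε he he' j k) (abs_nonneg _)
      _ = (∑ j, |w j i|) * (C * ε ^ 2) := by rw [Finset.sum_mul]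
      _ ≤ (∑ i, ∑ j, |w j i|) * (C * ε ^ 2) := by
          refine mul_le_mul_of_nonneg_right ?_ (by positivity)
          exact Finset.single_le_sum (f := fun i => ∑ j, |w j i|) (fun i _ => Finset.sum_nonneg fun j _ => abs_nonneg _)
            (Finset.mem_univ i)
      _ = (∑ i, ∑ j, |w j i|) * C * ε ^ 2 := by ring
  · intro ε he he'
    have h2 : (A + ε • (Matrix.of fun i k => ∑ j, w j i * h j k) + Matrix.of fun i k => ∑ j, w j i * r ε j k) =
        Matrix.of fun i k => ∑ j, w j i * (b j k + ε * h j k + r ε j k) := by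
      ext i k
      simp only [hAd, Matrix.add_apply, Matrix.smul_apply, Matrix.of_apply, smul_eq_mul, Finset.mul_sum]
      rw [← Finset.sum_add_distrib, ← Finset.sum_add_distrib]
      exact Finset.sum_congr rfl fun j _ => by ring
    rw [h2]
    exact hmax _ (hin ε he he')

private theorem lw_sqrt {x : ℝ} (hx : -1 ≤ x) : |Real.sqrt (1 + x) - 1 - x / 2| ≤ x ^ 2 / 2 := by
  have h0 : 0 ≤ 1 + x := by linarith
  set s := Real.sqrt (1 + x) with hs
  have hs0 : 0 ≤ s := Real.sqrt_nonneg _
  have hs2 : s ^ 2 = 1 + x := Real.sq_sqrt h0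
  have h1 : s - 1 - x / 2 = -((s - 1) ^ 2 / 2) := by nlinarith
  have h2 : (s - 1) ^ 2 ≤ x ^ 2 := by
    have h3 : x = (s - 1) * (s + 1) := by nlinarith
    rw [h3, mul_pow]
    have h4 : 1 ≤ (s + 1) ^ 2 := by nlinarith
    nlinarith [sq_nonneg (s - 1)]
  rw [h1, abs_neg, abs_of_nonneg (by positivity)]
  linarith

/-- the position of Lewis -/
theorem lewis (T : Set (Fin N → ℝ)) (hT : SolidConvex 2 T) (w : Fin N → Fin n → ℝ) (hn : 1 ≤ n)
    (hw : ∀ c : Fin n → ℝ, (∀ j, ∑ k, w j k * c k = 0) → c = 0) :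
    ∃ (v v' : Fin n → Fin n → ℝ) (l : Fin N → ℝ) (u : Fin N → Fin n → ℝ) (D : Fin N → ℝ), Frame l u ∧ D ∈ T ∧ (∀ j, 0 ≤ D j) ∧
      (∀ j, D j = 0 → w j = 0) ∧ (∀ j i, D j * w j i = ∑ k, l j * u j k * v k i) ∧
      (∀ k k', ∑ i, v k i * v' k' i = if k = k' then 1 else 0) ∧ (∀ i i', ∑ k, v k i * v' k i' = if i = i' then 1 else 0) ∧
      ∀ t ∈ T, ∑ j, l j * (t j / D j) ^ 2 ≤ n := by
  obtain ⟨b, hbT, hdet, hmax⟩ := lew_max T hT w hw
  have hpath := lw_path T w b hdet hmax
  set A : Matrix (Fin n) (Fin n) ℝ := Matrix.of fun i k => ∑ j, w j i * b j k with hAd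
  have hAA : A * A⁻¹ = 1 := Matrix.mul_nonsing_inv A (isUnit_iff_ne_zero.mpr hdet)
  have hAA' : A⁻¹ * A = 1 := Matrix.nonsing_inv_mul A (isUnit_iff_ne_zero.mpr hdet)
  set g : Fin N → Fin n → ℝ := fun j k => ∑ i, A⁻¹ k i * w j i with hg
  set D : Fin N → ℝ := fun j => Real.sqrt (∑ k, b j k ^ 2) with hD
  set G : Fin N → ℝ := fun j => Real.sqrt (∑ k, g j k ^ 2) with hG
  have hD0 : ∀ j, 0 ≤ D j := fun j => Real.sqrt_nonneg _
  have hG0 : ∀ j, 0 ≤ G j := fun j => Real.sqrt_nonneg _
  have hD2 : ∀ j, D j ^ 2 = ∑ k, b j k ^ 2 := fun j => Real.sq_sqrt (Finset.sum_nonneg fun k _ => sq_nonneg _)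
  have hG2 : ∀ j, G j ^ 2 = ∑ k, g j k ^ 2 := fun j => Real.sq_sqrt (Finset.sum_nonneg fun k _ => sq_nonneg _)
  -- `∑ g j ⊗ b j = 1`
  have hgb : ∀ k k', ∑ j, g j k * b j k' = if k = k' then 1 else 0 := by
    intro k k'
    have h1 : (A⁻¹ * A) k k' = ∑ j, g j k * b j k' := by
      simp only [Matrix.mul_apply]
      simp only [hg, Finset.sum_mul]
      rw [Finset.sum_comm]
      refine Finset.sum_congr rfl fun i _ => ?_
      simp only [hAd, Matrix.of_apply, Finset.mul_sum]
      exact Finset.sum_congr rfl fun j _ => by ring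
    rw [← h1, hAA', Matrix.one_apply]
  have htr : ∑ j, ∑ k, g j k * b j k = n := by
    rw [Finset.sum_comm]
    simp only [hgb, if_true, Finset.sum_const, Finset.card_univ, Fintype.card_fin, nsmul_eq_mul, mul_one]
  -- `w j = A g j`
  have hwg : ∀ j i, w j i = ∑ k, A i k * g j k := by
    intro j i
    have h1 : (A * A⁻¹).mulVec (w j) i = ∑ k, A i k * g j k := by
      rw [← Matrix.mulVec_mulVec]
      simp only [Matrix.mulVec, dotProduct, hg]
    rw [← h1, hAA, Matrix.one_mulVec]
  have hCS : ∀ j, ∑ k, g j k * b j k ≤ G j * D j := by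
    intro j
    have := Finset.sum_mul_sq_le_sq_mul_sq Finset.univ (g j) (b j)
    rw [← hG2, ← hD2, ← mul_pow] at this
    exact abs_le_of_sq_le_sq' this (mul_nonneg (hG0 j) (hD0 j)) |>.2
  -- first step
  have hlin : ∑ j, G j * D j ≤ n := by
    have h1 := hpath (fun j k => D j * (g j k / G j) - b j k) (fun _ _ _ => 0) 0 1 le_rfl one_pos
      (fun ε _ _ j k => by simp) ?_
    · have h2 : ∀ j, ∑ k, g j k * (D j * (g j k / G j) - b j k) = G j * D j - ∑ k, g j k * b j k := by
        intro j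
        have h3 : ∑ k, g j k * (D j * (g j k / G j) - b j k) = D j * (∑ k, g j k ^ 2) / G j - ∑ k, g j k * b j k := by
          rw [Finset.mul_sum, Finset.sum_div, ← Finset.sum_sub_distrib]
          exact Finset.sum_congr rfl fun k _ => by ring
        rw [h3, ← hG2]
        rcases eq_or_ne (G j) 0 with h4 | h4
        · rw [h4]; simp
        · congr 1; field_simp
      change ∑ j, ∑ k, g j k * (D j * (g j k / G j) - b j k) ≤ 0 at h1
      simp only [h2, Finset.sum_sub_distrib, htr] at h1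
      linarith
    · intro ε he he'
      refine lw_mem hT hbT hbT he.le he' _ fun j => ?_
      have h3 : ∀ k, (b j k + ε * (D j * (g j k / G j) - b j k) + 0) ^ 2 ≤
          (1 - ε) * b j k ^ 2 + ε * (D j * (g j k / G j)) ^ 2 := by
        intro k
        nlinarith [mul_nonneg (mul_nonneg he.le (sub_nonneg.mpr he')) (sq_nonneg (b j k - D j * (g j k / G j)))]
      refine (Finset.sum_le_sum fun k _ => h3 k).trans ?_
      rw [Finset.sum_add_distrib, ← Finset.mul_sum, ← Finset.mul_sum, ← hD2]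
      have h4 : ∑ k, (D j * (g j k / G j)) ^ 2 ≤ D j ^ 2 := by
        have h5 : ∑ k, (D j * (g j k / G j)) ^ 2 = D j ^ 2 * ((∑ k, g j k ^ 2) / G j ^ 2) := by
          rw [Finset.sum_div, Finset.mul_sum]
          exact Finset.sum_congr rfl fun k _ => by rw [mul_pow, div_pow]
        rw [h5, ← hG2]
        exact mul_le_of_le_one_right (sq_nonneg _) (div_self_le_one _)
      have h6 : ε * ∑ k, (D j * (g j k / G j)) ^ 2 ≤ ε * D j ^ 2 := mul_le_mul_of_nonneg_left h4 he.le
      change (1 - ε) * D j ^ 2 + ε * _ ≤ (1 - ε) * D j ^ 2 + ε * D j ^ 2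
      linarith
  have heq : ∀ j, ∑ k, g j k * b j k = G j * D j := by
    have h1 : ∑ j, (G j * D j - ∑ k, g j k * b j k) = 0 := by
      apply le_antisymm
      · rw [Finset.sum_sub_distrib, htr]; linarith
      · exact Finset.sum_nonneg fun j _ => sub_nonneg.mpr (hCS j)
    have h2 := (Finset.sum_eq_zero_iff_of_nonneg fun j _ => sub_nonneg.mpr (hCS j)).mp h1
    intro j
    linarith [h2 j (Finset.mem_univ j)]
  have hbg : ∀ j k, G j * b j k = D j * g j k := by
    intro j
    have h1 : ∑ k, (G j * b j k - D j * g j k) ^ 2 = 0 := by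
      have h2 : ∑ k, (G j * b j k - D j * g j k) ^ 2 = G j ^ 2 * ∑ k, b j k ^ 2 + D j ^ 2 * ∑ k, g j k ^ 2 -
          2 * (G j * D j) * ∑ k, g j k * b j k := by
        rw [Finset.mul_sum, Finset.mul_sum, Finset.mul_sum, ← Finset.sum_add_distrib, ← Finset.sum_sub_distrib]
        exact Finset.sum_congr rfl fun k _ => by ring
      rw [h2, ← hD2, ← hG2, heq]; ring
    intro k
    have h3 := (Finset.sum_eq_zero_iff_of_nonneg fun k _ => sq_nonneg (G j * b j k - D j * g j k)).mp h1 k (Finset.mem_univ k)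
    exact sub_eq_zero.mp ((pow_eq_zero_iff two_ne_zero).mp h3)
  -- no vanishing coordinates
  have hD00 : ∀ j, D j = 0 → w j = 0 := by
    intro j hj
    by_contra hwj
    have hGj : 0 < G j := by
      rcases (hG0 j).lt_or_eq with h1 | h1
      · exact h1
      · exfalso
        apply hwj
        have h2 : ∑ k, g j k ^ 2 = 0 := by rw [← hG2, ← h1]; ring
        have h3 := (Finset.sum_eq_zero_iff_of_nonneg fun k _ => sq_nonneg (g j k)).mp h2
        funext i
        rw [hwg]
        refine Finset.sum_eq_zero fun k _ => ?_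
        rw [(pow_eq_zero_iff two_ne_zero).mp (h3 k (Finset.mem_univ k)), mul_zero]
    obtain ⟨t, ht, ht0⟩ := hT.full
    have hbj : ∀ k, b j k = 0 := by
      have h2 : ∑ k, b j k ^ 2 = 0 := by rw [← hD2, hj]; ring
      intro k
      exact (pow_eq_zero_iff two_ne_zero).mp
        ((Finset.sum_eq_zero_iff_of_nonneg fun k _ => sq_nonneg (b j k)).mp h2 k (Finset.mem_univ k))
    have h1 := hpath (fun j' k => if j' = j then |t j| * (g j k / G j) else 0)
      (fun ε j' k => (Real.sqrt (1 - ε ^ 2) - 1) * b j' k) (∑ j, ∑ k, |b j k|) 1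
      (Finset.sum_nonneg fun _ _ => Finset.sum_nonneg fun _ _ => abs_nonneg _) one_pos ?_ ?_
    · have h2 : ∑ j', ∑ k, g j' k * (if j' = j then |t j| * (g j k / G j) else 0) = |t j| * G j := by
        rw [Finset.sum_eq_single j]
        · simp only [if_true]
          have h3 : ∑ k, g j k * (|t j| * (g j k / G j)) = |t j| * (∑ k, g j k ^ 2) / G j := by
            rw [Finset.mul_sum, Finset.sum_div]
            exact Finset.sum_congr rfl fun k _ => by ring
          rw [h3, ← hG2]
          field_simp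
        · intro j' _ hne
          exact Finset.sum_eq_zero fun k _ => by rw [if_neg hne, mul_zero]
        · intro h3; exact absurd (Finset.mem_univ j) h3
      rw [h2] at h1
      have h3 : 0 < |t j| * G j := mul_pos (abs_pos.mpr (ht0 j)) hGj
      linarith
    · intro ε he he' j' k
      rw [abs_mul, mul_comm]
      have h2 : |b j' k| ≤ ∑ j, ∑ k, |b j k| :=
        (Finset.single_le_sum (f := fun k => |b j' k|) (fun _ _ => abs_nonneg _) (Finset.mem_univ k)).trans
          (Finset.single_le_sum (f := fun j => ∑ k, |b j k|) (fun _ _ => Finset.sum_nonneg fun _ _ => abs_nonneg _)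
            (Finset.mem_univ j'))
      have h3 : |Real.sqrt (1 - ε ^ 2) - 1| ≤ ε ^ 2 := by
        have h4 : 0 ≤ 1 - ε ^ 2 := by nlinarith
        have h5 := Real.sqrt_nonneg (1 - ε ^ 2)
        have h6 := Real.sq_sqrt h4
        have h7 : Real.sqrt (1 - ε ^ 2) ≤ 1 := Real.sqrt_le_one.mpr (by nlinarith [sq_nonneg ε])
        rw [abs_sub_comm, abs_of_nonneg (by linarith)]
        nlinarith
      exact mul_le_mul h2 h3 (abs_nonneg _) ((abs_nonneg _).trans h2)
    · intro ε he he'
      refine lw_mem hT hbT ht (sq_nonneg ε) (by nlinarith) _ fun j' => ?_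
      have h4 : 0 ≤ 1 - ε ^ 2 := by nlinarith
      by_cases hjj : j' = j
      · subst hjj
        simp only [if_true]
        have h5 : ∑ k, (b j' k + ε * (|t j'| * (g j' k / G j')) + (Real.sqrt (1 - ε ^ 2) - 1) * b j' k) ^ 2 =
            ε ^ 2 * t j' ^ 2 * ((∑ k, g j' k ^ 2) / G j' ^ 2) := by
          rw [Finset.sum_div, Finset.mul_sum]
          refine Finset.sum_congr rfl fun k _ => ?_
          rw [hbj k, ← sq_abs (t j')]
          ring
        rw [h5, ← hG2, div_self (by positivity), mul_one]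
        have h6 : 0 ≤ (1 - ε ^ 2) * (fun j => Real.sqrt (∑ k, b j k ^ 2)) j' ^ 2 := mul_nonneg h4 (sq_nonneg _)
        linarith
      · simp only [if_neg hjj]
        have h5 : ∑ k, (b j' k + ε * 0 + (Real.sqrt (1 - ε ^ 2) - 1) * b j' k) ^ 2 = (1 - ε ^ 2) * ∑ k, b j' k ^ 2 := by
          rw [Finset.mul_sum]
          refine Finset.sum_congr rfl fun k _ => ?_
          have h6 : b j' k + ε * 0 + (Real.sqrt (1 - ε ^ 2) - 1) * b j' k = Real.sqrt (1 - ε ^ 2) * b j' k := by ring
          rw [h6, mul_pow, Real.sq_sqrt h4]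
        rw [h5, ← hD2]
        have h6 : 0 ≤ ε ^ 2 * t j' ^ 2 := by positivity
        change (1 - ε ^ 2) * D j' ^ 2 ≤ (1 - ε ^ 2) * D j' ^ 2 + ε ^ 2 * t j' ^ 2
        linarith
  -- second order in the moduli
  have hquad : ∀ t ∈ T, ∑ j, G j * D j * (t j / D j) ^ 2 ≤ n := by
    intro t ht
    set q : Fin N → ℝ := fun j => (t j / D j) ^ 2 - 1 with hq
    have h1 := hpath (fun j k => q j / 2 * b j k)
      (fun ε j k => (Real.sqrt (1 + ε * q j) - 1 - ε * q j / 2) * b j k) (∑ j, ∑ k, q j ^ 2 / 2 * |b j k|) 1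
      (Finset.sum_nonneg fun _ _ => Finset.sum_nonneg fun _ _ => by positivity) one_pos ?_ ?_
    · have h2 : ∀ j, ∑ k, g j k * (q j / 2 * b j k) = G j * D j * (t j / D j) ^ 2 / 2 - G j * D j / 2 := by
        intro j
        have h3 : ∑ k, g j k * (q j / 2 * b j k) = q j / 2 * ∑ k, g j k * b j k := by
          rw [Finset.mul_sum]
          exact Finset.sum_congr rfl fun k _ => by ring
        rw [h3, heq, hq]; ring
      change ∑ j, ∑ k, g j k * (q j / 2 * b j k) ≤ 0 at h1
      simp only [h2, Finset.sum_sub_distrib, ← Finset.sum_div] at h1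
      simp only [heq] at htr
      linarith
    · intro ε he he' j k
      have hx : -1 ≤ ε * q j := by
        have : -1 ≤ q j := by
          have := sq_nonneg (t j / D j)
          simp only [hq]; linarith
        nlinarith
      rw [abs_mul]
      have h2 : |Real.sqrt (1 + ε * q j) - 1 - ε * q j / 2| * |b j k| ≤ (q j ^ 2 / 2 * |b j k|) * ε ^ 2 := by
        calc |Real.sqrt (1 + ε * q j) - 1 - ε * q j / 2| * |b j k| ≤ (ε * q j) ^ 2 / 2 * |b j k| :=
              mul_le_mul_of_nonneg_right (lw_sqrt hx) (abs_nonneg _)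
          _ = (q j ^ 2 / 2 * |b j k|) * ε ^ 2 := by ring
      refine h2.trans (mul_le_mul_of_nonneg_right ?_ (sq_nonneg _))
      exact (Finset.single_le_sum (f := fun k => q j ^ 2 / 2 * |b j k|) (fun _ _ => by positivity) (Finset.mem_univ k)).trans
          (Finset.single_le_sum (f := fun j => ∑ k, q j ^ 2 / 2 * |b j k|)
            (fun _ _ => Finset.sum_nonneg fun _ _ => by positivity) (Finset.mem_univ j))
    · intro ε he he'
      refine lw_mem hT hbT ht he.le he' _ fun j => ?_
      have hx : -1 ≤ ε * q j := by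
        have : -1 ≤ q j := by
          have := sq_nonneg (t j / D j)
          simp only [hq]; linarith
        nlinarith
      have h5 : ∑ k, (b j k + ε * (q j / 2 * b j k) + (Real.sqrt (1 + ε * q j) - 1 - ε * q j / 2) * b j k) ^ 2 =
          (1 + ε * q j) * D j ^ 2 := by
        rw [hD2, Finset.mul_sum]
        refine Finset.sum_congr rfl fun k _ => ?_
        have h6 : b j k + ε * (q j / 2 * b j k) + (Real.sqrt (1 + ε * q j) - 1 - ε * q j / 2) * b j k =
            Real.sqrt (1 + ε * q j) * b j k := by ring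
        rw [h6, mul_pow, Real.sq_sqrt (by linarith)]
      rw [h5]
      change (1 + ε * q j) * D j ^ 2 ≤ (1 - ε) * D j ^ 2 + ε * t j ^ 2
      rcases eq_or_ne (D j) 0 with h6 | h6
      · rw [h6]
        have : 0 ≤ ε * t j ^ 2 := by positivity
        nlinarith
      · apply le_of_eq
        simp only [hq]
        field_simp
        ring
  -- unit vectors
  have k0 : Fin n := ⟨0, hn⟩
  refine ⟨fun k i => A i k, fun k i => A⁻¹ k i, fun j => G j * D j,
    fun j => if G j = 0 then fun k => if k = k0 then 1 else 0 else fun k => g j k / G j, D, ⟨?_, ?_, ?_⟩, hbT, hD0, hD00, ?_, ?_, ?_,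
    hquad⟩
  · exact fun j => mul_nonneg (hG0 j) (hD0 j)
  · intro j
    by_cases h1 : G j = 0
    · simp only [if_pos h1]
      simp
    · simp only [if_neg h1]
      have h2 : ∑ k, (g j k / G j) ^ 2 = (∑ k, g j k ^ 2) / G j ^ 2 := by
        rw [Finset.sum_div]; exact Finset.sum_congr rfl fun k _ => by rw [div_pow]
      rw [h2, ← hG2, div_self (by positivity)]
  · intro x y
    have h1 : ∀ j, G j * D j * (ana (fun j => if G j = 0 then fun k => if k = k0 then 1 else 0 else fun k => g j k / G j) x j *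
        ana (fun j => if G j = 0 then fun k => if k = k0 then 1 else 0 else fun k => g j k / G j) y j) =
        (∑ k, g j k * x k) * ∑ k, b j k * y k := by
      intro j
      by_cases h2 : G j = 0
      · have h3 : ∑ k, g j k ^ 2 = 0 := by rw [← hG2, h2]; ring
        have h4 : ∀ k, g j k = 0 := fun k => (pow_eq_zero_iff two_ne_zero).mp
          ((Finset.sum_eq_zero_iff_of_nonneg fun k _ => sq_nonneg (g j k)).mp h3 k (Finset.mem_univ k))
        rw [h2]
        simp only [h4, zero_mul, Finset.sum_const_zero]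
      · simp only [ana, if_neg h2]
        have h3 : ∑ k, g j k / G j * x k = (∑ k, g j k * x k) / G j := by
          rw [Finset.sum_div]; exact Finset.sum_congr rfl fun k _ => by ring
        have h4 : D j * ∑ k, g j k / G j * y k = ∑ k, b j k * y k := by
          rw [Finset.mul_sum]
          refine Finset.sum_congr rfl fun k _ => ?_
          have h5 := hbg j k
          field_simp
          linear_combination (-(y k)) * h5
        rw [h3, ← h4]
        field_simp
    simp only [h1]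
    simp only [Finset.sum_mul_sum]
    rw [Finset.sum_comm]
    refine Finset.sum_congr rfl fun k _ => ?_
    rw [Finset.sum_comm]
    have h2 : ∀ k', ∑ j, g j k * x k * (b j k' * y k') = x k * y k' * if k = k' then 1 else 0 := by
      intro k'
      rw [← hgb, Finset.mul_sum]
      exact Finset.sum_congr rfl fun j _ => by ring
    simp only [h2]
    simp
  · intro j i
    have h1 : ∀ k, G j * D j * (if G j = 0 then fun k => if k = k0 then 1 else 0 else fun k => g j k / G j : Fin n → ℝ) k * A i k =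
        D j * (A i k * g j k) := by
      intro k
      by_cases h2 : G j = 0
      · have h3 : ∑ k, g j k ^ 2 = 0 := by rw [← hG2, h2]; ring
        have h4 : ∀ k, g j k = 0 := fun k => (pow_eq_zero_iff two_ne_zero).mp
          ((Finset.sum_eq_zero_iff_of_nonneg fun k _ => sq_nonneg (g j k)).mp h3 k (Finset.mem_univ k))
        rw [h2, h4]; ring
      · rw [if_neg h2]
        field_simp
    simp only [h1]
    rw [← Finset.mul_sum, ← hwg]
  · intro k k'
    have h1 : ∑ i, A i k * A⁻¹ k' i = (A⁻¹ * A) k' k := by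
      rw [Matrix.mul_apply]; exact Finset.sum_congr rfl fun i _ => mul_comm _ _
    rw [h1, hAA', Matrix.one_apply]
    simp only [eq_comm]
  · intro i i'
    have h1 : ∑ k, A i k * A⁻¹ k i' = (A * A⁻¹) i i' := by
      rw [Matrix.mul_apply]
    rw [h1, hAA, Matrix.one_apply]

end Pool.Agent.Lib.MP_d2370c_gt.ZN
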