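import Pool.Agent.Lib.MP_d2370c_gt.ZN.FrB
import Pool.Agent.Lib.MP_d2370c_gt.ZN.Lewis
import Pool.Agent.Lib.MP_d2370c_gt.FinalB

/-!
# ZN, row Z16: bodies between a section of the polar of a solid set closed under quadratic means and its multiple

`lewis`; `ξ k = ∑ i, v k i * x i`, `x i = ∑ k, ξ k * v' k i`, `V2 k = XX 0 V (v' k)`: `XX x0 V x = XX x0 V2 ξ`,
`D j * ana w x j = l j * ana u ξ j`. If `n |ξ|^2 ≤ 1` then `∑ t j ana w x j = ∑ l j (t j / D j) ana u ξ j ≤ √n |ξ| ≤ 1`
for `t ∈ T`. With `t j = ± D j`: `∑ l j |ana u ξ j| ≤ M`. `width_frameB` for `V2`.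
-/

set_option autoImplicit false

open Finset MeasureTheory Filter Topology

namespace Pool.Agent.Lib.MP_d2370c_gt.ZN

open Pool.Agent.Lib.MP_d2370c_gt

variable {n d N : ℕ}

/-- the new coordinates -/
theorem z16_XX {v v' : Fin n → Fin n → ℝ} (hv2 : ∀ i i', ∑ k, v k i * v' k i' = if i = i' then 1 else 0)
    (V : Fin n → Fin d → ℝ) (x0 : Fin d → ℝ) (x : Fin n → ℝ) :
    XX x0 (fun k i' => ∑ i, v' k i * V i i') (fun k => ∑ i, v k i * x i) = XX x0 V x := by
  funext i'
  simp only [XX]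
  congr 1
  calc ∑ k, (∑ i, v k i * x i) * ∑ i, v' k i * V i i'
      = ∑ k, ∑ i, ∑ a, (v k i * x i) * (v' k a * V a i') := by
        refine sum_congr rfl fun k _ => ?_
        rw [sum_mul_sum]
    _ = ∑ i, ∑ a, ∑ k, (v k i * x i) * (v' k a * V a i') := by
        rw [sum_comm]
        refine sum_congr rfl fun i _ => ?_
        rw [sum_comm]
    _ = ∑ i, ∑ a, (if i = a then 1 else 0) * (x i * V a i') := by
        refine sum_congr rfl fun i _ => sum_congr rfl fun a _ => ?_
        rw [← hv2 i a, sum_mul]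
        refine sum_congr rfl fun k _ => ?_
        ring
    _ = ∑ i, x i * V i i' := by
        refine sum_congr rfl fun i _ => ?_
        simp

theorem z16_inv {v v' : Fin n → Fin n → ℝ} (hv1 : ∀ k k', ∑ i, v k i * v' k' i = if k = k' then 1 else 0)
    (ξ : Fin n → ℝ) : (fun k => ∑ i, v k i * ∑ k', ξ k' * v' k' i) = ξ := by
  funext k
  calc ∑ i, v k i * ∑ k', ξ k' * v' k' i = ∑ i, ∑ k', ξ k' * (v k i * v' k' i) := by
        refine sum_congr rfl fun i _ => ?_
        rw [mul_sum]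
        refine sum_congr rfl fun k' _ => ?_
        ring
    _ = ∑ k', ξ k' * ∑ i, v k i * v' k' i := by
        rw [sum_comm]
        refine sum_congr rfl fun k' _ => ?_
        rw [mul_sum]
    _ = ξ k := by
        simp only [hv1]
        simp

theorem z16_ana {l : Fin N → ℝ} {u : Fin N → Fin n → ℝ} {v : Fin n → Fin n → ℝ} {w : Fin N → Fin n → ℝ} {D : Fin N → ℝ}
    (hD : ∀ j i, D j * w j i = ∑ k, l j * u j k * v k i) (x : Fin n → ℝ) (j : Fin N) :
    D j * ana w x j = l j * ana u (fun k => ∑ i, v k i * x i) j := by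
  simp only [ana]
  calc D j * ∑ i, w j i * x i = ∑ i, (D j * w j i) * x i := by
        rw [mul_sum]
        refine sum_congr rfl fun i _ => ?_
        ring
    _ = ∑ i, ∑ k, l j * (u j k * (v k i * x i)) := by
        refine sum_congr rfl fun i _ => ?_
        rw [hD, sum_mul]
        refine sum_congr rfl fun k _ => ?_
        ring
    _ = l j * ∑ k, u j k * ∑ i, v k i * x i := by
        rw [sum_comm, mul_sum]
        refine sum_congr rfl fun k _ => ?_
        rw [mul_sum, mul_sum]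

theorem width_sect (T : Set (Fin N → ℝ)) (hT : SolidConvex 2 T) (K : Set (Fin d → ℝ)) (hconv : Convex ℝ K)
    (hint : (interior K).Nonempty) (hfree : ∀ z : Fin d → ℤ, (fun i => (z i : ℝ)) ∉ interior K) (w : Fin N → Fin n → ℝ)
    (hw : ∀ x : Fin n → ℝ, (∀ j, ∑ k, w j k * x k = 0) → x = 0) (V : Fin n → Fin d → ℝ) (x0 : Fin d → ℝ) (M : ℝ) (hM : 0 ≤ M)
    (hin : ∀ x : Fin n → ℝ, ana w x ∈ pol T → XX x0 V x ∈ K)
    (hout : ∀ z ∈ K, ∃ x : Fin n → ℝ, (∀ t ∈ T, ∑ j, t j * ana w x j ≤ M) ∧ z = XX x0 V x) :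
    ∃ y : Fin d → ℤ, y ≠ 0 ∧ ∀ z ∈ K, ∀ z' ∈ K, ∑ i, (z i - z' i) * (y i : ℝ) ≤ M * n := by
  have hd : 1 ≤ d := by
    rcases Nat.eq_zero_or_pos d with hd | hd
    · subst hd
      obtain ⟨x, hx⟩ := hint
      exfalso
      apply hfree 0
      have : (fun i => ((0 : Fin 0 → ℤ) i : ℝ)) = x := Subsingleton.elim _ _
      rw [this]
      exact hx
    · exact hd
  have hn : 1 ≤ n := by
    rcases Nat.eq_zero_or_pos n with hn | hn
    · subst hn
      exfalso
      obtain ⟨p, hp⟩ := hint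
      have h0 : ∀ z ∈ K, z = x0 := by
        intro z hz
        obtain ⟨x, -, rfl⟩ := hout z hz
        funext i
        simp [XX]
      have h1 : Tendsto (fun ε : ℝ => p + ε • (fun _ : Fin d => (1 : ℝ))) (𝓝 0) (𝓝 p) := by
        have : Continuous fun ε : ℝ => p + ε • (fun _ : Fin d => (1 : ℝ)) := by fun_prop
        have := this.tendsto 0
        simpa using this
      have h2 : ∀ᶠ ε in 𝓝[>] (0 : ℝ), p + ε • (fun _ : Fin d => (1 : ℝ)) ∈ K :=
        ((h1.eventually (isOpen_interior.mem_nhds hp)).mono fun ε hε => interior_subset hε).filter_mono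
          nhdsWithin_le_nhds
      obtain ⟨ε, hε, hε0⟩ := (h2.and self_mem_nhdsWithin).exists
      have e1 := h0 _ hε
      have e2 := h0 _ (interior_subset hp)
      have e3 := congrFun (e1.trans e2.symm) ⟨0, hd⟩
      simp only [Pi.add_apply, Pi.smul_apply, smul_eq_mul, mul_one] at e3
      have : (0 : ℝ) < ε := hε0
      linarith
    · exact hn
  obtain ⟨v, v', l, u, D, hF, hDT, hD0, hDz, hDw, hv1, hv2, hl⟩ := lewis T hT w hn hw
  refine width_frameB K hconv hint hfree hF (fun k i' => ∑ i, v' k i * V i i') x0 M hM ?_ ?_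
  · intro ξ hξ
    have e1 := z16_XX hv2 V x0 (fun i => ∑ k', ξ k' * v' k' i)
    rw [z16_inv hv1] at e1
    rw [e1]
    refine hin _ ?_
    intro t ht
    have e2 : ∀ j, ana w (fun i => ∑ k', ξ k' * v' k' i) j * t j = (Real.sqrt (l j) * (t j / D j)) *
        (Real.sqrt (l j) * ana u ξ j) := by
      intro j
      have e3 := z16_ana hDw (fun i => ∑ k', ξ k' * v' k' i) j
      rw [z16_inv hv1] at e3
      by_cases hj : D j = 0
      · have : ana w (fun i => ∑ k', ξ k' * v' k' i) j = 0 := by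
          simp [ana, hDz j hj]
        rw [this, hj]
        simp
      · have e4 : Real.sqrt (l j) * (t j / D j) * (Real.sqrt (l j) * ana u ξ j) =
            (Real.sqrt (l j) * Real.sqrt (l j)) * ana u ξ j * (t j / D j) := by ring
        rw [e4, Real.mul_self_sqrt (hF.nn j), ← e3]
        field_simp
    rw [sum_congr rfl fun j _ => e2 j]
    refine (Real.sum_mul_le_sqrt_mul_sqrt univ _ _).trans ?_
    have e5 : ∑ j, (Real.sqrt (l j) * (t j / D j)) ^ 2 = ∑ j, l j * (t j / D j) ^ 2 := by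
      refine sum_congr rfl fun j _ => ?_
      rw [mul_pow, Real.sq_sqrt (hF.nn j)]
    have e6 : ∑ j, (Real.sqrt (l j) * ana u ξ j) ^ 2 = ∑ k, ξ k ^ 2 := by
      rw [← hF.ana_sq]
      refine sum_congr rfl fun j _ => ?_
      rw [mul_pow, Real.sq_sqrt (hF.nn j)]
    rw [e5, e6, ← Real.sqrt_mul (sum_nonneg fun j _ => mul_nonneg (hF.nn j) (sq_nonneg _))]
    rw [← Real.sqrt_one]
    refine Real.sqrt_le_sqrt ?_
    refine (mul_le_mul_of_nonneg_right (hl t ht) (sum_nonneg fun k _ => sq_nonneg _)).trans ?_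
    exact hξ
  · intro z hz
    obtain ⟨x, hx, rfl⟩ := hout z hz
    refine ⟨fun k => ∑ i, v k i * x i, ?_, (z16_XX hv2 V x0 x).symm⟩
    have e1 : ∀ j, l j * |ana u (fun k => ∑ i, v k i * x i) j| =
        (if 0 ≤ ana w x j then D j else -D j) * ana w x j := by
      intro j
      have e2 := z16_ana hDw x j
      have e3 : l j * |ana u (fun k => ∑ i, v k i * x i) j| = |l j * ana u (fun k => ∑ i, v k i * x i) j| := by
        rw [abs_mul, abs_of_nonneg (hF.nn j)]
      rw [e3, ← e2, abs_mul, abs_of_nonneg (hD0 j)]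
      split_ifs with h0
      · rw [abs_of_nonneg h0]
      · push Not at h0
        rw [abs_of_neg h0]
        ring
    rw [sum_congr rfl fun j _ => e1 j]
    refine hx _ (hT.solid D hDT _ fun j => ?_)
    split_ifs
    · exact le_rfl
    · rw [abs_neg]

end Pool.Agent.Lib.MP_d2370c_gt.ZN
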