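import Pool.Agent.Lib.MP_d2370c_gt.ZN.FinA
import Pool.Agent.Lib.MP_d2370c_gt.ZN.FinB
import Pool.Agent.Lib.MP_d2370c_gt.ClassR

/-!
# The cube as a solid 2-convex body: widths of zonotopes and of polars of zonotopes

The cube `{t : ∀ j, |t j| ≤ 1}` is 2-convex solid and its polar is the cross-polytope. The two flatness bounds
`width_quot` and `width_sect` therefore give the flatness bound for a lattice-free body squeezed between a zonotope and
its dilate, and for a lattice-free body squeezed between the unit ball of a finite `ℓ¹`-sum norm and its dilate.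
-/

set_option autoImplicit false

open Finset MeasureTheory Filter Topology

namespace Pool.Agent.Lib.MP_d2370c_gt.ZN

open Pool.Agent.Lib.MP_d2370c_gt

variable {n d N : ℕ}

theorem cube_solid : SolidConvex 2 {t : Fin N → ℝ | ∀ j, |t j| ≤ 1} := by
  refine ⟨?_, ?_, ?_, ?_⟩
  · have h : {t : Fin N → ℝ | ∀ j, |t j| ≤ 1} = Set.pi Set.univ (fun _ => Set.Icc (-1 : ℝ) 1) := by
      ext x
      constructor
      · intro hx i _
        exact abs_le.mp (hx i)
      · intro hx i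
        exact abs_le.mpr (hx i (Set.mem_univ i))
    rw [h]
    exact isCompact_univ_pi fun _ => isCompact_Icc
  · intro t ht s hs j
    exact (hs j).trans (ht j)
  · intro s hs t ht a b ha hb hab j
    have e0 : 0 ≤ a * |s j| ^ (2 : ℝ) + b * |t j| ^ (2 : ℝ) := by positivity
    have e1 : |s j| ^ (2 : ℝ) ≤ 1 := Real.rpow_le_one (abs_nonneg _) (hs j) zero_le_two
    have e2 : |t j| ^ (2 : ℝ) ≤ 1 := Real.rpow_le_one (abs_nonneg _) (ht j) zero_le_two
    have e3 : a * |s j| ^ (2 : ℝ) + b * |t j| ^ (2 : ℝ) ≤ 1 := by nlinarith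
    show |(a * |s j| ^ (2 : ℝ) + b * |t j| ^ (2 : ℝ)) ^ ((1 : ℝ) / 2)| ≤ 1
    rw [abs_of_nonneg (Real.rpow_nonneg e0 _)]
    exact Real.rpow_le_one e0 e3 (by norm_num)
  · exact ⟨fun _ => 1, fun j => by simp, fun j => one_ne_zero⟩

theorem mem_pol_cube (s : Fin N → ℝ) : s ∈ pol {t : Fin N → ℝ | ∀ j, |t j| ≤ 1} ↔ ∑ j, |s j| ≤ 1 := by
  constructor
  · intro h
    have h1 := h (fun j => if 0 ≤ s j then 1 else -1) (fun j => by
      show |if 0 ≤ s j then (1 : ℝ) else -1| ≤ 1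
      split_ifs <;> simp)
    refine le_trans (le_of_eq (Finset.sum_congr rfl fun j _ => ?_)) h1
    show |s j| = s j * (if 0 ≤ s j then (1 : ℝ) else -1)
    split_ifs with hj
    · rw [abs_of_nonneg hj, mul_one]
    · rw [abs_of_neg (not_le.1 hj)]
      ring
  · intro h t ht
    refine (Finset.sum_le_sum fun j _ => ?_).trans h
    calc s j * t j ≤ |s j * t j| := le_abs_self _
      _ = |s j| * |t j| := abs_mul _ _
      _ ≤ |s j| * 1 := mul_le_mul_of_nonneg_left (ht j) (abs_nonneg _)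
      _ = |s j| := mul_one _

theorem width_zono (K : Set (Fin d → ℝ)) (hconv : Convex ℝ K) (hint : (interior K).Nonempty)
    (hfree : ∀ z : Fin d → ℤ, (fun i => (z i : ℝ)) ∉ interior K) (w : Fin N → Fin d → ℝ) (x0 : Fin d → ℝ) (M : ℝ) (hM : 0 ≤ M)
    (hin : ∀ s : Fin N → ℝ, (∀ j, |s j| ≤ 1) → XX x0 w s ∈ K)
    (hout : ∀ z ∈ K, ∃ s : Fin N → ℝ, (∀ j, |s j| ≤ M) ∧ z = XX x0 w s) :
    ∃ y : Fin d → ℤ, y ≠ 0 ∧ ∀ z ∈ K, ∀ z' ∈ K, ∑ i, (z i - z' i) * (y i : ℝ) ≤ M * d := by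
  refine width_quot _ cube_solid K hconv hint hfree w x0 M hM hin fun z hz => ?_
  obtain ⟨s, hs, rfl⟩ := hout z hz
  rcases hM.eq_or_lt with h0 | h0
  · refine ⟨0, fun j => by simp, ?_⟩
    congr 1
    funext j
    have := hs j
    rw [← h0] at this
    simpa using this
  · refine ⟨fun j => s j / M, fun j => ?_, ?_⟩
    · show |s j / M| ≤ 1
      rw [abs_div, abs_of_pos h0, div_le_one h0]
      exact hs j
    · congr 1
      funext j
      show s j = M * (s j / M)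
      field_simp

theorem width_polar (K : Set (Fin d → ℝ)) (hconv : Convex ℝ K) (hint : (interior K).Nonempty)
    (hfree : ∀ z : Fin d → ℤ, (fun i => (z i : ℝ)) ∉ interior K) (w : Fin N → Fin n → ℝ)
    (hw : ∀ x : Fin n → ℝ, (∀ j, ∑ k, w j k * x k = 0) → x = 0) (V : Fin n → Fin d → ℝ) (x0 : Fin d → ℝ) (M : ℝ) (hM : 0 ≤ M)
    (hin : ∀ x : Fin n → ℝ, ∑ j, |∑ k, w j k * x k| ≤ 1 → XX x0 V x ∈ K)
    (hout : ∀ z ∈ K, ∃ x : Fin n → ℝ, ∑ j, |∑ k, w j k * x k| ≤ M ∧ z = XX x0 V x) :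
    ∃ y : Fin d → ℤ, y ≠ 0 ∧ ∀ z ∈ K, ∀ z' ∈ K, ∑ i, (z i - z' i) * (y i : ℝ) ≤ M * n := by
  refine width_sect _ cube_solid K hconv hint hfree w hw V x0 M hM (fun x hx => hin x ?_) fun z hz => ?_
  · exact (mem_pol_cube _).1 hx
  · obtain ⟨x, hx, rfl⟩ := hout z hz
    refine ⟨x, fun t ht => ?_, rfl⟩
    refine (Finset.sum_le_sum fun j _ => ?_).trans hx
    show t j * ∑ k, w j k * x k ≤ |∑ k, w j k * x k|
    calc t j * ∑ k, w j k * x k ≤ |t j * ∑ k, w j k * x k| := le_abs_self _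
      _ = |t j| * |∑ k, w j k * x k| := abs_mul _ _
      _ ≤ 1 * |∑ k, w j k * x k| := mul_le_mul_of_nonneg_right (ht j) (abs_nonneg _)
      _ = |∑ k, w j k * x k| := one_mul _

end Pool.Agent.Lib.MP_d2370c_gt.ZN
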