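import Pool.Agent.Lib.MP_d2370c_gt.ZN.FTb
import Pool.Agent.Lib.MP_d2370c_gt.CoreA

/-!
# The double integrals `DD` as sums over the frequencies of the kernel
-/

set_option autoImplicit false

open Finset MeasureTheory Filter Topology

namespace Pool.Agent.Lib.MP_d2370c_gt.ZN

open Pool.Agent.Lib.MP_d2370c_gt

variable {n d N : ℕ}

private theorem ddb_conj_ee (x : ℝ) : (starRingEnd ℂ) (ee x) = ee (-x) := by
  unfold ee
  rw [← Complex.exp_conj]
  congr 1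
  simp only [map_mul, Complex.conj_ofReal, Complex.conj_I]
  have h2 : (starRingEnd ℂ) (2 : ℂ) = 2 := Complex.conj_ofNat 2
  rw [h2]
  push_cast
  ring

private theorem ddb_re_ee (x : ℝ) : (ee x).re = Real.cos (2 * Real.pi * x) := by
  unfold ee
  have : (2 * (Real.pi : ℂ) * (x : ℂ) * Complex.I) = ((2 * Real.pi * x : ℝ) : ℂ) * Complex.I := by
    push_cast; ring
  rw [this, Complex.exp_ofReal_mul_I_re]

private theorem ddb_int {H : (Fin n → ℝ) → ℝ} (hH : Integrable H) (a : Fin n → ℝ) (t : Fin n → ℝ) :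
    Integrable fun x : Fin n → ℝ => (H x : ℂ) * ee (∑ k, (t k - x k) * a k) := by
  refine (hH.norm).mono' ?_ ?_
  · refine (Complex.continuous_ofReal.comp_aestronglyMeasurable hH.aestronglyMeasurable).mul ?_
    exact (continuous_ee.comp (by fun_prop)).aestronglyMeasurable
  · filter_upwards with x
    rw [norm_mul, norm_ee, mul_one, Complex.norm_real]

private theorem ddb_int' {H : (Fin n → ℝ) → ℝ} (hH : Integrable H) (a : Fin n → ℝ) :
    Integrable fun x : Fin n → ℝ => (H x : ℂ) * ee (∑ k, x k * a k) := by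
  refine (hH.norm).mono' ?_ ?_
  · refine (Complex.continuous_ofReal.comp_aestronglyMeasurable hH.aestronglyMeasurable).mul ?_
    exact (continuous_ee.comp (by fun_prop)).aestronglyMeasurable
  · filter_upwards with x
    rw [norm_mul, norm_ee, mul_one, Complex.norm_real]

private theorem ddb_ofReal (f : (Fin n → ℝ) → ℝ) : ((∫ x : Fin n → ℝ, f x : ℝ) : ℂ) = ∫ x : Fin n → ℝ, ((f x : ℝ) : ℂ) :=
  integral_ofReal.symm

/-- the inner integral -/
private theorem ddb_inner (H : (Fin n → ℝ) → ℝ) (a : Fin n → ℝ) (t : Fin n → ℝ) :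
    ∫ x : Fin n → ℝ, (H x : ℂ) * ee (∑ k, (t k - x k) * a k) = ee (∑ k, t k * a k) * (starRingEnd ℂ) (FT H a) := by
  unfold FT
  rw [← integral_conj, ← integral_const_mul]
  refine integral_congr_ae (Eventually.of_forall fun x => ?_)
  simp only [map_mul, Complex.conj_ofReal, ddb_conj_ee]
  have e1 : ∑ k, (t k - x k) * a k = ∑ k, t k * a k + -∑ k, x k * a k := by
    rw [← sub_eq_add_neg, ← Finset.sum_sub_distrib]
    exact Finset.sum_congr rfl fun k _ => by ring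
  rw [e1, ee_add]
  ring

private theorem ddb_kernel (v : Fin n → Fin d → ℝ) (m : ℕ) (b : Fin d → ℝ) (x x' : Fin n → ℝ) :
    ((PP (XX b v (x - x')) ^ m : ℝ) : ℂ) = ∑ κ ∈ ix d m, ((cf m κ : ℝ) : ℂ) *
      (ee (∑ i, ((yy m κ i : ℤ) : ℝ) * b i) *
        ee (∑ k, (x k - x' k) * pr v (fun i => ((yy m κ i : ℤ) : ℝ)) k)) := by
  rw [PP_pow_expand']
  refine Finset.sum_congr rfl fun κ _ => ?_
  congr 1
  rw [sum_XX b v (x - x') (fun i => ((yy m κ i : ℤ) : ℝ)), ee_add]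
  rfl

private theorem ddb_gen (v : Fin n → Fin d → ℝ) (m : ℕ) (b : Fin d → ℝ) {F H : (Fin n → ℝ) → ℝ} (hF : Integrable F)
    (hH : Integrable H) :
    ((DD v m b F H : ℝ) : ℂ) = ∑ κ ∈ ix d m, ((cf m κ : ℝ) : ℂ) *
      (ee (∑ i, ((yy m κ i : ℤ) : ℝ) * b i) * (FT F (pr v fun i => ((yy m κ i : ℤ) : ℝ)) *
        (starRingEnd ℂ) (FT H (pr v fun i => ((yy m κ i : ℤ) : ℝ))))) := by
  unfold DD
  rw [ddb_ofReal]
  have h1 : ∀ x : Fin n → ℝ, ((∫ x' : Fin n → ℝ, PP (XX b v (x - x')) ^ m * F x * H x' : ℝ) : ℂ) =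
      ∑ κ ∈ ix d m, ((cf m κ : ℝ) : ℂ) * (ee (∑ i, ((yy m κ i : ℤ) : ℝ) * b i) *
        (starRingEnd ℂ) (FT H (pr v fun i => ((yy m κ i : ℤ) : ℝ)))) *
        ((F x : ℂ) * ee (∑ k, x k * pr v (fun i => ((yy m κ i : ℤ) : ℝ)) k)) := by
    intro x
    rw [ddb_ofReal]
    have h2 : ∀ x' : Fin n → ℝ, ((PP (XX b v (x - x')) ^ m * F x * H x' : ℝ) : ℂ) =
        ∑ κ ∈ ix d m, ((cf m κ : ℝ) : ℂ) * (ee (∑ i, ((yy m κ i : ℤ) : ℝ) * b i) * (F x : ℂ)) *
          ((H x' : ℂ) * ee (∑ k, (x k - x' k) * pr v (fun i => ((yy m κ i : ℤ) : ℝ)) k)) := by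
      intro x'
      rw [Complex.ofReal_mul, Complex.ofReal_mul, ddb_kernel, Finset.sum_mul, Finset.sum_mul]
      exact Finset.sum_congr rfl fun κ _ => by ring
    simp_rw [h2]
    rw [integral_finsetSum _ fun κ _ => (ddb_int hH _ x).const_mul _]
    refine Finset.sum_congr rfl fun κ _ => ?_
    rw [integral_const_mul, ddb_inner]
    ring
  simp_rw [h1]
  rw [integral_finsetSum _ fun κ _ => (ddb_int' hF _).const_mul _]
  refine Finset.sum_congr rfl fun κ _ => ?_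
  rw [integral_const_mul]
  change _ * FT F (pr v fun i => ((yy m κ i : ℤ) : ℝ)) = _
  ring

theorem DD_self (v : Fin n → Fin d → ℝ) (m : ℕ) (b : Fin d → ℝ) {F : (Fin n → ℝ) → ℝ} (hF : Integrable F) :
    DD v m b F F = ∑ κ ∈ ix d m, cf m κ * (Real.cos (2 * Real.pi * ∑ i, ((yy m κ i : ℤ) : ℝ) * b i) *
      ‖FT F (pr v fun i => ((yy m κ i : ℤ) : ℝ))‖ ^ 2) := by
  have h := congrArg Complex.re (ddb_gen v m b hF hF)
  rw [Complex.ofReal_re, Complex.re_sum] at h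
  rw [h]
  refine Finset.sum_congr rfl fun κ _ => ?_
  rw [Complex.mul_conj, Complex.normSq_eq_norm_sq, Complex.re_ofReal_mul, mul_comm (ee _), Complex.re_ofReal_mul,
    ddb_re_ee]
  ring

theorem DD_gm (v : Fin n → Fin d → ℝ) (m : ℕ) (b : Fin d → ℝ) {F : (Fin n → ℝ) → ℝ} (hF : Integrable F) {s : ℝ} (hs : 0 < s) :
    DD v m b F (gm s F) = ∑ κ ∈ ix d m, cf m κ * (Real.cos (2 * Real.pi * ∑ i, ((yy m κ i : ℤ) : ℝ) * b i) *
      (Real.exp (-(2 * Real.pi ^ 2 * s * ∑ k, (pr v fun i => ((yy m κ i : ℤ) : ℝ)) k ^ 2)) *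
      ‖FT F (pr v fun i => ((yy m κ i : ℤ) : ℝ))‖ ^ 2)) := by
  have h := congrArg Complex.re (ddb_gen v m b hF (gm_meas_int hF hs))
  rw [Complex.ofReal_re, Complex.re_sum] at h
  rw [h]
  refine Finset.sum_congr rfl fun κ _ => ?_
  rw [FT_gm hF hs, map_mul, Complex.conj_ofReal]
  have e1 : FT F (pr v fun i => ((yy m κ i : ℤ) : ℝ)) *
      (((Real.exp (-(2 * Real.pi ^ 2 * s * ∑ k, (pr v fun i => ((yy m κ i : ℤ) : ℝ)) k ^ 2)) : ℝ) : ℂ) *
        (starRingEnd ℂ) (FT F (pr v fun i => ((yy m κ i : ℤ) : ℝ)))) =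
      ((Real.exp (-(2 * Real.pi ^ 2 * s * ∑ k, (pr v fun i => ((yy m κ i : ℤ) : ℝ)) k ^ 2)) *
        ‖FT F (pr v fun i => ((yy m κ i : ℤ) : ℝ))‖ ^ 2 : ℝ) : ℂ) := by
    have e2 := Complex.mul_conj (FT F (pr v fun i => ((yy m κ i : ℤ) : ℝ)))
    rw [Complex.normSq_eq_norm_sq] at e2
    rw [Complex.ofReal_mul, ← e2]
    ring
  rw [e1, Complex.re_ofReal_mul, mul_comm (ee _), Complex.re_ofReal_mul, ddb_re_ee]
  ring

end Pool.Agent.Lib.MP_d2370c_gt.ZN
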