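import Mathlib
import Pool.Agent.Lib.MP_d2370c_gt.CoreA

/-!
# Zonoids and their polars: definitions

`Frame l u`: weights `l j ≥ 0` and unit vectors `u j` with `∑ l j (u j ⊗ u j) = 1`.
`syn l u s = ∑ l j s j u j`, `ana u x j = ⟨u j, x⟩`, `zon l u r` is the zonotope of all `syn l u s`, `|s j| ≤ r`.
`g1`, `gs`: Gaussian density with variance `s` on the line and on `ℝ^n`.
`Sub F Z E`: `F` is a bounded nonnegative function supported in `Z` whose Gaussian means decay at most like `exp (-s E / 2)`.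
-/

set_option autoImplicit false

open Finset MeasureTheory

namespace Pool.Agent.Lib.MP_d2370c_gt.ZN

open Pool.Agent.Lib.MP_d2370c_gt

variable {n d N : ℕ}

/-- the linear form `⟨u j, x⟩` -/
def ana (u : Fin N → Fin n → ℝ) (x : Fin n → ℝ) (j : Fin N) : ℝ := ∑ k, u j k * x k

/-- weights and unit vectors with `∑ l j (u j ⊗ u j) = 1` -/
structure Frame (l : Fin N → ℝ) (u : Fin N → Fin n → ℝ) : Prop where
  nn : ∀ j, 0 ≤ l j
  unit : ∀ j, ∑ k, u j k ^ 2 = 1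
  res : ∀ a b : Fin n → ℝ, ∑ j, l j * (ana u a j * ana u b j) = ∑ k, a k * b k

/-- `∑ l j s j u j` -/
def syn (l : Fin N → ℝ) (u : Fin N → Fin n → ℝ) (s : Fin N → ℝ) : Fin n → ℝ := fun k => ∑ j, l j * s j * u j k

/-- the zonotope of size `r` -/
def zon (l : Fin N → ℝ) (u : Fin N → Fin n → ℝ) (r : ℝ) : Set (Fin n → ℝ) :=
  {x | ∃ s : Fin N → ℝ, (∀ j, |s j| ≤ r) ∧ x = syn l u s}

/-- Gaussian density with variance `s` on the line -/
noncomputable def g1 (s t : ℝ) : ℝ := (Real.sqrt (2 * Real.pi * s))⁻¹ * Real.exp (-(t ^ 2 / (2 * s)))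

/-- Gaussian density with covariance `s • 1` on `ℝ^n` -/
noncomputable def gs (s : ℝ) (z : Fin n → ℝ) : ℝ := ∏ k, g1 s (z k)

/-- the Gaussian mean of `F` at `x` -/
noncomputable def gm (s : ℝ) (F : (Fin n → ℝ) → ℝ) (x : Fin n → ℝ) : ℝ := ∫ z : Fin n → ℝ, gs s z * F (x + z)

/-- the positive arc of the cosine -/
noncomputable def cosp (r t : ℝ) : ℝ := if |t| ≤ r then Real.cos (Real.pi * t / (2 * r)) else 0

/-- the supremum of `∏ cosp r (s j) ^ l j` over all representations `x = syn l u s`, `|s j| ≤ r` -/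
noncomputable def FF (l : Fin N → ℝ) (u : Fin N → Fin n → ℝ) (r : ℝ) (x : Fin n → ℝ) : ℝ :=
  sSup {y | ∃ s : Fin N → ℝ, (∀ j, |s j| ≤ r) ∧ x = syn l u s ∧ y = ∏ j, cosp r (s j) ^ l j}

/-- Gaussian means decay at most like `exp (-s E / 2)` -/
structure Sub (F : (Fin n → ℝ) → ℝ) (Z : Set (Fin n → ℝ)) (E : ℝ) : Prop where
  meas : Measurable F
  nn : ∀ x, 0 ≤ F x
  le_one : ∀ x, F x ≤ 1
  supp : ∀ x, x ∉ Z → F x = 0
  pos : 0 < ∫ x, F x
  sub : ∀ s, 0 < s → ∀ x, Real.exp (-(s * E / 2)) * F x ≤ gm s F x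

/-- Fourier integral -/
noncomputable def FT (F : (Fin n → ℝ) → ℝ) (a : Fin n → ℝ) : ℂ := ∫ x : Fin n → ℝ, (F x : ℂ) * ee (∑ k, x k * a k)

/-- double integral with the kernel `PP ^ m` -/
noncomputable def DD (v : Fin n → Fin d → ℝ) (m : ℕ) (b : Fin d → ℝ) (F H : (Fin n → ℝ) → ℝ) : ℝ :=
  ∫ x : Fin n → ℝ, ∫ x' : Fin n → ℝ, PP (XX b v (x - x')) ^ m * F x * H x'

/-- integral with the kernel `PP ^ m` of the square of the Fourier transform, regularized -/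
noncomputable def JJ (v : Fin n → Fin d → ℝ) (m : ℕ) (b : Fin d → ℝ) (F : (Fin n → ℝ) → ℝ) (δ : ℝ) : ℝ :=
  ∫ x : Fin n → ℝ, PP (XX b v x) ^ m * (‖FT F x‖ ^ 2 * Real.exp (-(2 * Real.pi ^ 2 * δ * ∑ k, x k ^ 2)))

/-- smoothed autocorrelation -/
noncomputable def II (F : (Fin n → ℝ) → ℝ) (δ : ℝ) (a : Fin n → ℝ) : ℝ :=
  ∫ c : Fin n → ℝ, ∫ c' : Fin n → ℝ, F c * F c' * gs δ (c - c' + a)

end Pool.Agent.Lib.MP_d2370c_gt.ZN
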