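import Pool.Agent.Lib.MP_d2370c_gt.ZN.Frame
import Pool.Agent.Lib.MP_d2370c_gt.ZN.Cos
import Pool.Agent.Lib.MP_d2370c_gt.ZN.Barthe

/-!
# The function `FF`: bounds, measurability, positive integral
-/

set_option autoImplicit false

open Finset MeasureTheory Filter Topology

namespace Pool.Agent.Lib.MP_d2370c_gt.ZN

open Pool.Agent.Lib.MP_d2370c_gt

variable {n d N : ℕ}

private theorem z6_prod_nonneg {l : Fin N → ℝ} {r : ℝ} (hr : 0 < r) (s : Fin N → ℝ) :
    0 ≤ ∏ j, cosp r (s j) ^ l j :=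
  Finset.prod_nonneg fun j _ => Real.rpow_nonneg (cosp_nonneg hr _) _

private theorem z6_prod_le_one {l : Fin N → ℝ} (hl : ∀ j, 0 ≤ l j) {r : ℝ} (hr : 0 < r) (s : Fin N → ℝ) :
    ∏ j, cosp r (s j) ^ l j ≤ 1 :=
  Finset.prod_le_one (fun j _ => Real.rpow_nonneg (cosp_nonneg hr _) _) fun j _ =>
    Real.rpow_le_one (cosp_nonneg hr _) (cosp_le_one _ _) (hl j)

theorem FF_ge {l : Fin N → ℝ} {u : Fin N → Fin n → ℝ} (h : Frame l u) {r : ℝ} (hr : 0 < r) (s : Fin N → ℝ) (hs : ∀ j, |s j| ≤ r) :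
    ∏ j, cosp r (s j) ^ l j ≤ FF l u r (syn l u s) := by
  unfold FF
  refine le_csSup ⟨1, ?_⟩ ⟨s, hs, rfl, rfl⟩
  rintro y ⟨t, _, _, rfl⟩
  exact z6_prod_le_one h.nn hr t

theorem FF_le {l : Fin N → ℝ} {u : Fin N → Fin n → ℝ} {r : ℝ} (x : Fin n → ℝ) {B : ℝ} (hB : 0 ≤ B)
    (h : ∀ s : Fin N → ℝ, (∀ j, |s j| ≤ r) → x = syn l u s → ∏ j, cosp r (s j) ^ l j ≤ B) : FF l u r x ≤ B := by
  unfold FF
  refine Real.sSup_le ?_ hB
  rintro y ⟨s, h1, h2, rfl⟩
  exact h s h1 h2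

theorem FF_nonneg {l : Fin N → ℝ} {u : Fin N → Fin n → ℝ} (h : Frame l u) {r : ℝ} (hr : 0 < r) (x : Fin n → ℝ) : 0 ≤ FF l u r x := by
  unfold FF
  refine Real.sSup_nonneg ?_
  rintro y ⟨s, _, _, rfl⟩
  exact z6_prod_nonneg hr s

theorem FF_le_one {l : Fin N → ℝ} {u : Fin N → Fin n → ℝ} (h : Frame l u) {r : ℝ} (hr : 0 < r) (x : Fin n → ℝ) : FF l u r x ≤ 1 :=
  FF_le x zero_le_one fun s _ _ => z6_prod_le_one h.nn hr s

theorem FF_out {l : Fin N → ℝ} {u : Fin N → Fin n → ℝ} {r : ℝ} (x : Fin n → ℝ) (hx : x ∉ zon l u r) : FF l u r x = 0 := by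
  unfold FF
  have : {y | ∃ s : Fin N → ℝ, (∀ j, |s j| ≤ r) ∧ x = syn l u s ∧ y = ∏ j, cosp r (s j) ^ l j} = ∅ := by
    refine Set.eq_empty_iff_forall_notMem.2 ?_
    rintro y ⟨s, h1, h2, _⟩
    exact hx ⟨s, h1, h2⟩
  rw [this, Real.sSup_empty]

private theorem z6_syn_cont (l : Fin N → ℝ) (u : Fin N → Fin n → ℝ) : Continuous (syn l u) := by
  refine continuous_pi fun k => ?_
  unfold syn
  exact continuous_finset_sum _ fun j _ =>
    ((continuous_const.mul (continuous_apply j)).mul continuous_const)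

private theorem z6_prod_cont {l : Fin N → ℝ} (hl : ∀ j, 0 ≤ l j) {r : ℝ} (hr : 0 < r) :
    Continuous fun s : Fin N → ℝ => ∏ j, cosp r (s j) ^ l j :=
  continuous_finset_prod _ fun j _ =>
    ((cosp_cont hr).comp (continuous_apply j)).rpow_const fun _ => Or.inr (hl j)

private theorem z6_box_compact (r : ℝ) : IsCompact {s : Fin N → ℝ | ∀ j, |s j| ≤ r} := by
  have : {s : Fin N → ℝ | ∀ j, |s j| ≤ r} = Set.pi Set.univ fun _ => Set.Icc (-r) r := by
    ext s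
    simp only [Set.mem_setOf_eq, Set.mem_pi, Set.mem_univ, forall_true_left, Set.mem_Icc, abs_le]
  rw [this]
  exact isCompact_univ_pi fun _ => isCompact_Icc

/-- the supremum is attained -/
private theorem z6_attain {l : Fin N → ℝ} {u : Fin N → Fin n → ℝ} (h : Frame l u) {r : ℝ} (hr : 0 < r)
    (x : Fin n → ℝ) {c : ℝ} (hc : 0 < c) :
    c ≤ FF l u r x ↔ ∃ s : Fin N → ℝ, (∀ j, |s j| ≤ r) ∧ x = syn l u s ∧ c ≤ ∏ j, cosp r (s j) ^ l j := by
  constructor
  · intro hcx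
    by_cases hne : ∃ s : Fin N → ℝ, (∀ j, |s j| ≤ r) ∧ x = syn l u s
    · have hK : IsCompact ({s : Fin N → ℝ | ∀ j, |s j| ≤ r} ∩ {s | x = syn l u s}) :=
        (z6_box_compact r).inter_right (isClosed_eq continuous_const (z6_syn_cont l u))
      obtain ⟨s0, h1, h2⟩ := hne
      obtain ⟨s, hs, hmax⟩ := hK.exists_isMaxOn ⟨s0, h1, h2⟩ (z6_prod_cont h.nn hr).continuousOn
      refine ⟨s, hs.1, hs.2, hcx.trans ?_⟩
      refine FF_le x (z6_prod_nonneg hr s) fun t ht1 ht2 => ?_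
      exact hmax ⟨ht1, ht2⟩
    · exfalso
      have : FF l u r x = 0 := FF_out x fun hx => by
        obtain ⟨s, h1, h2⟩ := hx
        exact hne ⟨s, h1, h2⟩
      linarith
  · rintro ⟨s, h1, h2, h3⟩
    rw [h2]
    exact h3.trans (FF_ge h hr s h1)

theorem FF_meas {l : Fin N → ℝ} {u : Fin N → Fin n → ℝ} (h : Frame l u) {r : ℝ} (hr : 0 < r) : Measurable (FF l u r) := by
  refine measurable_of_Ici fun c => ?_
  rcases lt_or_ge 0 c with hc | hc
  · have h1 : FF l u r ⁻¹' Set.Ici c =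
        syn l u '' ({s : Fin N → ℝ | ∀ j, |s j| ≤ r} ∩ {s | c ≤ ∏ j, cosp r (s j) ^ l j}) := by
      ext x
      rw [Set.mem_preimage, Set.mem_Ici, z6_attain h hr x hc]
      constructor
      · rintro ⟨s, h1, h2, h3⟩
        exact ⟨s, ⟨h1, h3⟩, h2.symm⟩
      · rintro ⟨s, ⟨h1, h3⟩, h2⟩
        exact ⟨s, h1, h2.symm, h3⟩
    rw [h1]
    refine IsCompact.measurableSet ?_
    refine IsCompact.image ?_ (z6_syn_cont l u)
    exact (z6_box_compact r).inter_right (isClosed_le continuous_const (z6_prod_cont h.nn hr))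
  · have h1 : FF l u r ⁻¹' Set.Ici c = Set.univ := by
      refine Set.eq_univ_of_forall fun x => ?_
      exact hc.trans (FF_nonneg h hr x)
    rw [h1]
    exact MeasurableSet.univ

theorem FF_integrable {l : Fin N → ℝ} {u : Fin N → Fin n → ℝ} (h : Frame l u) {r : ℝ} (hr : 0 < r) : Integrable (FF l u r) := by
  have hZ := zon_compact l u r
  have h1 : Integrable (Set.indicator (zon l u r) fun _ => (1 : ℝ)) :=
    (integrable_indicator_iff hZ.measurableSet).2 (integrableOn_const hZ.measure_lt_top.ne)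
  refine h1.mono' (FF_meas h hr).aestronglyMeasurable (Filter.Eventually.of_forall fun x => ?_)
  rw [Real.norm_of_nonneg (FF_nonneg h hr x)]
  by_cases hx : x ∈ zon l u r
  · rw [Set.indicator_of_mem hx]
    exact FF_le_one h hr x
  · rw [Set.indicator_of_notMem hx, FF_out x hx]

theorem FF_int_pos {l : Fin N → ℝ} {u : Fin N → Fin n → ℝ} (h : Frame l u) {r : ℝ} (hr : 0 < r) : 0 < ∫ x, FF l u r x := by
  have h1 := barthe h (fun _ => cosp r) (fun _ => -r) (fun _ => r) (fun _ => by linarith)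
    (fun _ => cosp_cont hr) (fun _ t ht => cosp_pos hr (abs_lt.2 ht))
    (fun _ t ht => cosp_out hr (by
      by_contra hcon
      exact ht (abs_lt.1 (not_le.1 hcon)))) (FF l u r) (FF_nonneg h hr) (FF_integrable h hr)
    (fun s hs => FF_ge h hr s fun j => (abs_lt.2 (hs j)).le)
  refine lt_of_lt_of_le ?_ h1
  exact Finset.prod_pos fun j _ => Real.rpow_pos_of_pos (cosp_int_pos hr) _

end Pool.Agent.Lib.MP_d2370c_gt.ZN
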