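import Pool.Agent.Lib.MP_d2370c_gt.ZN.Defs

/-!
# Gaussian densities on the line and on `ℝ^n`
-/

set_option autoImplicit false

open Finset MeasureTheory

namespace Pool.Agent.Lib.MP_d2370c_gt.ZN

open Pool.Agent.Lib.MP_d2370c_gt

variable {n d N : ℕ}

theorem gs_eq (s : ℝ) (z : Fin n → ℝ) :
    gs s z = (Real.sqrt (2 * Real.pi * s))⁻¹ ^ n * Real.exp (-((∑ k, z k ^ 2) / (2 * s))) := by
  unfold gs g1
  rw [Finset.prod_mul_distrib, Finset.prod_const, Finset.card_univ, Fintype.card_fin, ← Real.exp_sum,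
    Finset.sum_neg_distrib, Finset.sum_div]

theorem g1_nonneg (s t : ℝ) : 0 ≤ g1 s t := by
  unfold g1
  positivity

theorem g1_pos {s : ℝ} (hs : 0 < s) (t : ℝ) : 0 < g1 s t := by
  unfold g1
  have : 0 < Real.sqrt (2 * Real.pi * s) := Real.sqrt_pos.2 (by positivity)
  positivity

theorem g1_cont (s : ℝ) : Continuous (g1 s) := by
  unfold g1
  fun_prop

theorem g1_neg (s t : ℝ) : g1 s (-t) = g1 s t := by
  unfold g1
  rw [neg_sq]

theorem gs_nonneg (s : ℝ) (z : Fin n → ℝ) : 0 ≤ gs s z := Finset.prod_nonneg fun _ _ => g1_nonneg _ _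

theorem gs_pos {s : ℝ} (hs : 0 < s) (z : Fin n → ℝ) : 0 < gs s z := Finset.prod_pos fun _ _ => g1_pos hs _

theorem gs_cont {s : ℝ} (hs : 0 < s) : Continuous (gs (n := n) s) := by
  have _ := hs
  unfold gs
  exact continuous_finsetProd _ fun k _ => (g1_cont s).comp (continuous_apply k)

theorem gs_neg (s : ℝ) (z : Fin n → ℝ) : gs s (-z) = gs s z := by
  unfold gs
  exact Finset.prod_congr rfl fun k _ => by rw [Pi.neg_apply, g1_neg]

theorem g1_eq_pdf {s : ℝ} (hs : 0 < s) (t : ℝ) : g1 s t = ProbabilityTheory.gaussianPDFReal 0 ⟨s, hs.le⟩ t := by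
  unfold g1 ProbabilityTheory.gaussianPDFReal
  simp only [sub_zero, neg_div]
  rfl

theorem g1_integrable {s : ℝ} (hs : 0 < s) : Integrable (g1 s) := by
  have h : g1 s = ProbabilityTheory.gaussianPDFReal 0 ⟨s, hs.le⟩ := funext fun t => g1_eq_pdf hs t
  rw [h]
  exact ProbabilityTheory.integrable_gaussianPDFReal _ _

theorem g1_integral {s : ℝ} (hs : 0 < s) : ∫ t, g1 s t = 1 := by
  have h : g1 s = ProbabilityTheory.gaussianPDFReal 0 ⟨s, hs.le⟩ := funext fun t => g1_eq_pdf hs t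
  rw [h]
  apply ProbabilityTheory.integral_gaussianPDFReal_eq_one
  intro h0
  have := congrArg NNReal.toReal h0
  exact hs.ne' this

theorem gs_integrable {s : ℝ} (hs : 0 < s) : Integrable (gs (n := n) s) := by
  unfold gs
  exact Integrable.fintype_prod (f := fun (_ : Fin n) (t : ℝ) => g1 s t) fun _ => g1_integrable hs

theorem gs_integral {s : ℝ} (hs : 0 < s) : ∫ z : Fin n → ℝ, gs s z = 1 := by
  unfold gs
  rw [integral_fintype_prod_volume_eq_prod (f := fun (_ : Fin n) (t : ℝ) => g1 s t)]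
  simp [g1_integral hs]

/-- the Gauss integral used twice -/
theorem gauss_int {b : ℝ} (hb : 0 < b) (a : ℝ) :
    ∫ x : ℝ, ((Real.exp (-(b * x ^ 2)) : ℝ) : ℂ) * ee (x * a) =
      ((Real.sqrt (Real.pi / b) * Real.exp (-(Real.pi ^ 2 * a ^ 2 / b)) : ℝ) : ℂ) := by
  have h := fourierIntegral_gaussian (b := (b : ℂ)) (by simpa using hb) ((2 * Real.pi * a : ℝ) : ℂ)
  have e1 : ∀ x : ℝ, ((Real.exp (-(b * x ^ 2)) : ℝ) : ℂ) * ee (x * a) =
      Complex.exp (Complex.I * ((2 * Real.pi * a : ℝ) : ℂ) * x) * Complex.exp (-(b : ℂ) * x ^ 2) := by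
    intro x
    unfold ee
    rw [Complex.ofReal_exp, mul_comm]
    congr 1
    · congr 1
      push_cast
      ring
    · congr 1
      push_cast
      ring
  simp_rw [e1]
  rw [h]
  push_cast
  congr 1
  · rw [← Complex.ofReal_div, Real.sqrt_eq_rpow, Complex.ofReal_cpow (by positivity)]
    norm_num
  · congr 1
    have : (b : ℂ) ≠ 0 := by exact_mod_cast hb.ne'
    field_simp
    ring

theorem g1_FT {s : ℝ} (hs : 0 < s) (a : ℝ) :
    ∫ x : ℝ, ((g1 s x : ℝ) : ℂ) * ee (x * a) = ((Real.exp (-(2 * Real.pi ^ 2 * s * a ^ 2)) : ℝ) : ℂ) := by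
  have h := gauss_int (b := 1 / (2 * s)) (by positivity) a
  have e1 : ∀ x : ℝ, ((g1 s x : ℝ) : ℂ) * ee (x * a) =
      (((Real.sqrt (2 * Real.pi * s))⁻¹ : ℝ) : ℂ) * (((Real.exp (-(1 / (2 * s) * x ^ 2)) : ℝ) : ℂ) * ee (x * a)) := by
    intro x
    unfold g1
    rw [Complex.ofReal_mul, mul_assoc]
    congr 4
    ring
  simp_rw [e1]
  rw [integral_const_mul, h, ← Complex.ofReal_mul]
  congr 1
  have h1 : Real.pi / (1 / (2 * s)) = 2 * Real.pi * s := by field_simp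
  have h2 : Real.pi ^ 2 * a ^ 2 / (1 / (2 * s)) = 2 * Real.pi ^ 2 * s * a ^ 2 := by field_simp
  have h3 : 0 < Real.sqrt (2 * Real.pi * s) := Real.sqrt_pos.2 (by positivity)
  rw [h1, h2, ← mul_assoc, inv_mul_cancel₀ h3.ne', one_mul]

theorem g1_inv {s : ℝ} (hs : 0 < s) (a : ℝ) :
    ∫ x : ℝ, ((Real.exp (-(2 * Real.pi ^ 2 * s * x ^ 2)) : ℝ) : ℂ) * ee (x * a) = ((g1 s a : ℝ) : ℂ) := by
  have h := gauss_int (b := 2 * Real.pi ^ 2 * s) (by positivity) a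
  rw [h]
  congr 1
  unfold g1
  have h1 : Real.pi / (2 * Real.pi ^ 2 * s) = (2 * Real.pi * s)⁻¹ := by
    field_simp
  have h2 : Real.pi ^ 2 * a ^ 2 / (2 * Real.pi ^ 2 * s) = a ^ 2 / (2 * s) := by
    field_simp
  rw [h1, h2, Real.sqrt_inv]

theorem ee_dot (x a : Fin n → ℝ) : ee (∑ k, x k * a k) = ∏ k, ee (x k * a k) := ee_sum _ _

theorem gs_FT {s : ℝ} (hs : 0 < s) (a : Fin n → ℝ) :
    FT (gs (n := n) s) a = ((Real.exp (-(2 * Real.pi ^ 2 * s * ∑ k, a k ^ 2)) : ℝ) : ℂ) := by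
  unfold FT gs
  have e1 : ∀ x : Fin n → ℝ, ((∏ k, g1 s (x k) : ℝ) : ℂ) * ee (∑ k, x k * a k) =
      ∏ k, (((g1 s (x k) : ℝ) : ℂ) * ee (x k * a k)) := by
    intro x
    rw [ee_dot, Finset.prod_mul_distrib]
    push_cast
    rfl
  simp_rw [e1]
  rw [integral_fintype_prod_volume_eq_prod (f := fun (k : Fin n) (t : ℝ) => ((g1 s t : ℝ) : ℂ) * ee (t * a k))]
  simp_rw [g1_FT hs]
  rw [← Complex.ofReal_prod, ← Real.exp_sum, Finset.sum_neg_distrib, Finset.mul_sum]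

/-- the other direction -/
theorem gs_inv {s : ℝ} (hs : 0 < s) (a : Fin n → ℝ) :
    FT (fun x : Fin n → ℝ => Real.exp (-(2 * Real.pi ^ 2 * s * ∑ k, x k ^ 2))) a = ((gs s a : ℝ) : ℂ) := by
  unfold FT gs
  have e1 : ∀ x : Fin n → ℝ, ((Real.exp (-(2 * Real.pi ^ 2 * s * ∑ k, x k ^ 2)) : ℝ) : ℂ) * ee (∑ k, x k * a k) =
      ∏ k, (((Real.exp (-(2 * Real.pi ^ 2 * s * x k ^ 2)) : ℝ) : ℂ) * ee (x k * a k)) := by
    intro x
    rw [ee_dot, Finset.prod_mul_distrib, ← Complex.ofReal_prod, ← Real.exp_sum, Finset.sum_neg_distrib, Finset.mul_sum]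
  simp_rw [e1]
  rw [integral_fintype_prod_volume_eq_prod
    (f := fun (k : Fin n) (t : ℝ) => ((Real.exp (-(2 * Real.pi ^ 2 * s * t ^ 2)) : ℝ) : ℂ) * ee (t * a k))]
  simp_rw [g1_inv hs]
  rw [← Complex.ofReal_prod]

theorem g1_semi {s t : ℝ} (hs : 0 < s) (ht : 0 < t) (x : ℝ) : g1 (s + t) x = ∫ z : ℝ, g1 s (x + z) * g1 t z := by
  have hst : 0 < s + t := by positivity
  have e1 : ∀ z : ℝ, g1 s (x + z) * g1 t z =
      ((Real.sqrt (2 * Real.pi * s))⁻¹ * (Real.sqrt (2 * Real.pi * t))⁻¹ * Real.exp (-(x ^ 2 / (2 * (s + t))))) *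
        Real.exp (-((s + t) / (2 * s * t)) * (z + x * t / (s + t)) ^ 2) := by
    intro z
    unfold g1
    have : Real.exp (-((x + z) ^ 2 / (2 * s))) * Real.exp (-(z ^ 2 / (2 * t))) =
        Real.exp (-(x ^ 2 / (2 * (s + t)))) * Real.exp (-((s + t) / (2 * s * t)) * (z + x * t / (s + t)) ^ 2) := by
      rw [← Real.exp_add, ← Real.exp_add]
      congr 1
      field_simp
      ring
    calc (Real.sqrt (2 * Real.pi * s))⁻¹ * Real.exp (-((x + z) ^ 2 / (2 * s))) *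
        ((Real.sqrt (2 * Real.pi * t))⁻¹ * Real.exp (-(z ^ 2 / (2 * t)))) =
        (Real.sqrt (2 * Real.pi * s))⁻¹ * (Real.sqrt (2 * Real.pi * t))⁻¹ *
          (Real.exp (-((x + z) ^ 2 / (2 * s))) * Real.exp (-(z ^ 2 / (2 * t)))) := by ring
      _ = _ := by rw [this]; ring
  simp_rw [e1]
  rw [integral_const_mul, integral_add_right_eq_self (fun z : ℝ => Real.exp (-((s + t) / (2 * s * t)) * z ^ 2)),
    integral_gaussian]
  unfold g1
  have h1 : Real.pi / ((s + t) / (2 * s * t)) = (2 * Real.pi * s) * (2 * Real.pi * t) * (2 * Real.pi * (s + t))⁻¹ := by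
    field_simp
  have h2 : 0 < Real.sqrt (2 * Real.pi * s) := Real.sqrt_pos.2 (by positivity)
  have h3 : 0 < Real.sqrt (2 * Real.pi * t) := Real.sqrt_pos.2 (by positivity)
  have h4 : Real.sqrt ((2 * Real.pi * s) * (2 * Real.pi * t) * (2 * Real.pi * (s + t))⁻¹) =
      Real.sqrt (2 * Real.pi * s) * Real.sqrt (2 * Real.pi * t) * (Real.sqrt (2 * Real.pi * (s + t)))⁻¹ := by
    rw [Real.sqrt_mul (by positivity), Real.sqrt_mul (by positivity), Real.sqrt_inv]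
  rw [h1, h4]
  generalize Real.sqrt (2 * Real.pi * s) = A at *
  generalize Real.sqrt (2 * Real.pi * t) = B at *
  generalize Real.sqrt (2 * Real.pi * (s + t)) = C
  have hA : A ≠ 0 := h2.ne'
  have hB : B ≠ 0 := h3.ne'
  calc C⁻¹ * Real.exp (-(x ^ 2 / (2 * (s + t)))) = (A⁻¹ * A) * (B⁻¹ * B) * (C⁻¹ * Real.exp (-(x ^ 2 / (2 * (s + t))))) := by
        rw [inv_mul_cancel₀ hA, inv_mul_cancel₀ hB, one_mul, one_mul]
    _ = _ := by ring

theorem gs_semi {s t : ℝ} (hs : 0 < s) (ht : 0 < t) (x : Fin n → ℝ) : gs (s + t) x = ∫ z : Fin n → ℝ, gs s (x + z) * gs t z := by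
  unfold gs
  have e1 : ∀ z : Fin n → ℝ, (∏ k, g1 s ((x + z) k)) * ∏ k, g1 t (z k) = ∏ k, (g1 s (x k + z k) * g1 t (z k)) := by
    intro z
    rw [Finset.prod_mul_distrib]
    rfl
  simp_rw [e1]
  rw [integral_fintype_prod_volume_eq_prod (f := fun (k : Fin n) (r : ℝ) => g1 s (x k + r) * g1 t r)]
  exact Finset.prod_congr rfl fun k _ => g1_semi hs ht (x k)

/-- comparison of `gs s` and `gs (2 s)` away from the origin -/
theorem gs_far {s γ : ℝ} (hs : 0 < s) (z : Fin n → ℝ) (hz : γ ^ 2 ≤ ∑ k, z k ^ 2) :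
    gs s z ≤ Real.sqrt 2 ^ n * Real.exp (-(γ ^ 2 / (4 * s))) * gs (2 * s) z := by
  rw [gs_eq, gs_eq]
  have h1 : Real.sqrt (2 * Real.pi * (2 * s)) = Real.sqrt 2 * Real.sqrt (2 * Real.pi * s) := by
    rw [← Real.sqrt_mul (by norm_num)]
    congr 1
    ring
  have h2 : 0 < Real.sqrt (2 * Real.pi * s) := Real.sqrt_pos.2 (by positivity)
  have h3 : 0 < Real.sqrt 2 := Real.sqrt_pos.2 (by norm_num)
  have e1 : Real.sqrt 2 ^ n * Real.exp (-(γ ^ 2 / (4 * s))) * ((Real.sqrt (2 * Real.pi * (2 * s)))⁻¹ ^ n *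
      Real.exp (-((∑ k, z k ^ 2) / (2 * (2 * s))))) = (Real.sqrt (2 * Real.pi * s))⁻¹ ^ n *
      Real.exp (-(γ ^ 2 / (4 * s)) + -((∑ k, z k ^ 2) / (2 * (2 * s)))) := by
    rw [h1, Real.exp_add, mul_inv, mul_pow]
    have : Real.sqrt 2 ^ n * (Real.sqrt 2)⁻¹ ^ n = 1 := by
      rw [← mul_pow, mul_inv_cancel₀ h3.ne', one_pow]
    calc Real.sqrt 2 ^ n * Real.exp (-(γ ^ 2 / (4 * s))) * ((Real.sqrt 2)⁻¹ ^ n * (Real.sqrt (2 * Real.pi * s))⁻¹ ^ n *
        Real.exp (-((∑ k, z k ^ 2) / (2 * (2 * s))))) = (Real.sqrt 2 ^ n * (Real.sqrt 2)⁻¹ ^ n) *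
          ((Real.sqrt (2 * Real.pi * s))⁻¹ ^ n * (Real.exp (-(γ ^ 2 / (4 * s))) *
          Real.exp (-((∑ k, z k ^ 2) / (2 * (2 * s)))))) := by ring
      _ = _ := by rw [this, one_mul]
  rw [e1]
  apply mul_le_mul_of_nonneg_left _ (by positivity)
  apply Real.exp_le_exp.2
  have h4 : γ ^ 2 / (4 * s) ≤ (∑ k, z k ^ 2) / (4 * s) := div_le_div_of_nonneg_right hz (by positivity)
  have h5 : (∑ k, z k ^ 2) / (2 * s) = (∑ k, z k ^ 2) / (4 * s) + (∑ k, z k ^ 2) / (4 * s) := by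
    field_simp
    ring
  have h6 : (∑ k, z k ^ 2) / (2 * (2 * s)) = (∑ k, z k ^ 2) / (4 * s) := by
    congr 1
    ring
  rw [h5, h6]
  linarith

end Pool.Agent.Lib.MP_d2370c_gt.ZN
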