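import Mathlib
import Pool.Agent.Lib.MP_d2370c_gt.ZN.Gauss

/-! Fourier integrals of functions and of their Gaussian means. -/

set_option autoImplicit false

open Finset MeasureTheory Filter Topology

namespace Pool.Agent.Lib.MP_d2370c_gt.ZN

open Pool.Agent.Lib.MP_d2370c_gt

variable {n d N : ℕ}

theorem Sub.integrable {F : (Fin n → ℝ) → ℝ} {Z : Set (Fin n → ℝ)} {E : ℝ} (hF : Sub F Z E) (hZ : IsCompact Z) : Integrable F := by
  have h1 : Integrable (Z.indicator fun _ : Fin n → ℝ => (1 : ℝ)) :=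
    (integrableOn_const hZ.measure_lt_top.ne).integrable_indicator hZ.measurableSet
  refine h1.mono' hF.meas.aestronglyMeasurable (Filter.Eventually.of_forall fun x => ?_)
  rw [Real.norm_of_nonneg (hF.nn x)]
  by_cases hx : x ∈ Z
  · rw [Set.indicator_of_mem hx]; exact hF.le_one x
  · rw [Set.indicator_of_notMem hx, hF.supp x hx]

theorem conj_ee (x : ℝ) : (starRingEnd ℂ) (ee x) = ee (-x) := by
  unfold ee
  rw [← Complex.exp_conj]
  congr 1
  simp only [map_mul, Complex.conj_ofReal, Complex.conj_I, map_ofNat]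
  push_cast
  ring

theorem FT_neg (F : (Fin n → ℝ) → ℝ) (a : Fin n → ℝ) : FT F (-a) = (starRingEnd ℂ) (FT F a) := by
  unfold FT
  rw [← integral_conj]
  refine integral_congr_ae (Filter.Eventually.of_forall fun x => ?_)
  simp only [map_mul, Complex.conj_ofReal, conj_ee]
  congr 2
  simp [Finset.sum_neg_distrib]

theorem int_shear {F : (Fin n → ℝ) → ℝ} (hF : Integrable F) {s : ℝ} (hs : 0 < s) :
    Integrable (fun p : (Fin n → ℝ) × (Fin n → ℝ) => gs s p.1 * F (p.2 + p.1)) (volume.prod volume) := by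
  have h1 : Integrable (fun p : (Fin n → ℝ) × (Fin n → ℝ) => gs s p.1 * F p.2) (volume.prod volume) :=
    (gs_integrable hs).mul_prod hF
  have h2 := (measurePreserving_prod_add (volume : Measure (Fin n → ℝ)) (volume : Measure (Fin n → ℝ))).integrable_comp_of_integrable h1
  refine h2.congr (Filter.Eventually.of_forall fun p => ?_)
  simp only [Function.comp]
  rw [add_comm p.1 p.2]

theorem gm_meas_int {F : (Fin n → ℝ) → ℝ} (hF : Integrable F) {s : ℝ} (hs : 0 < s) : Integrable (gm s F) :=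
  (int_shear hF hs).integral_prod_right

theorem continuous_lin (a : Fin n → ℝ) : Continuous fun x : Fin n → ℝ => ee (∑ k, x k * a k) := by
  apply continuous_ee.comp
  fun_prop

theorem FT_gm {F : (Fin n → ℝ) → ℝ} (hF : Integrable F) {s : ℝ} (hs : 0 < s) (a : Fin n → ℝ) :
    FT (gm s F) a = ((Real.exp (-(2 * Real.pi ^ 2 * s * ∑ k, a k ^ 2)) : ℝ) : ℂ) * FT F a := by
  have e0 : FT (gm s F) a = ∫ x : Fin n → ℝ, ∫ z : Fin n → ℝ, ((gs s z * F (x + z) : ℝ) : ℂ) * ee (∑ k, x k * a k) := by
    unfold FT gm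
    refine integral_congr_ae (Filter.Eventually.of_forall fun x => ?_)
    simp only
    rw [integral_mul_const, integral_complex_ofReal]
  have hint : Integrable (fun p : (Fin n → ℝ) × (Fin n → ℝ) => ((gs s p.2 * F (p.1 + p.2) : ℝ) : ℂ) * ee (∑ k, p.1 k * a k))
      (volume.prod volume) := by
    have h1 : Integrable (fun p : (Fin n → ℝ) × (Fin n → ℝ) => ((gs s p.2 * F (p.1 + p.2) : ℝ) : ℂ)) (volume.prod volume) :=
      ((int_shear hF hs).swap).ofReal
    refine h1.mul_bdd (c := 1) ?_ ?_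
    · exact ((continuous_lin a).comp continuous_fst).aestronglyMeasurable
    · exact Filter.Eventually.of_forall fun p => (norm_ee _).le
  rw [e0, integral_integral_swap hint]
  have e1 : ∀ z : Fin n → ℝ, ∫ x : Fin n → ℝ, ((gs s z * F (x + z) : ℝ) : ℂ) * ee (∑ k, x k * a k) =
      (gs s z : ℂ) * ee (∑ k, z k * (-a) k) * FT F a := by
    intro z
    have h2 : ∫ x : Fin n → ℝ, ((gs s z * F (x + z) : ℝ) : ℂ) * ee (∑ k, x k * a k) =
        ∫ x : Fin n → ℝ, ((gs s z * F x : ℝ) : ℂ) * ee (∑ k, (x k - z k) * a k) := by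
      rw [← integral_add_right_eq_self (μ := (volume : Measure (Fin n → ℝ)))
        (fun x : Fin n → ℝ => ((gs s z * F x : ℝ) : ℂ) * ee (∑ k, (x k - z k) * a k)) z]
      refine integral_congr_ae (Filter.Eventually.of_forall fun x => ?_)
      simp
    rw [h2, FT, ← integral_const_mul]
    refine integral_congr_ae (Filter.Eventually.of_forall fun x => ?_)
    simp only
    have h3 : ee (∑ k, (x k - z k) * a k) = ee (∑ k, z k * (-a) k) * ee (∑ k, x k * a k) := by
      rw [← ee_add]
      congr 1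
      rw [← Finset.sum_add_distrib]
      refine Finset.sum_congr rfl fun k _ => ?_
      simp only [Pi.neg_apply]
      ring
    rw [h3]
    push_cast
    ring
  simp_rw [e1]
  rw [integral_mul_const]
  have e2 : ∫ z : Fin n → ℝ, (gs s z : ℂ) * ee (∑ k, z k * (-a) k) = FT (gs s) (-a) := rfl
  rw [e2, gs_FT hs]
  simp

end Pool.Agent.Lib.MP_d2370c_gt.ZN
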