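import Pool.Agent.Lib.MP_d2370c_gt.ZN.FrA
import Pool.Agent.Lib.MP_d2370c_gt.ZN.Lewis

/-!
# ZN, row Z15: bodies between a linear image of a solid set closed under quadratic means and its multiple

`K` has interior points, so the `w j` span and `1 ≤ d`. `lewis` and `width_frameA` with `n = d`:
`XX x0 v (syn l u s) = XX x0 w (D j s j)`; `XX x0 w (M t) = XX x0 v (M syn l u (t / D))`,
`|syn l u (t / D)|^2 ≤ ∑ l (t / D)^2 ≤ d`.
-/

set_option autoImplicit false

open Finset MeasureTheory Filter Topology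

namespace Pool.Agent.Lib.MP_d2370c_gt.ZN

open Pool.Agent.Lib.MP_d2370c_gt

variable {n d N : ℕ}

/-- dimension zero is impossible -/
theorem z15_pos {K : Set (Fin d → ℝ)} (hint : (interior K).Nonempty)
    (hfree : ∀ z : Fin d → ℤ, (fun i => (z i : ℝ)) ∉ interior K) : 1 ≤ d := by
  rcases Nat.eq_zero_or_pos d with hd | hd
  · subst hd
    obtain ⟨x, hx⟩ := hint
    exfalso
    apply hfree 0
    have : (fun i => ((0 : Fin 0 → ℤ) i : ℝ)) = x := Subsingleton.elim _ _
    rw [this]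
    exact hx
  · exact hd

/-- a linear form which is constant on a set with interior points is zero -/
theorem z15_span {K : Set (Fin d → ℝ)} (hint : (interior K).Nonempty) (c : Fin d → ℝ) (e : ℝ)
    (h : ∀ z ∈ K, ∑ i, c i * z i = e) : c = 0 := by
  obtain ⟨p, hp⟩ := hint
  have h1 : Tendsto (fun ε : ℝ => p + ε • c) (𝓝 0) (𝓝 p) := by
    have : Continuous fun ε : ℝ => p + ε • c := by fun_prop
    have := this.tendsto 0
    simpa using this
  have h2 : ∀ᶠ ε in 𝓝 (0 : ℝ), p + ε • c ∈ K := by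
    have := h1.eventually (isOpen_interior.mem_nhds hp)
    exact this.mono fun ε hε => interior_subset hε
  have h3 : ∀ᶠ ε in 𝓝[>] (0 : ℝ), p + ε • c ∈ K := h2.filter_mono nhdsWithin_le_nhds
  obtain ⟨ε, hε, hε0⟩ := (h3.and self_mem_nhdsWithin).exists
  have e1 := h p (interior_subset hp)
  have e2 := h _ hε
  have e3 : ∑ i, c i * (p + ε • c) i = ∑ i, c i * p i + ε * ∑ i, c i ^ 2 := by
    rw [mul_sum, ← sum_add_distrib]
    refine sum_congr rfl fun i _ => ?_
    simp only [Pi.add_apply, Pi.smul_apply, smul_eq_mul]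
    ring
  rw [e3, e1] at e2
  have e4 : ε * ∑ i, c i ^ 2 = 0 := by linarith
  have e5 : ∑ i, c i ^ 2 = 0 := by
    rcases mul_eq_zero.1 e4 with h4 | h4
    · exact absurd h4 (ne_of_gt hε0)
    · exact h4
  funext i
  have := (sum_eq_zero_iff_of_nonneg fun i _ => sq_nonneg (c i)).1 e5 i (mem_univ i)
  simpa using this

/-- change of generators -/
theorem z15_syn {l : Fin N → ℝ} {u : Fin N → Fin n → ℝ} {v : Fin n → Fin d → ℝ} {w : Fin N → Fin d → ℝ} {D : Fin N → ℝ}
    (hD : ∀ j i, D j * w j i = ∑ k, l j * u j k * v k i) (x0 : Fin d → ℝ) (s : Fin N → ℝ) :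
    XX x0 v (syn l u s) = XX x0 w (fun j => D j * s j) := by
  funext i
  simp only [XX, syn]
  congr 1
  simp only [sum_mul]
  rw [sum_comm]
  refine sum_congr rfl fun j _ => ?_
  have : D j * s j * w j i = s j * (D j * w j i) := by ring
  rw [this, hD, mul_sum]
  refine sum_congr rfl fun k _ => ?_
  ring

theorem width_quot (T : Set (Fin N → ℝ)) (hT : SolidConvex 2 T) (K : Set (Fin d → ℝ)) (hconv : Convex ℝ K)
    (hint : (interior K).Nonempty) (hfree : ∀ z : Fin d → ℤ, (fun i => (z i : ℝ)) ∉ interior K) (w : Fin N → Fin d → ℝ)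
    (x0 : Fin d → ℝ) (M : ℝ) (hM : 0 ≤ M) (hin : ∀ t ∈ T, XX x0 w t ∈ K) (hout : ∀ z ∈ K, ∃ t ∈ T, z = XX x0 w (M • t)) :
    ∃ y : Fin d → ℤ, y ≠ 0 ∧ ∀ z ∈ K, ∀ z' ∈ K, ∑ i, (z i - z' i) * (y i : ℝ) ≤ M * d := by
  have hd := z15_pos hint hfree
  have hw : ∀ c : Fin d → ℝ, (∀ j, ∑ k, w j k * c k = 0) → c = 0 := by
    intro c hc
    refine z15_span hint c (∑ i, c i * x0 i) ?_
    intro z hz
    obtain ⟨t, -, rfl⟩ := hout z hz
    rw [sum_XX]
    have : ∀ j, pr w c j = 0 := fun j => hc j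
    simp [this]
  obtain ⟨v, v', l, u, D, hF, hDT, hD0, hDz, hDw, -, -, hl⟩ := lewis T hT w hd hw
  refine width_frameA K hconv hint hfree hF v x0 M hM ?_ ?_
  · intro s hs
    rw [z15_syn hDw]
    refine hin _ (hT.solid D hDT _ fun j => ?_)
    rw [abs_mul]
    exact mul_le_of_le_one_right (abs_nonneg _) (hs j)
  · intro z hz
    obtain ⟨t, ht, rfl⟩ := hout z hz
    refine ⟨syn l u (fun j => M * (t j / D j)), ?_, ?_⟩
    · refine (hF.norm_syn_le _).trans ?_
      have : ∑ j, l j * (M * (t j / D j)) ^ 2 = M ^ 2 * ∑ j, l j * (t j / D j) ^ 2 := by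
        rw [mul_sum]
        refine sum_congr rfl fun j _ => ?_
        ring
      rw [this]
      exact mul_le_mul_of_nonneg_left (hl t ht) (sq_nonneg M)
    · rw [z15_syn hDw]
      funext i
      simp only [XX, Pi.smul_apply, smul_eq_mul]
      congr 1
      refine sum_congr rfl fun j _ => ?_
      by_cases hj : D j = 0
      · rw [hDz j hj]
        simp
      · field_simp

end Pool.Agent.Lib.MP_d2370c_gt.ZN
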