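import Pool.Agent.Lib.MP_d2370c_gt.ZN.FFb
import Pool.Agent.Lib.MP_d2370c_gt.ZN.Gauss

/-!
# Gaussian means of `FF`
-/

set_option autoImplicit false

open Finset MeasureTheory Filter Topology

namespace Pool.Agent.Lib.MP_d2370c_gt.ZN

open Pool.Agent.Lib.MP_d2370c_gt

variable {n d N : ℕ}

private theorem z7_g1_pos {t : ℝ} (ht : 0 < t) (ρ : ℝ) : 0 < g1 t ρ := by
  unfold g1
  have : 0 < Real.sqrt (2 * Real.pi * t) := Real.sqrt_pos.2 (by positivity)
  positivity

private theorem z7_g1_cont {t : ℝ} : Continuous (g1 t) := by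
  unfold g1
  exact continuous_const.mul (Real.continuous_exp.comp (((continuous_id.pow 2).div_const _).neg))

/-- the product of the densities is at most the density at the sum -/
private theorem z7_gs {l : Fin N → ℝ} {u : Fin N → Fin n → ℝ} (h : Frame l u) {t : ℝ} (ht : 0 < t)
    (ρ : Fin N → ℝ) : ∏ j, g1 t (ρ j) ^ l j ≤ gs t (syn l u ρ) := by
  have hs : 0 < (Real.sqrt (2 * Real.pi * t))⁻¹ := inv_pos.2 (Real.sqrt_pos.2 (by positivity))
  have h1 : ∏ j, g1 t (ρ j) ^ l j =
      (Real.sqrt (2 * Real.pi * t))⁻¹ ^ n * Real.exp (-((∑ j, l j * ρ j ^ 2) / (2 * t))) := by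
    have h2 : ∀ j, g1 t (ρ j) ^ l j =
        (Real.sqrt (2 * Real.pi * t))⁻¹ ^ l j * Real.exp (-(l j * ρ j ^ 2 / (2 * t))) := by
      intro j
      unfold g1
      rw [Real.mul_rpow hs.le (Real.exp_pos _).le, ← Real.exp_mul]
      congr 2
      ring
    rw [Finset.prod_congr rfl fun j _ => h2 j, Finset.prod_mul_distrib, ← Real.exp_sum,
      ← Real.rpow_sum_of_pos hs, h.sum_l, Real.rpow_natCast]
    congr 2
    rw [Finset.sum_neg_distrib, Finset.sum_div]
  rw [h1, gs_eq]
  refine mul_le_mul_of_nonneg_left ?_ (by positivity)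
  refine Real.exp_le_exp.2 (neg_le_neg ?_)
  exact div_le_div_of_nonneg_right (h.norm_syn_le ρ) (by positivity)

private theorem z7_int {l : Fin N → ℝ} {u : Fin N → Fin n → ℝ} (h : Frame l u) {r : ℝ} (hr : 0 < r)
    {t : ℝ} (ht : 0 < t) (x : Fin n → ℝ) : Integrable fun z : Fin n → ℝ => gs t z * FF l u r (x + z) := by
  refine (gs_integrable ht).mono' ?_ (Filter.Eventually.of_forall fun z => ?_)
  · exact ((gs_cont ht).measurable.mul
      ((FF_meas h hr).comp (measurable_const.add measurable_id))).aestronglyMeasurable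
  · rw [Real.norm_of_nonneg (mul_nonneg (gs_nonneg _ _) (FF_nonneg h hr _))]
    exact mul_le_of_le_one_right (gs_nonneg _ _) (FF_le_one h hr _)

/-- the case of a representation with `|s j| < r` -/
private theorem z7_key {l : Fin N → ℝ} {u : Fin N → Fin n → ℝ} (h : Frame l u) {r : ℝ} (hr : 0 < r)
    {t : ℝ} (ht : 0 < t) (s : Fin N → ℝ) (hs : ∀ j, |s j| < r) :
    Real.exp (-(t * (Real.pi ^ 2 * n / (4 * r ^ 2)) / 2)) * ∏ j, cosp r (s j) ^ l j ≤
      gm t (FF l u r) (syn l u s) := by
  have h1 := barthe h (fun j ρ => g1 t ρ * cosp r (s j + ρ)) (fun j => -r - s j) (fun j => r - s j)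
    (fun j => by linarith)
    (fun j => z7_g1_cont.mul ((cosp_cont hr).comp (continuous_const.add continuous_id)))
    (fun j ρ hρ => mul_pos (z7_g1_pos ht ρ) (cosp_pos hr (abs_lt.2
      ⟨by linarith [hρ.1], by linarith [hρ.2]⟩)))
    (fun j ρ hρ => by
      have : cosp r (s j + ρ) = 0 := cosp_out hr (by
        by_contra hcon
        obtain ⟨h1, h2⟩ := abs_lt.1 (not_le.1 hcon)
        exact hρ ⟨by linarith, by linarith⟩)
      rw [this, mul_zero])
    (fun z => gs t z * FF l u r (syn l u s + z))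
    (fun z => mul_nonneg (gs_nonneg _ _) (FF_nonneg h hr _)) (z7_int h hr ht _)
    (fun ρ hρ => by
      have h2 : ∏ j, (g1 t (ρ j) * cosp r (s j + ρ j)) ^ l j =
          (∏ j, g1 t (ρ j) ^ l j) * ∏ j, cosp r ((s + ρ) j) ^ l j := by
        rw [← Finset.prod_mul_distrib]
        refine Finset.prod_congr rfl fun j _ => ?_
        rw [Real.mul_rpow (z7_g1_pos ht _).le (cosp_nonneg hr _)]
        rfl
      rw [h2]
      refine mul_le_mul (z7_gs h ht ρ) ?_ ?_ (gs_nonneg _ _)
      · rw [← syn_add]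
        refine FF_ge h hr (s + ρ) fun j => ?_
        have := hρ j
        exact (abs_lt.2 ⟨by simp only [Pi.add_apply]; linarith [this.1],
          by simp only [Pi.add_apply]; linarith [this.2]⟩).le
      · exact Finset.prod_nonneg fun j _ => Real.rpow_nonneg (cosp_nonneg hr _) _)
  refine le_trans ?_ h1
  have h3 : Real.exp (-(t * (Real.pi ^ 2 * n / (4 * r ^ 2)) / 2)) =
      ∏ j, Real.exp (-(t * (Real.pi ^ 2 / (8 * r ^ 2)))) ^ l j := by
    rw [← Real.rpow_sum_of_pos (Real.exp_pos _), h.sum_l, ← Real.exp_mul]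
    congr 1
    field_simp
    ring
  rw [h3, ← Finset.prod_mul_distrib]
  refine Finset.prod_le_prod (fun j _ => mul_nonneg (Real.rpow_nonneg (Real.exp_pos _).le _)
    (Real.rpow_nonneg (cosp_nonneg hr _) _)) fun j _ => ?_
  rw [← Real.mul_rpow (Real.exp_pos _).le (cosp_nonneg hr _)]
  exact Real.rpow_le_rpow (mul_nonneg (Real.exp_pos _).le (cosp_nonneg hr _))
    (g1_conv_cosp hr ht (s j)) (h.nn j)

theorem sub_FF {l : Fin N → ℝ} {u : Fin N → Fin n → ℝ} (h : Frame l u) {r : ℝ} (hr : 0 < r) :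
    Sub (FF l u r) (zon l u r) (Real.pi ^ 2 * n / (4 * r ^ 2)) := by
  refine ⟨FF_meas h hr, FF_nonneg h hr, FF_le_one h hr, fun x hx => FF_out x hx, FF_int_pos h hr, ?_⟩
  intro t ht x
  have hgm : 0 ≤ gm t (FF l u r) x :=
    integral_nonneg fun z => mul_nonneg (gs_nonneg _ _) (FF_nonneg h hr _)
  have hE : 0 < Real.exp (-(t * (Real.pi ^ 2 * n / (4 * r ^ 2)) / 2)) := Real.exp_pos _
  have key : FF l u r x ≤
      gm t (FF l u r) x / Real.exp (-(t * (Real.pi ^ 2 * n / (4 * r ^ 2)) / 2)) := by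
    refine FF_le x (div_nonneg hgm hE.le) fun s hs hx => ?_
    by_cases hb : ∃ j, l j ≠ 0 ∧ |s j| = r
    · obtain ⟨j, hj, hjr⟩ := hb
      rw [Finset.prod_eq_zero (Finset.mem_univ j)]
      · exact div_nonneg hgm hE.le
      · rw [cosp_out hr hjr.ge, Real.zero_rpow hj]
    · push Not at hb
      rw [le_div_iff₀ hE, mul_comm]
      -- move `s j` to zero where `l j = 0`
      have h1 : syn l u (fun j => if l j = 0 then 0 else s j) = syn l u s := by
        unfold syn
        funext k
        refine Finset.sum_congr rfl fun j _ => ?_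
        by_cases hj : l j = 0
        · rw [hj]; ring
        · simp only [if_neg hj]
      have h2 : ∏ j, cosp r ((fun j => if l j = 0 then 0 else s j) j) ^ l j =
          ∏ j, cosp r (s j) ^ l j := by
        refine Finset.prod_congr rfl fun j _ => ?_
        by_cases hj : l j = 0
        · rw [hj, Real.rpow_zero, Real.rpow_zero]
        · simp only [if_neg hj]
      have h3 := z7_key h hr ht (fun j => if l j = 0 then 0 else s j) (fun j => by
        by_cases hj : l j = 0
        · simp only [if_pos hj, abs_zero]; exact hr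
        · simp only [if_neg hj]
          exact lt_of_le_of_ne (hs j) (hb j hj))
      rw [h1, h2, ← hx] at h3
      exact h3
  rw [le_div_iff₀ hE, mul_comm] at key
  exact key

end Pool.Agent.Lib.MP_d2370c_gt.ZN
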