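import Pool.Agent.Lib.MP_d2370c_gt.ZN.PartA
import Pool.Agent.Lib.MP_d2370c_gt.ZN.SubF
import Pool.Agent.Lib.MP_d2370c_gt.SQ.Supp

/-!
# Width of lattice-free bodies comparable to a zonotope in Lewis position
-/

set_option autoImplicit false

open Finset MeasureTheory Filter Topology

namespace Pool.Agent.Lib.MP_d2370c_gt.ZN

open Pool.Agent.Lib.MP_d2370c_gt

variable {n d N : ℕ}

/-- the vectors of the zonotope in `ℝ^d` -/
noncomputable def frA_w (l : Fin N → ℝ) (u : Fin N → Fin n → ℝ) (v : Fin n → Fin d → ℝ) (j : Fin N) (i : Fin d) : ℝ :=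
  ∑ k, l j * u j k * v k i

theorem frA_XX_syn (l : Fin N → ℝ) (u : Fin N → Fin n → ℝ) (v : Fin n → Fin d → ℝ) (x0 : Fin d → ℝ) (s : Fin N → ℝ) :
    XX x0 v (syn l u s) = XX x0 (frA_w l u v) s := by
  ext i
  simp only [XX, syn, frA_w, Finset.sum_mul, Finset.mul_sum]
  congr 1
  rw [Finset.sum_comm]
  exact Finset.sum_congr rfl fun j _ => Finset.sum_congr rfl fun k _ => by ring

theorem frA_sum_sub (v : Fin n → Fin d → ℝ) (x0 : Fin d → ℝ) (x x' : Fin n → ℝ) (y : Fin d → ℝ) :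
    ∑ i, (XX x0 v x i - XX x0 v x' i) * y i = ∑ k, (x k - x' k) * pr v y k := by
  have h1 := sum_XX x0 v x y
  have h2 := sum_XX x0 v x' y
  have e1 : ∑ i, (XX x0 v x i - XX x0 v x' i) * y i = ∑ i, y i * XX x0 v x i - ∑ i, y i * XX x0 v x' i := by
    rw [← Finset.sum_sub_distrib]
    exact Finset.sum_congr rfl fun i _ => by ring
  have e2 : ∑ k, (x k - x' k) * pr v y k = ∑ k, x k * pr v y k - ∑ k, x' k * pr v y k := by
    rw [← Finset.sum_sub_distrib]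
    exact Finset.sum_congr rfl fun i _ => by ring
  rw [e1, h1, h2, e2]
  ring

theorem frA_cs (x x' a : Fin n → ℝ) {R A : ℝ} (hR : 0 ≤ R) (hA : 0 ≤ A) (hx : ∑ k, x k ^ 2 ≤ R ^ 2) (hx' : ∑ k, x' k ^ 2 ≤ R ^ 2)
    (ha : ∑ k, a k ^ 2 ≤ A ^ 2) : ∑ k, (x k - x' k) * a k ≤ 2 * R * A := by
  have key : ∀ y : Fin n → ℝ, ∑ k, y k ^ 2 ≤ R ^ 2 → |∑ k, y k * a k| ≤ R * A := by
    intro y hy
    apply abs_le_of_sq_le_sq _ (by positivity)
    calc (∑ k, y k * a k) ^ 2 ≤ (∑ k, y k ^ 2) * ∑ k, a k ^ 2 := Finset.sum_mul_sq_le_sq_mul_sq _ _ _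
      _ ≤ R ^ 2 * A ^ 2 := mul_le_mul hy ha (Finset.sum_nonneg fun k _ => sq_nonneg _) (sq_nonneg _)
      _ = (R * A) ^ 2 := by ring
  have e : ∑ k, (x k - x' k) * a k = ∑ k, x k * a k - ∑ k, x' k * a k := by
    rw [← Finset.sum_sub_distrib]
    exact Finset.sum_congr rfl fun i _ => by ring
  rw [e]
  have h1 := abs_le.1 (key x hx)
  have h2 := abs_le.1 (key x' hx')
  linarith [h1.2, h2.1]

theorem width_frameA (K : Set (Fin d → ℝ)) (hconv : Convex ℝ K) (hint : (interior K).Nonempty)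
    (hfree : ∀ z : Fin d → ℤ, (fun i => (z i : ℝ)) ∉ interior K) {l : Fin N → ℝ} {u : Fin N → Fin n → ℝ} (h : Frame l u)
    (v : Fin n → Fin d → ℝ) (x0 : Fin d → ℝ) (M : ℝ) (hM : 0 ≤ M)
    (hin : ∀ s : Fin N → ℝ, (∀ j, |s j| ≤ 1) → XX x0 v (syn l u s) ∈ K)
    (hout : ∀ z ∈ K, ∃ x : Fin n → ℝ, ∑ k, x k ^ 2 ≤ M ^ 2 * n ∧ z = XX x0 v x) :
    ∃ y : Fin d → ℤ, y ≠ 0 ∧ ∀ z ∈ K, ∀ z' ∈ K, ∑ i, (z i - z' i) * (y i : ℝ) ≤ M * n := by
  apply attain K hint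
  intro ε hε
  have hn0 : (0 : ℝ) ≤ n := Nat.cast_nonneg n
  set q : ℝ := Real.sqrt n with hq
  have hq0 : 0 ≤ q := Real.sqrt_nonneg _
  have hqq : q ^ 2 = n := Real.sq_sqrt hn0
  obtain ⟨δ, hδ, hδε⟩ : ∃ δ : ℝ, 0 < δ ∧ δ * (M * n + 2 * M * q) ≤ ε := by
    refine ⟨ε / (M * n + 2 * M * q + 1), by positivity, ?_⟩
    rw [div_mul_eq_mul_div, div_le_iff₀ (by positivity)]
    nlinarith [hε.le]
  -- the radius
  set r : ℝ := 1 / (2 * (1 + δ)) with hr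
  have hr0 : 0 < r := by positivity
  have hr1 : r + r < 1 := by
    rw [hr, ← two_mul, mul_one_div, div_lt_one (by positivity)]
    linarith
  -- an interior point
  obtain ⟨p, hp⟩ := hint
  obtain ⟨xp, _, hxp⟩ := hout p (interior_subset hp)
  have hps : XX x0 (frA_w l u v) (ana u xp) ∈ interior K := by
    rw [← frA_XX_syn, h.syn_ana, ← hxp]
    exact hp
  have hinside : ∀ s : Fin N → ℝ, (∀ j, |s j| ≤ r + r) → XX x0 (frA_w l u v) s ∈ interior K := by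
    intro s hs
    apply SQ.interior_of_lt K hconv x0 (frA_w l u v) (fun t => ‖t‖) continuous_norm _ (ana u xp) hps
    · show ‖s‖ < 1
      apply lt_of_le_of_lt _ hr1
      rw [pi_norm_le_iff_of_nonneg (by positivity)]
      intro j
      rw [Real.norm_eq_abs]
      exact hs j
    · intro t ht
      rw [← frA_XX_syn]
      apply hin
      intro j
      rw [← Real.norm_eq_abs]
      exact (norm_le_pi_norm t j).trans ht
  obtain ⟨y, hy0, hy⟩ := partA v x0 (FF l u r) (zon l u r) (Real.pi ^ 2 * n / (4 * r ^ 2)) (sub_FF h hr0) (zon_compact l u r)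
    (by
      intro x hx x' hx' z hz
      obtain ⟨s, hs, hxs⟩ := zon_sub hx hx'
      apply hfree z
      rw [← hz, hxs, frA_XX_syn]
      exact hinside s hs) (4 * Real.pi ^ 2 * δ ^ 2) (by positivity)
  refine ⟨y, hy0, fun z hz z' hz' => ?_⟩
  obtain ⟨x, hx, rfl⟩ := hout z hz
  obtain ⟨x', hx', rfl⟩ := hout z' hz'
  rw [frA_sum_sub]
  have hA : ∑ k, (pr v fun i => (y i : ℝ)) k ^ 2 ≤ ((1 + δ) * q / 2 + δ) ^ 2 := by
    have e1 : Real.pi ^ 2 * (n : ℝ) / (4 * r ^ 2) = Real.pi ^ 2 * n * (1 + δ) ^ 2 := by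
      rw [hr]
      field_simp
      ring
    rw [e1] at hy
    have hpi : 0 < Real.pi ^ 2 := by positivity
    have e2 : 4 * ∑ k, (pr v fun i => (y i : ℝ)) k ^ 2 < n * (1 + δ) ^ 2 + 4 * δ ^ 2 := by
      have : Real.pi ^ 2 * (4 * ∑ k, (pr v fun i => (y i : ℝ)) k ^ 2) < Real.pi ^ 2 * (n * (1 + δ) ^ 2 + 4 * δ ^ 2) := by
        calc Real.pi ^ 2 * (4 * ∑ k, (pr v fun i => (y i : ℝ)) k ^ 2) = 4 * Real.pi ^ 2 * ∑ k, (pr v fun i => (y i : ℝ)) k ^ 2 := by ring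
          _ < _ := hy
          _ = _ := by ring
      exact lt_of_mul_lt_mul_left this hpi.le
    have e3 : ((1 + δ) * q / 2 + δ) ^ 2 = (n * (1 + δ) ^ 2) / 4 + (1 + δ) * q * δ + δ ^ 2 := by
      rw [← hqq]; ring
    rw [e3]
    have : 0 ≤ (1 + δ) * q * δ := by positivity
    linarith
  have hMq : (M * q) ^ 2 = M ^ 2 * n := by rw [mul_pow, hqq]
  rw [← hMq] at hx hx'
  refine (frA_cs x x' _ (by positivity) (by positivity) hx hx' hA).trans ?_
  have e4 : 2 * (M * q) * ((1 + δ) * q / 2 + δ) = M * n + δ * (M * n + 2 * M * q) := by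
    rw [← hqq]; ring
  rw [e4]
  linarith

end Pool.Agent.Lib.MP_d2370c_gt.ZN
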