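import Pool.Agent.Lib.MP_d2370c_gt.ZN.PartB
import Pool.Agent.Lib.MP_d2370c_gt.ZN.SubF
import Pool.Agent.Lib.MP_d2370c_gt.SQ.Supp

/-!
# The width of a body between an ellipsoid and the polar of a zonotope, both given by a frame
-/

set_option autoImplicit false

open Finset MeasureTheory Filter Topology

namespace Pool.Agent.Lib.MP_d2370c_gt.ZN

open Pool.Agent.Lib.MP_d2370c_gt

variable {n d N : ℕ}

private theorem frb_width (K : Set (Fin d → ℝ)) {l : Fin N → ℝ} {u : Fin N → Fin n → ℝ} (h : Frame l u)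
    (v : Fin n → Fin d → ℝ) (x0 : Fin d → ℝ) (M : ℝ)
    (hout : ∀ z ∈ K, ∃ x : Fin n → ℝ, ∑ j, l j * |ana u x j| ≤ M ∧ z = XX x0 v x) (ρ : ℝ) (hρ : 0 ≤ ρ) (y : Fin d → ℝ)
    (hy : pr v y ∈ zon l u ρ) (z z' : Fin d → ℝ) (hz : z ∈ K) (hz' : z' ∈ K) :
    ∑ i, (z i - z' i) * y i ≤ 2 * ρ * M := by
  obtain ⟨s, hs, hsy⟩ := hy
  have key : ∀ x : Fin n → ℝ, ∑ j, l j * |ana u x j| ≤ M → |∑ k, x k * pr v y k| ≤ ρ * M := by
    intro x hx
    have e1 : ∑ k, x k * pr v y k = ∑ j, l j * s j * ana u x j := by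
      rw [hsy]
      exact dot_syn l u s x
    rw [e1]
    calc |∑ j, l j * s j * ana u x j| ≤ ∑ j, |l j * s j * ana u x j| := Finset.abs_sum_le_sum_abs _ _
      _ ≤ ∑ j, ρ * (l j * |ana u x j|) := by
          refine Finset.sum_le_sum fun j _ => ?_
          rw [abs_mul, abs_mul, abs_of_nonneg (h.nn j)]
          have h1 : 0 ≤ l j * |ana u x j| := mul_nonneg (h.nn j) (abs_nonneg _)
          nlinarith [hs j, mul_le_mul_of_nonneg_left (hs j) h1]
      _ = ρ * ∑ j, l j * |ana u x j| := by rw [Finset.mul_sum]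
      _ ≤ ρ * M := mul_le_mul_of_nonneg_left hx hρ
  obtain ⟨x, hx, rfl⟩ := hout z hz
  obtain ⟨x', hx', rfl⟩ := hout z' hz'
  have e2 : ∑ i, (XX x0 v x i - XX x0 v x' i) * y i = ∑ k, x k * pr v y k - ∑ k, x' k * pr v y k := by
    have h1 := sum_XX x0 v x y
    have h2 := sum_XX x0 v x' y
    have h3 : ∑ i, (XX x0 v x i - XX x0 v x' i) * y i = ∑ i, y i * XX x0 v x i - ∑ i, y i * XX x0 v x' i := by
      rw [← Finset.sum_sub_distrib]
      exact Finset.sum_congr rfl fun i _ => by ring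
    rw [h3, h1, h2]
    ring
  rw [e2]
  have h4 := (abs_le.1 (key x hx)).2
  have h5 := (abs_le.1 (key x' hx')).1
  linarith

private theorem frb_dpos (K : Set (Fin d → ℝ)) (hint : (interior K).Nonempty)
    (hfree : ∀ z : Fin d → ℤ, (fun i => (z i : ℝ)) ∉ interior K) : 0 < d := by
  rcases Nat.eq_zero_or_pos d with h0 | h0
  · exfalso
    subst h0
    obtain ⟨p, hp⟩ := hint
    refine hfree 0 ?_
    have : (fun i => (((0 : Fin 0 → ℤ) i : ℤ) : ℝ)) = p := Subsingleton.elim _ _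
    rw [this]
    exact hp
  · exact h0

theorem width_frameB (K : Set (Fin d → ℝ)) (hconv : Convex ℝ K) (hint : (interior K).Nonempty)
    (hfree : ∀ z : Fin d → ℤ, (fun i => (z i : ℝ)) ∉ interior K) {l : Fin N → ℝ} {u : Fin N → Fin n → ℝ} (h : Frame l u)
    (v : Fin n → Fin d → ℝ) (x0 : Fin d → ℝ) (M : ℝ) (hM : 0 ≤ M)
    (hin : ∀ x : Fin n → ℝ, n * ∑ k, x k ^ 2 ≤ 1 → XX x0 v x ∈ K)
    (hout : ∀ z ∈ K, ∃ x : Fin n → ℝ, ∑ j, l j * |ana u x j| ≤ M ∧ z = XX x0 v x) :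
    ∃ y : Fin d → ℤ, y ≠ 0 ∧ ∀ z ∈ K, ∀ z' ∈ K, ∑ i, (z i - z' i) * (y i : ℝ) ≤ M * n := by
  have hd := frb_dpos K hint hfree
  rcases Nat.eq_zero_or_pos n with hn0 | hn0
  · subst hn0
    refine ⟨fun _ => 1, ?_, fun z hz z' hz' => ?_⟩
    · intro h0
      have := congrFun h0 ⟨0, hd⟩
      simp at this
    · obtain ⟨x, -, rfl⟩ := hout z hz
      obtain ⟨x', -, rfl⟩ := hout z' hz'
      have hxx : x = x' := Subsingleton.elim _ _
      subst hxx
      simp
  · have hn : (0 : ℝ) < n := by exact_mod_cast hn0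
    refine attain K hint (M * n) fun ε hε => ?_
    by_contra hcon
    push Not at hcon
    have hM1 : 0 < M + 1 := by linarith
    obtain ⟨r', hr'⟩ : ∃ r' : ℝ, r' = n / 4 + ε / (4 * (M + 1)) := ⟨_, rfl⟩
    have hq : 0 < ε / (4 * (M + 1)) := by positivity
    have hr'1 : (n : ℝ) / 4 < r' := by rw [hr']; linarith
    obtain ⟨r, hr⟩ : ∃ r : ℝ, r = (n / 4 + r') / 2 := ⟨_, rfl⟩
    have hr1 : (n : ℝ) / 4 < r := by rw [hr]; linarith
    have hr2 : r < r' := by rw [hr]; linarith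
    have hr0 : 0 < r := by linarith [div_pos hn (show (0 : ℝ) < 4 by norm_num)]
    have hr'0 : 0 < r' := hr0.trans hr2
    have hwid : 4 * r' * M ≤ M * n + ε := by
      rw [hr']
      have e1 : 4 * (n / 4 + ε / (4 * (M + 1))) * M = M * n + ε * (M / (M + 1)) := by
        field_simp
      rw [e1]
      have h1 : M / (M + 1) ≤ 1 := by
        rw [div_le_one hM1]
        linarith
      have := mul_le_mul_of_nonneg_left h1 hε.le
      linarith
    -- no frequency in the large zonotope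
    have hnot : ∀ y : Fin d → ℤ, y ≠ 0 → pr v (fun i => (y i : ℝ)) ∉ zon l u (2 * r') := by
      intro y hy hmem
      obtain ⟨z, hz, z', hz', hlt⟩ := hcon y hy
      have := frb_width K h v x0 M hout (2 * r') (by positivity) (fun i => (y i : ℝ)) hmem z z' hz hz'
      have h2 : 2 * (2 * r') * M = 4 * r' * M := by ring
      rw [h2] at this
      exact absurd (this.trans hwid) (not_le.2 hlt)
    have hγ : 0 < 2 * (r' - r) := by linarith
    have hgap : ∀ y : Fin d → ℤ, y ≠ 0 → ∀ c ∈ zon l u r, ∀ c' ∈ zon l u r,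
        (2 * (r' - r)) ^ 2 ≤ ∑ k, (c k - c' k + pr v (fun i => (y i : ℝ)) k) ^ 2 := by
      intro y hy c hc c' hc'
      by_contra hlt
      push Not at hlt
      have h1 : (fun k => c k - c' k + pr v (fun i => (y i : ℝ)) k) ∈ zon l u (2 * (r' - r)) :=
        h.ball_sub hγ.le hlt.le
      have h2 := zon_sub h1 (zon_sub hc hc')
      have h3 : (fun k => c k - c' k + pr v (fun i => (y i : ℝ)) k) - (c - c') = pr v (fun i => (y i : ℝ)) := by
        funext k
        simp only [Pi.sub_apply]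
        ring
      have h4 : 2 * (r' - r) + (r + r) = 2 * r' := by ring
      rw [h3, h4] at h2
      exact hnot y hy h2
    -- the radius of the ball
    obtain ⟨b, hb⟩ : ∃ b : ℝ, b = ((n : ℝ) / (16 * r ^ 2) + 1 / n) / 2 := ⟨_, rfl⟩
    have hlt : (n : ℝ) / (16 * r ^ 2) < 1 / n := by
      rw [div_lt_div_iff₀ (by positivity) hn]
      nlinarith
    have hb0 : 0 < b := by
      rw [hb]
      positivity
    have hb1 : (n : ℝ) / (16 * r ^ 2) < b := by rw [hb]; linarith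
    have hb2 : b < 1 / n := by rw [hb]; linarith
    have hsq : Real.sqrt b ^ 2 = b := Real.sq_sqrt hb0.le
    have hE : Real.pi ^ 2 * n / (4 * r ^ 2) < 4 * Real.pi ^ 2 * Real.sqrt b ^ 2 := by
      rw [hsq]
      have e1 : Real.pi ^ 2 * n / (4 * r ^ 2) = 4 * Real.pi ^ 2 * ((n : ℝ) / (16 * r ^ 2)) := by
        field_simp
        ring
      rw [e1]
      have hpi : 0 < 4 * Real.pi ^ 2 := by positivity
      exact mul_lt_mul_of_pos_left hb1 hpi
    obtain ⟨z, x, hx, hzx⟩ := partB v x0 (FF l u r) (zon l u r) (Real.pi ^ 2 * n / (4 * r ^ 2)) (sub_FF h hr0)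
      (zon_compact l u r) (2 * (r' - r)) hγ hgap (Real.sqrt b) (Real.sqrt_nonneg _) hE
    rw [hsq] at hx
    obtain ⟨p, hp⟩ := hint
    obtain ⟨s, -, hps⟩ := hout p (interior_subset hp)
    have hs : XX x0 v s ∈ interior K := by rw [← hps]; exact hp
    have hfin : XX x0 v x ∈ interior K := by
      refine SQ.interior_of_lt K hconv x0 v (fun x : Fin n → ℝ => n * ∑ k, x k ^ 2) (by fun_prop) hin s hs x ?_
      have h1 : (n : ℝ) * ∑ k, x k ^ 2 ≤ n * b := mul_le_mul_of_nonneg_left hx hn.le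
      have h2 : (n : ℝ) * b < n * (1 / n) := mul_lt_mul_of_pos_left hb2 hn
      have h3 : (n : ℝ) * (1 / n) = 1 := by field_simp
      calc (n : ℝ) * ∑ k, x k ^ 2 ≤ n * b := h1
        _ < n * (1 / n) := h2
        _ = 1 := h3
    rw [hzx] at hfin
    exact hfree z hfin

end Pool.Agent.Lib.MP_d2370c_gt.ZN
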