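import Pool.Agent.Lib.MP_d2370c_gt.ZN.Defs

/-!
# ZN, row Z0: elementary facts about frames
-/

set_option autoImplicit false

open Finset MeasureTheory Filter Topology

namespace Pool.Agent.Lib.MP_d2370c_gt.ZN

open Pool.Agent.Lib.MP_d2370c_gt

variable {n d N : ℕ}

theorem z0_ana_single (u : Fin N → Fin n → ℝ) (k : Fin n) (j : Fin N) :
    ana u (Pi.single k 1) j = u j k := by
  simp [ana, Pi.single_apply]

/-- trace of `res` -/
theorem Frame.sum_l {l : Fin N → ℝ} {u : Fin N → Fin n → ℝ} (h : Frame l u) : ∑ j, l j = n := by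
  have h1 : ∀ k : Fin n, ∑ j, l j * (u j k) ^ 2 = 1 := by
    intro k
    have := h.res (Pi.single k 1) (Pi.single k 1)
    simpa [z0_ana_single, pow_two, Pi.single_apply] using this
  have h2 : ∑ k : Fin n, ∑ j, l j * (u j k) ^ 2 = n := by simp [h1]
  rw [Finset.sum_comm] at h2
  rw [← h2]
  refine sum_congr rfl fun j _ => ?_
  rw [← mul_sum, h.unit j, mul_one]

theorem Frame.syn_ana {l : Fin N → ℝ} {u : Fin N → Fin n → ℝ} (h : Frame l u) (x : Fin n → ℝ) : syn l u (ana u x) = x := by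
  funext k
  have := h.res x (Pi.single k 1)
  simp only [z0_ana_single] at this
  simp only [syn]
  calc ∑ j, l j * ana u x j * u j k = ∑ j, l j * (ana u x j * u j k) := by
        refine sum_congr rfl fun j _ => ?_
        ring
    _ = ∑ i, x i * (Pi.single k 1 : Fin n → ℝ) i := this
    _ = x k := by simp [Pi.single_apply]

theorem Frame.ana_sq {l : Fin N → ℝ} {u : Fin N → Fin n → ℝ} (h : Frame l u) (x : Fin n → ℝ) :
    ∑ j, l j * ana u x j ^ 2 = ∑ k, x k ^ 2 := by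
  have := h.res x x
  simpa [pow_two] using this

theorem dot_syn (l : Fin N → ℝ) (u : Fin N → Fin n → ℝ) (s : Fin N → ℝ) (x : Fin n → ℝ) :
    ∑ k, x k * syn l u s k = ∑ j, l j * s j * ana u x j := by
  simp only [syn, ana, mul_sum]
  rw [sum_comm]
  refine sum_congr rfl fun j _ => sum_congr rfl fun k _ => ?_
  ring

/-- `|x|^2 = ∑ l s ⟨u, x⟩ ≤ √(∑ l s^2) √(∑ l ⟨u, x⟩^2) = √(∑ l s^2) |x|` -/
theorem Frame.norm_syn_le {l : Fin N → ℝ} {u : Fin N → Fin n → ℝ} (h : Frame l u) (s : Fin N → ℝ) :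
    ∑ k, syn l u s k ^ 2 ≤ ∑ j, l j * s j ^ 2 := by
  have h1 := dot_syn l u s (syn l u s)
  have h2 := h.ana_sq (syn l u s)
  have h3 : 0 ≤ ∑ j, l j * (s j - ana u (syn l u s) j) ^ 2 :=
    sum_nonneg fun j _ => mul_nonneg (h.nn j) (sq_nonneg _)
  have h4 : ∑ j, l j * (s j - ana u (syn l u s) j) ^ 2 =
      ∑ j, l j * s j ^ 2 - 2 * ∑ j, l j * s j * ana u (syn l u s) j + ∑ j, l j * ana u (syn l u s) j ^ 2 := by
    rw [mul_sum, ← sum_sub_distrib, ← sum_add_distrib]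
    refine sum_congr rfl fun j _ => ?_
    ring
  have h5 : ∑ k, syn l u s k * syn l u s k = ∑ k, syn l u s k ^ 2 :=
    sum_congr rfl fun k _ => by ring
  rw [h5] at h1
  rw [h4, ← h1, h2] at h3
  linarith

theorem Frame.abs_ana_le {l : Fin N → ℝ} {u : Fin N → Fin n → ℝ} (h : Frame l u) (x : Fin n → ℝ) (j : Fin N) :
    |ana u x j| ≤ Real.sqrt (∑ k, x k ^ 2) := by
  refine Real.abs_le_sqrt ?_
  have := Finset.sum_mul_sq_le_sq_mul_sq univ (fun k => u j k) (fun k => x k)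
  rw [h.unit j, one_mul] at this
  exact this

/-- Cauchy-Schwarz and `∑ l j = n` -/
theorem Frame.sum_abs_le {l : Fin N → ℝ} {u : Fin N → Fin n → ℝ} (h : Frame l u) (x : Fin n → ℝ) :
    ∑ j, l j * |ana u x j| ≤ Real.sqrt n * Real.sqrt (∑ k, x k ^ 2) := by
  have h1 := Real.sum_mul_le_sqrt_mul_sqrt univ (fun j => Real.sqrt (l j)) (fun j => Real.sqrt (l j) * |ana u x j|)
  have e1 : ∑ j, Real.sqrt (l j) * (Real.sqrt (l j) * |ana u x j|) = ∑ j, l j * |ana u x j| := by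
    refine sum_congr rfl fun j _ => ?_
    rw [← mul_assoc, Real.mul_self_sqrt (h.nn j)]
  have e2 : ∑ j, Real.sqrt (l j) ^ 2 = n := by
    rw [← h.sum_l]
    exact sum_congr rfl fun j _ => Real.sq_sqrt (h.nn j)
  have e3 : ∑ j, (Real.sqrt (l j) * |ana u x j|) ^ 2 = ∑ k, x k ^ 2 := by
    rw [← h.ana_sq x]
    refine sum_congr rfl fun j _ => ?_
    rw [mul_pow, Real.sq_sqrt (h.nn j), sq_abs]
  rw [e1, e2, e3] at h1
  exact h1

theorem syn_sub (l : Fin N → ℝ) (u : Fin N → Fin n → ℝ) (s t : Fin N → ℝ) : syn l u (s - t) = syn l u s - syn l u t := by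
  funext k
  simp only [syn, Pi.sub_apply]
  rw [← sum_sub_distrib]
  refine sum_congr rfl fun j _ => ?_
  ring

theorem syn_add (l : Fin N → ℝ) (u : Fin N → Fin n → ℝ) (s t : Fin N → ℝ) : syn l u (s + t) = syn l u s + syn l u t := by
  funext k
  simp only [syn, Pi.add_apply]
  rw [← sum_add_distrib]
  refine sum_congr rfl fun j _ => ?_
  ring

theorem zon_compact (l : Fin N → ℝ) (u : Fin N → Fin n → ℝ) (r : ℝ) : IsCompact (zon l u r) := by
  have h1 : IsCompact (Set.pi Set.univ fun _ : Fin N => Set.Icc (-r) r) :=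
    isCompact_univ_pi fun _ => isCompact_Icc
  have h2 : Continuous (syn l u) := by
    unfold syn
    fun_prop
  have h3 : zon l u r = syn l u '' (Set.pi Set.univ fun _ : Fin N => Set.Icc (-r) r) := by
    ext x
    constructor
    · rintro ⟨s, hs, rfl⟩
      exact ⟨s, fun j _ => abs_le.1 (hs j), rfl⟩
    · rintro ⟨s, hs, rfl⟩
      exact ⟨s, fun j => abs_le.2 (hs j trivial), rfl⟩
  rw [h3]
  exact h1.image h2

theorem zon_sub {l : Fin N → ℝ} {u : Fin N → Fin n → ℝ} {r r' : ℝ} {x y : Fin n → ℝ} (hx : x ∈ zon l u r) (hy : y ∈ zon l u r') :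
    x - y ∈ zon l u (r + r') := by
  obtain ⟨s, hs, rfl⟩ := hx
  obtain ⟨t, ht, rfl⟩ := hy
  refine ⟨s - t, fun j => ?_, (syn_sub l u s t).symm⟩
  exact (abs_sub _ _).trans (add_le_add (hs j) (ht j))

theorem Frame.ball_sub {l : Fin N → ℝ} {u : Fin N → Fin n → ℝ} (h : Frame l u) {r : ℝ} (hr : 0 ≤ r) {x : Fin n → ℝ}
    (hx : ∑ k, x k ^ 2 ≤ r ^ 2) : x ∈ zon l u r := by
  refine ⟨ana u x, fun j => (h.abs_ana_le x j).trans ?_, (h.syn_ana x).symm⟩
  exact Real.sqrt_le_iff.2 ⟨hr, hx⟩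

end Pool.Agent.Lib.MP_d2370c_gt.ZN
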