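import Mathlib
import Pool.Agent.Lib.MP_d2370c_gt.CoreA

/-! A gap between a compact set and the preimage of the lattice. -/

set_option autoImplicit false

open Finset MeasureTheory Filter Topology

namespace Pool.Agent.Lib.MP_d2370c_gt.ZN

open Pool.Agent.Lib.MP_d2370c_gt

variable {n d N : ℕ}

/-- a gap between a compact set and the preimage of the lattice -/
theorem gap (v : Fin n → Fin d → ℝ) (x0 : Fin d → ℝ) (Z : Set (Fin n → ℝ)) (hZ : IsCompact Z)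
    (h : ∀ x ∈ Z, ∀ x' ∈ Z, ∀ z : Fin d → ℤ, XX x0 v (x - x') ≠ fun i => (z i : ℝ)) :
    ∃ γ : ℝ, 0 < γ ∧ ∃ q : ℝ, 0 ≤ q ∧ q < 1 ∧ ∀ x ∈ Z, ∀ x' ∈ Z, ∀ z : Fin n → ℝ, ∑ k, z k ^ 2 ≤ γ ^ 2 →
      PP (XX x0 v (x - x' - z)) ≤ q := by
  set D : Set (Fin n → ℝ) := (fun p : (Fin n → ℝ) × (Fin n → ℝ) => p.1 - p.2) '' (Z ×ˢ Z) with hD
  have hDc : IsCompact D := (hZ.prod hZ).image (continuous_fst.sub continuous_snd)
  set C : Set (Fin n → ℝ) := {w | ∀ i, XX x0 v w i ∈ Set.range (fun z : ℤ => (z : ℝ))} with hC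
  have hCc : IsClosed C := by
    have e : C = ⋂ i, (fun w => XX x0 v w i) ⁻¹' Set.range (fun z : ℤ => (z : ℝ)) := by
      ext w; simp [hC]
    rw [e]
    refine isClosed_iInter fun i => ?_
    refine IsClosed.preimage ?_ Int.isClosedEmbedding_coe_real.isClosed_range
    exact (continuous_apply i).comp (continuous_XX x0 v)
  have hsub : D ⊆ Cᶜ := by
    rintro w ⟨⟨x, x'⟩, ⟨hx, hx'⟩, rfl⟩ hw
    have hw' : ∀ i, ∃ z : ℤ, (z : ℝ) = XX x0 v (x - x') i := fun i => hw i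
    choose z hz using hw'
    exact h x hx x' hx' z (funext fun i => (hz i).symm)
  obtain ⟨δ, hδ, hδs⟩ := hDc.exists_cthickening_subset_open hCc.isOpen_compl hsub
  have hK : IsCompact (XX x0 v '' Metric.cthickening δ D) := (hDc.cthickening).image (continuous_XX x0 v)
  obtain ⟨q, hq0, hq1, hq⟩ := exists_q _ hK (by
    rintro z ⟨w, hw, hwz⟩
    exact hδs hw (fun i => ⟨z i, (congrFun hwz i).symm⟩))
  refine ⟨δ, hδ, q, hq0, hq1, fun x hx x' hx' z hz => hq _ ⟨_, ?_, rfl⟩⟩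
  refine Metric.mem_cthickening_of_dist_le (x - x' - z) (x - x') δ D ⟨(x, x'), ⟨hx, hx'⟩, rfl⟩ ?_
  rw [dist_eq_norm, sub_sub_cancel_left, norm_neg, pi_norm_le_iff_of_nonneg hδ.le]
  intro k
  rw [Real.norm_eq_abs]
  refine abs_le_of_sq_le_sq ?_ hδ.le
  exact (Finset.single_le_sum (f := fun k => z k ^ 2) (fun _ _ => sq_nonneg _) (Finset.mem_univ k)).trans hz

end Pool.Agent.Lib.MP_d2370c_gt.ZN
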