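import Pool.Agent.Lib.MP_d2370c_gt.ZN.DDb

/-!
# Zonoids and their polars, module GapD (helper18)

Two copies of `F` which are disjoint on the torus: the double integral of `PP ^ m` against `F` and its
Gaussian mean.
-/

set_option autoImplicit false

open Finset MeasureTheory Filter Topology

namespace Pool.Agent.Lib.MP_d2370c_gt.ZN

open Pool.Agent.Lib.MP_d2370c_gt

variable {n d N : ℕ}

private theorem gapD_slice (v : Fin n → Fin d → ℝ) (x0 : Fin d → ℝ) {F : (Fin n → ℝ) → ℝ} {Z : Set (Fin n → ℝ)}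
    {E : ℝ} (hF : Sub F Z E) {γ q s : ℝ} (hq : 0 ≤ q) (hs : 0 < s)
    (hgap : ∀ x ∈ Z, ∀ x' ∈ Z, ∀ z : Fin n → ℝ, ∑ k, z k ^ 2 ≤ γ ^ 2 → PP (XX x0 v (x - x' - z)) ≤ q) (m : ℕ)
    {x : Fin n → ℝ} (hx : x ∈ Z) (x' : Fin n → ℝ) :
    PP (XX x0 v (x - x')) ^ m * gm s F x' ≤ q ^ m * gm s F x' +
      Real.sqrt 2 ^ n * Real.exp (-(γ ^ 2 / (4 * s))) * (PP (XX x0 v (x - x')) ^ m * gm (2 * s) F x') := by
  have hint : ∀ t : ℝ, 0 < t → Integrable (fun z : Fin n → ℝ => gs t z * F (x' + z)) := by
    intro t ht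
    refine (gs_integrable ht).mul_bdd (c := 1) ?_ ?_
    · exact (hF.meas.comp (measurable_const_add x')).aestronglyMeasurable
    · refine Filter.Eventually.of_forall fun z => ?_
      rw [Real.norm_of_nonneg (hF.nn _)]
      exact hF.le_one _
  have h2s : 0 < 2 * s := by linarith
  have hP0 : 0 ≤ PP (XX x0 v (x - x')) := PP_nonneg _
  set P : ℝ := PP (XX x0 v (x - x')) ^ m with hP
  have hPn : 0 ≤ P := pow_nonneg hP0 m
  set C : ℝ := Real.sqrt 2 ^ n * Real.exp (-(γ ^ 2 / (4 * s))) with hC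
  have hC0 : 0 ≤ C := by positivity
  unfold gm
  rw [← integral_const_mul, ← integral_const_mul, ← integral_const_mul, ← integral_const_mul, ← integral_add]
  · refine integral_mono ((hint s hs).const_mul _) ?_ fun z => ?_
    · exact ((hint s hs).const_mul _).add (((hint _ h2s).const_mul _).const_mul _)
    · show P * (gs s z * F (x' + z)) ≤ q ^ m * (gs s z * F (x' + z)) + C * (P * (gs (2 * s) z * F (x' + z)))
      have hF0 := hF.nn (x' + z)
      have hg0 := gs_nonneg s z
      have hg2 := gs_nonneg (2 * s) z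
      by_cases hz : x' + z ∈ Z
      · by_cases hγz : ∑ k, z k ^ 2 ≤ γ ^ 2
        · have h1 : P ≤ q ^ m := by
            rw [hP]
            refine pow_le_pow_left₀ hP0 ?_ m
            have h2 := hgap x hx (x' + z) hz (-z) (by simpa using hγz)
            have h3 : x - (x' + z) - -z = x - x' := by abel
            rwa [h3] at h2
          have h4 : P * (gs s z * F (x' + z)) ≤ q ^ m * (gs s z * F (x' + z)) :=
            mul_le_mul_of_nonneg_right h1 (mul_nonneg hg0 hF0)
          have h5 : 0 ≤ C * (P * (gs (2 * s) z * F (x' + z))) := by positivity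
          linarith
        · have h1 := gs_far hs z (γ := γ) (not_le.1 hγz).le
          have h4 : P * (gs s z * F (x' + z)) ≤ P * (C * gs (2 * s) z * F (x' + z)) :=
            mul_le_mul_of_nonneg_left (mul_le_mul_of_nonneg_right h1 hF0) hPn
          have h5 : 0 ≤ q ^ m * (gs s z * F (x' + z)) := by positivity
          have h6 : P * (C * gs (2 * s) z * F (x' + z)) = C * (P * (gs (2 * s) z * F (x' + z))) := by ring
          linarith
      · rw [hF.supp _ hz]
        simp
  · exact (hint s hs).const_mul _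
  · exact ((hint _ h2s).const_mul _).const_mul _

theorem DD_gap (v : Fin n → Fin d → ℝ) (x0 : Fin d → ℝ) (F : (Fin n → ℝ) → ℝ) (Z : Set (Fin n → ℝ)) (E : ℝ) (hF : Sub F Z E)
    (hZ : IsCompact Z) (γ q s : ℝ) (hγ : 0 < γ) (hq : 0 ≤ q) (hs : 0 < s)
    (hgap : ∀ x ∈ Z, ∀ x' ∈ Z, ∀ z : Fin n → ℝ, ∑ k, z k ^ 2 ≤ γ ^ 2 → PP (XX x0 v (x - x' - z)) ≤ q) (m : ℕ) :
    DD v m x0 F (gm s F) ≤ q ^ m * (∫ x, F x) ^ 2 + Real.sqrt 2 ^ n * Real.exp (-(γ ^ 2 / (4 * s))) * DD v m 0 F F := by
  have hFi : Integrable F := hF.integrable hZ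
  have h2s : 0 < 2 * s := by linarith
  set C : ℝ := Real.sqrt 2 ^ n * Real.exp (-(γ ^ 2 / (4 * s))) with hC
  have hC0 : 0 ≤ C := by positivity
  have hg1 : Integrable (gm s F) := gm_meas_int hFi hs
  have hg2 : Integrable (gm (2 * s) F) := gm_meas_int hFi h2s
  have hgm0 : ∀ t x, 0 ≤ gm t F x := fun t x =>
    integral_nonneg fun z => mul_nonneg (gs_nonneg _ _) (hF.nn _)
  have hcont : Continuous fun p : (Fin n → ℝ) × (Fin n → ℝ) => PP (XX x0 v (p.1 - p.2)) ^ m :=
    (continuous_PP.comp ((continuous_XX x0 v).comp (continuous_fst.sub continuous_snd))).pow m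
  have hPb : ∀ y : Fin n → ℝ, ‖PP (XX x0 v y) ^ m‖ ≤ 1 := by
    intro y
    rw [Real.norm_of_nonneg (pow_nonneg (PP_nonneg _) m)]
    exact pow_le_one₀ (PP_nonneg _) (PP_le_one _)
  -- integrability
  have hslice : ∀ (H : (Fin n → ℝ) → ℝ), Integrable H → ∀ x : Fin n → ℝ,
      Integrable (fun x' => PP (XX x0 v (x - x')) ^ m * F x * H x') := by
    intro H hH x
    have h1 : Integrable (fun x' => PP (XX x0 v (x - x')) ^ m * H x') := by
      refine hH.bdd_mul (c := 1) ?_ (Filter.Eventually.of_forall fun x' => hPb _)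
      exact (hcont.comp (Continuous.prodMk_right x)).aestronglyMeasurable
    refine (h1.const_mul (F x)).congr (Filter.Eventually.of_forall fun x' => ?_)
    show F x * (PP (XX x0 v (x - x')) ^ m * H x') = PP (XX x0 v (x - x')) ^ m * F x * H x'
    ring
  have hprod : Integrable (fun x => ∫ x', PP (XX x0 v (x - x')) ^ m * F x * gm (2 * s) F x') := by
    have h1 : Integrable (fun p : (Fin n → ℝ) × (Fin n → ℝ) =>
        PP (XX x0 v (p.1 - p.2)) ^ m * (F p.1 * gm (2 * s) F p.2)) (volume.prod volume) := by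
      refine (hFi.mul_prod hg2).bdd_mul (c := 1) hcont.aestronglyMeasurable
        (Filter.Eventually.of_forall fun p => hPb _)
    have h2 := h1.integral_prod_left
    refine h2.congr (Filter.Eventually.of_forall fun x => ?_)
    show (∫ x', PP (XX x0 v (x - x')) ^ m * (F x * gm (2 * s) F x')) = _
    simp only [mul_assoc]
  -- the mean has the same integral
  have hmean : ∫ x, gm s F x = ∫ x, F x := by
    have h1 := FT_gm hFi hs (0 : Fin n → ℝ)
    have h2 : ∀ H : (Fin n → ℝ) → ℝ, FT H 0 = ((∫ x, H x : ℝ) : ℂ) := by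
      intro H
      unfold FT
      rw [← integral_complex_ofReal]
      refine integral_congr_ae (Filter.Eventually.of_forall fun x => ?_)
      show (H x : ℂ) * ee (∑ k, x k * (0 : Fin n → ℝ) k) = (H x : ℂ)
      have h3 : ∑ k, x k * (0 : Fin n → ℝ) k = 0 := by simp
      rw [h3]
      have h4 : ee 0 = 1 := by
        unfold ee
        simp
      rw [h4, mul_one]
    rw [h2, h2] at h1
    have h5 : (Real.exp (-(2 * Real.pi ^ 2 * s * ∑ k, (0 : Fin n → ℝ) k ^ 2)) : ℝ) = 1 := by simp
    rw [h5, Complex.ofReal_one, one_mul] at h1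
    exact_mod_cast h1
  have step1 : DD v m x0 F (gm s F) ≤ q ^ m * (∫ x, F x) ^ 2 + C * DD v m x0 F (gm (2 * s) F) := by
    have h1 : DD v m x0 F (gm s F) ≤ ∫ x, (q ^ m * (F x * ∫ x', gm s F x') +
        C * ∫ x', PP (XX x0 v (x - x')) ^ m * F x * gm (2 * s) F x') := by
      unfold DD
      refine integral_mono_of_nonneg (Filter.Eventually.of_forall fun x => ?_) ?_
        (Filter.Eventually.of_forall fun x => ?_)
      · exact integral_nonneg fun x' => mul_nonneg (mul_nonneg (pow_nonneg (PP_nonneg _) m) (hF.nn x)) (hgm0 _ _)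
      · exact ((hFi.mul_const _).const_mul _).add (hprod.const_mul _)
      · show (∫ x', PP (XX x0 v (x - x')) ^ m * F x * gm s F x') ≤ q ^ m * (F x * ∫ x', gm s F x') +
          C * ∫ x', PP (XX x0 v (x - x')) ^ m * F x * gm (2 * s) F x'
        rw [← integral_const_mul (F x), ← integral_const_mul (q ^ m), ← integral_const_mul C, ← integral_add]
        · refine integral_mono (hslice _ hg1 x) ?_ fun x' => ?_
          · exact ((hg1.const_mul _).const_mul _).add ((hslice _ hg2 x).const_mul _)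
          · show PP (XX x0 v (x - x')) ^ m * F x * gm s F x' ≤ q ^ m * (F x * gm s F x') +
              C * (PP (XX x0 v (x - x')) ^ m * F x * gm (2 * s) F x')
            by_cases hx : x ∈ Z
            · have h2 := mul_le_mul_of_nonneg_left (gapD_slice v x0 hF hq hs hgap m hx x') (hF.nn x)
              rw [← hC] at h2
              linarith
            · rw [hF.supp x hx]
              simp
        · exact (hg1.const_mul _).const_mul _
        · exact (hslice _ hg2 x).const_mul _
    refine h1.trans_eq ?_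
    rw [integral_add ((hFi.mul_const _).const_mul _) (hprod.const_mul _), integral_const_mul, integral_const_mul,
      integral_mul_const, hmean]
    unfold DD
    ring
  have step2 : DD v m x0 F (gm (2 * s) F) ≤ DD v m 0 F F := by
    rw [DD_gm v m x0 hFi h2s, DD_self v m 0 hFi]
    refine Finset.sum_le_sum fun κ _ => ?_
    have hcf : 0 ≤ cf m κ := by
      unfold cf
      exact Finset.prod_nonneg fun i _ => by positivity
    refine mul_le_mul_of_nonneg_left ?_ hcf
    have h1 : ∑ i, ((yy m κ i : ℤ) : ℝ) * (0 : Fin d → ℝ) i = 0 := by simp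
    rw [h1, mul_zero, Real.cos_zero, one_mul]
    have h2 : Real.cos (2 * Real.pi * ∑ i, ((yy m κ i : ℤ) : ℝ) * x0 i) ≤ 1 := Real.cos_le_one _
    have h3 : Real.exp (-(2 * Real.pi ^ 2 * (2 * s) * ∑ k, (pr v fun i => ((yy m κ i : ℤ) : ℝ)) k ^ 2)) ≤ 1 := by
      refine Real.exp_le_one_iff.2 ?_
      have : 0 ≤ 2 * Real.pi ^ 2 * (2 * s) * ∑ k, (pr v fun i => ((yy m κ i : ℤ) : ℝ)) k ^ 2 :=
        mul_nonneg (by positivity) (Finset.sum_nonneg fun k _ => sq_nonneg _)
      linarith
    set A : ℝ := ‖FT F (pr v fun i => ((yy m κ i : ℤ) : ℝ))‖ ^ 2 with hA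
    have hA0 : 0 ≤ A := by positivity
    set e : ℝ := Real.exp (-(2 * Real.pi ^ 2 * (2 * s) * ∑ k, (pr v fun i => ((yy m κ i : ℤ) : ℝ)) k ^ 2)) with he
    have he0 : 0 ≤ e := (Real.exp_pos _).le
    calc Real.cos (2 * Real.pi * ∑ i, ((yy m κ i : ℤ) : ℝ) * x0 i) * (e * A) ≤ 1 * (e * A) :=
          mul_le_mul_of_nonneg_right h2 (mul_nonneg he0 hA0)
      _ ≤ 1 * (1 * A) := by
          rw [one_mul, one_mul]
          exact mul_le_mul_of_nonneg_right h3 hA0
      _ = A := by ring
  have := mul_le_mul_of_nonneg_left step2 hC0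
  linarith

end Pool.Agent.Lib.MP_d2370c_gt.ZN
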