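import Pool.Agent.Lib.MP_d2370c_gt.ZN.JJb

/-!
# Zonoids and their polars: the smoothed autocorrelation `II` and the averages `JJ`

`II_far`: `II F δ a` is small against `II F (2 δ) a` if `a` stays away from `Z - Z`.
`II_sub`: `II F (s + δ) 0` decays at most like `exp (-s E / 2)`; it is the integral of `F` against its Gaussian mean.
-/

set_option autoImplicit false

open Finset MeasureTheory Filter Topology

namespace Pool.Agent.Lib.MP_d2370c_gt.ZN

open Pool.Agent.Lib.MP_d2370c_gt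

variable {n d N : ℕ}


theorem gs_le_b12 {s : ℝ} (hs : 0 < s) (z : Fin n → ℝ) : gs s z ≤ (Real.sqrt (2 * Real.pi * s))⁻¹ ^ n := by
  rw [gs_eq]
  have h1 : Real.exp (-((∑ k, z k ^ 2) / (2 * s))) ≤ 1 := by
    rw [Real.exp_le_one_iff]
    have : 0 ≤ (∑ k, z k ^ 2) / (2 * s) := div_nonneg (Finset.sum_nonneg fun _ _ => sq_nonneg _) (by linarith)
    linarith
  exact mul_le_of_le_one_right (by positivity) h1

theorem gs_bd_b12 {s : ℝ} (hs : 0 < s) (z : Fin n → ℝ) : ‖gs s z‖ ≤ (Real.sqrt (2 * Real.pi * s))⁻¹ ^ n := by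
  rw [Real.norm_eq_abs, abs_of_nonneg (gs_nonneg s z)]
  exact gs_le_b12 hs z

/-- inner integrability -/
theorem inner_int_b12 {F : (Fin n → ℝ) → ℝ} (hF : Integrable F) {δ : ℝ} (hδ : 0 < δ) (a c : Fin n → ℝ) :
    Integrable fun c' : Fin n → ℝ => F c * F c' * gs δ (c - c' + a) := by
  have hc : Continuous fun c' : Fin n → ℝ => gs δ (c - c' + a) := (gs_cont hδ).comp (by fun_prop)
  have h1 : Integrable fun c' : Fin n → ℝ => F c' * gs δ (c - c' + a) := by
    refine hF.mul_bdd (c := (Real.sqrt (2 * Real.pi * δ))⁻¹ ^ n) hc.aestronglyMeasurable ?_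
    filter_upwards with c'
    exact gs_bd_b12 hδ _
  refine (h1.const_mul (F c)).congr ?_
  filter_upwards with c'
  ring

/-- outer integrability -/
theorem outer_int_b12 {F : (Fin n → ℝ) → ℝ} (hF : Integrable F) {δ : ℝ} (hδ : 0 < δ) (a : Fin n → ℝ) :
    Integrable fun c : Fin n → ℝ => ∫ c' : Fin n → ℝ, F c * F c' * gs δ (c - c' + a) := by
  have hc : Continuous fun p : (Fin n → ℝ) × (Fin n → ℝ) => gs δ (p.1 - p.2 + a) := (gs_cont hδ).comp (by fun_prop)
  have h1 : Integrable (fun p : (Fin n → ℝ) × (Fin n → ℝ) => F p.1 * F p.2) (volume.prod volume) := hF.mul_prod hF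
  have h2 : Integrable (fun p : (Fin n → ℝ) × (Fin n → ℝ) => F p.1 * F p.2 * gs δ (p.1 - p.2 + a)) (volume.prod volume) := by
    refine h1.mul_bdd (c := (Real.sqrt (2 * Real.pi * δ))⁻¹ ^ n) hc.aestronglyMeasurable ?_
    filter_upwards with p
    exact gs_bd_b12 hδ _
  exact h2.integral_prod_left

theorem II_far {F : (Fin n → ℝ) → ℝ} {Z : Set (Fin n → ℝ)} {E : ℝ} (hF : Sub F Z E) (hZ : IsCompact Z) {γ δ : ℝ} (hδ : 0 < δ)
    (a : Fin n → ℝ) (ha : ∀ c ∈ Z, ∀ c' ∈ Z, γ ^ 2 ≤ ∑ k, (c k - c' k + a k) ^ 2) :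
    II F δ a ≤ Real.sqrt 2 ^ n * Real.exp (-(γ ^ 2 / (4 * δ))) * II F (2 * δ) a := by
  have hFi := hF.integrable hZ
  set A : ℝ := Real.sqrt 2 ^ n * Real.exp (-(γ ^ 2 / (4 * δ))) with hA
  have hA0 : 0 ≤ A := by positivity
  have hpt : ∀ c c' : Fin n → ℝ, F c * F c' * gs δ (c - c' + a) ≤ A * (F c * F c' * gs (2 * δ) (c - c' + a)) := by
    intro c c'
    have h0 := hF.nn c
    have h0' := hF.nn c'
    by_cases h1 : c ∈ Z
    · by_cases h2 : c' ∈ Z
      · have h3 := gs_far (γ := γ) hδ (c - c' + a) (by simpa using ha c h1 c' h2)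
        calc F c * F c' * gs δ (c - c' + a)
            ≤ F c * F c' * (A * gs (2 * δ) (c - c' + a)) := mul_le_mul_of_nonneg_left h3 (mul_nonneg h0 h0')
          _ = _ := by ring
      · rw [hF.supp c' h2]; simp
    · rw [hF.supp c h1]; simp
  have hin : ∀ c : Fin n → ℝ, ∫ c' : Fin n → ℝ, F c * F c' * gs δ (c - c' + a) ≤
      A * ∫ c' : Fin n → ℝ, F c * F c' * gs (2 * δ) (c - c' + a) := by
    intro c
    rw [← integral_const_mul]
    exact integral_mono (inner_int_b12 hFi hδ a c) ((inner_int_b12 hFi (by linarith) a c).const_mul A) (hpt c)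
  unfold II
  rw [← integral_const_mul]
  exact integral_mono (outer_int_b12 hFi hδ a) ((outer_int_b12 hFi (by linarith) a).const_mul A) hin

/-- `II` at the origin is the integral of `F` against its Gaussian mean -/
theorem inner_gm_b12 (F : (Fin n → ℝ) → ℝ) (δ : ℝ) (c : Fin n → ℝ) :
    ∫ c' : Fin n → ℝ, F c * F c' * gs δ (c - c' + 0) = F c * gm δ F c := by
  unfold gm
  rw [← integral_const_mul]
  rw [← integral_add_left_eq_self (fun c' : Fin n → ℝ => F c * F c' * gs δ (c - c' + 0)) c]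
  congr 1
  funext z
  have : c - (c + z) + 0 = -z := by abel
  rw [this, gs_neg]
  ring

theorem II_gm_b12 (F : (Fin n → ℝ) → ℝ) (δ : ℝ) : II F δ 0 = ∫ c : Fin n → ℝ, F c * gm δ F c := by
  unfold II
  simp_rw [inner_gm_b12]

theorem gm_int_b12 {F : (Fin n → ℝ) → ℝ} (hF : Integrable F) {δ : ℝ} (hδ : 0 < δ) (c : Fin n → ℝ) :
    Integrable fun z : Fin n → ℝ => gs δ z * F (c + z) := by
  have h1 : Integrable fun z : Fin n → ℝ => F (c + z) := hF.comp_add_left c
  have h2 : Integrable fun z : Fin n → ℝ => F (c + z) * gs δ z := by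
    refine h1.mul_bdd (c := (Real.sqrt (2 * Real.pi * δ))⁻¹ ^ n) (gs_cont hδ).aestronglyMeasurable ?_
    filter_upwards with c'
    exact gs_bd_b12 hδ _
  refine h2.congr ?_
  filter_upwards with z
  ring

theorem outer_gm_b12 {F : (Fin n → ℝ) → ℝ} (hF : Integrable F) {δ : ℝ} (hδ : 0 < δ) :
    Integrable fun c : Fin n → ℝ => F c * gm δ F c := by
  have h := outer_int_b12 hF hδ 0
  simp_rw [inner_gm_b12] at h
  exact h

/-- the semigroup property of the Gaussian mean -/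
theorem gm_add_b12 {F : (Fin n → ℝ) → ℝ} (hF : Integrable F) {s δ : ℝ} (hs : 0 < s) (hδ : 0 < δ) (c : Fin n → ℝ) :
    gm (s + δ) F c = ∫ z : Fin n → ℝ, gs δ z * gm s F (c + z) := by
  -- both sides are `∫∫ gs δ z * gs s (w - z) * F (c + w)`
  have hsd : 0 < s + δ := by linarith
  have hprod : Integrable (fun p : (Fin n → ℝ) × (Fin n → ℝ) => gs s (p.1 + p.2) * (F (c + p.1) * gs δ p.2))
      (volume.prod volume) := by
    have h1 : Integrable (fun p : (Fin n → ℝ) × (Fin n → ℝ) => F (c + p.1) * gs δ p.2) (volume.prod volume) :=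
      (hF.comp_add_left c).mul_prod (gs_integrable hδ)
    have hc : Continuous fun p : (Fin n → ℝ) × (Fin n → ℝ) => gs s (p.1 + p.2) := (gs_cont hs).comp (by fun_prop)
    refine h1.bdd_mul (c := (Real.sqrt (2 * Real.pi * s))⁻¹ ^ n) hc.aestronglyMeasurable ?_
    filter_upwards with p
    exact gs_bd_b12 hs _
  have e1 : gm (s + δ) F c = ∫ w : Fin n → ℝ, ∫ z : Fin n → ℝ, gs s (w + z) * (F (c + w) * gs δ z) := by
    unfold gm
    congr 1
    funext w
    rw [gs_semi hs hδ, ← integral_mul_const]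
    congr 1
    funext z
    ring
  rw [e1, integral_integral_swap hprod]
  -- substitute `z -> -z`
  rw [← integral_neg_eq_self (fun z : Fin n → ℝ => ∫ w : Fin n → ℝ, gs s (w + z) * (F (c + w) * gs δ z))]
  congr 1
  funext z
  unfold gm
  rw [← integral_const_mul, ← integral_add_left_eq_self (fun w : Fin n → ℝ => gs s (w + -z) * (F (c + w) * gs δ (-z))) z]
  congr 1
  funext w
  have h1 : z + w + -z = w := by abel
  have h2 : c + (z + w) = c + z + w := by abel
  rw [h1, h2, gs_neg]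
  ring

theorem gm_mono_sub_b12 {F : (Fin n → ℝ) → ℝ} {Z : Set (Fin n → ℝ)} {E : ℝ} (hF : Sub F Z E) (hZ : IsCompact Z) {s δ : ℝ}
    (hs : 0 < s) (hδ : 0 < δ) (c : Fin n → ℝ) : Real.exp (-(s * E / 2)) * gm δ F c ≤ gm (s + δ) F c := by
  have hFi := hF.integrable hZ
  rw [gm_add_b12 hFi hs hδ]
  unfold gm
  rw [← integral_const_mul]
  apply integral_mono_of_nonneg
  · filter_upwards with z
    exact mul_nonneg (Real.exp_pos _).le (mul_nonneg (gs_nonneg _ _) (hF.nn _))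
  · -- integrability
    have hb : ∀ x, ‖gm s F x‖ ≤ 1 := by
      intro x
      have h0 : 0 ≤ gm s F x := integral_nonneg fun z => mul_nonneg (gs_nonneg _ _) (hF.nn _)
      rw [Real.norm_eq_abs, abs_of_nonneg h0]
      calc gm s F x ≤ ∫ z : Fin n → ℝ, gs s z := by
            unfold gm
            exact integral_mono (gm_int_b12 hFi hs x) (gs_integrable hs) fun z =>
              mul_le_of_le_one_right (gs_nonneg _ _) (hF.le_one _)
        _ = 1 := gs_integral hs
    have hm : AEStronglyMeasurable (fun z : Fin n → ℝ => gm s F (c + z)) volume :=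
      ((gm_meas_int hFi hs).comp_add_left c).aestronglyMeasurable
    have := (gs_integrable (n := n) hδ).mul_bdd (c := 1) hm (by filter_upwards with z using hb _)
    exact this
  · filter_upwards with z
    have := hF.sub s hs (c + z)
    unfold gm at this
    calc Real.exp (-(s * E / 2)) * (gs δ z * F (c + z)) = gs δ z * (Real.exp (-(s * E / 2)) * F (c + z)) := by ring
      _ ≤ _ := mul_le_mul_of_nonneg_left this (gs_nonneg _ _)

theorem II_sub {F : (Fin n → ℝ) → ℝ} {Z : Set (Fin n → ℝ)} {E : ℝ} (hF : Sub F Z E) (hZ : IsCompact Z) {s δ : ℝ} (hs : 0 < s)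
    (hδ : 0 < δ) : Real.exp (-(s * E / 2)) * II F δ 0 ≤ II F (s + δ) 0 := by
  have hFi := hF.integrable hZ
  rw [II_gm_b12, II_gm_b12, ← integral_const_mul]
  refine integral_mono ((outer_gm_b12 hFi hδ).const_mul _) (outer_gm_b12 hFi (by linarith)) fun c => ?_
  show Real.exp (-(s * E / 2)) * (F c * gm δ F c) ≤ F c * gm (s + δ) F c
  have := gm_mono_sub_b12 hF hZ hs hδ c
  calc Real.exp (-(s * E / 2)) * (F c * gm δ F c) = F c * (Real.exp (-(s * E / 2)) * gm δ F c) := by ring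
    _ ≤ _ := mul_le_mul_of_nonneg_left this (hF.nn c)

theorem II_pos {F : (Fin n → ℝ) → ℝ} {Z : Set (Fin n → ℝ)} {E : ℝ} (hF : Sub F Z E) (hZ : IsCompact Z) {δ : ℝ} (hδ : 0 < δ) :
    0 < II F δ 0 := by
  have hFi := hF.integrable hZ
  rw [II_gm_b12]
  have h0 : ∀ c : Fin n → ℝ, 0 ≤ F c * gm δ F c := fun c => mul_nonneg (hF.nn c)
    (integral_nonneg fun z => mul_nonneg (gs_nonneg _ _) (hF.nn _))
  rw [integral_pos_iff_support_of_nonneg h0 (outer_gm_b12 hFi hδ)]
  have h1 := hF.pos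
  rw [integral_pos_iff_support_of_nonneg hF.nn hFi] at h1
  refine lt_of_lt_of_le h1 (measure_mono fun c hc => ?_)
  rw [Function.mem_support] at hc ⊢
  have hpos : 0 < F c := lt_of_le_of_ne (hF.nn c) (Ne.symm hc)
  have h2 := hF.sub δ hδ c
  have h3 : 0 < Real.exp (-(δ * E / 2)) * F c := by positivity
  exact (mul_pos hpos (lt_of_lt_of_le h3 h2)).ne'

theorem FT_cont_aux_b12 {F : (Fin n → ℝ) → ℝ} (hF : Integrable F) : Continuous (FT F) := by
  unfold FT
  refine continuous_of_dominated (bound := fun x => ‖F x‖) (fun a => (SQ.avg_integrable F hF a).aestronglyMeasurable)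
    (fun a => ?_) hF.norm ?_
  · filter_upwards with x
    rw [norm_mul, norm_ee, mul_one, Complex.norm_real]
  · filter_upwards with x
    exact continuous_const.mul (continuous_ee.comp (by fun_prop))

theorem FT_bd_aux_b12 (F : (Fin n → ℝ) → ℝ) (a : Fin n → ℝ) : ‖FT F a‖ ≤ ∫ x, ‖F x‖ := by
  unfold FT
  refine (norm_integral_le_integral_norm _).trans (le_of_eq ?_)
  congr 1
  funext x
  rw [norm_mul, norm_ee, mul_one, Complex.norm_real]

theorem JJ_int_b12 {v : Fin n → Fin d → ℝ} {m : ℕ} {b : Fin d → ℝ} {F : (Fin n → ℝ) → ℝ} (hF : Integrable F) {δ : ℝ} (hδ : 0 < δ) :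
    Integrable fun x : Fin n → ℝ => PP (XX b v x) ^ m * (‖FT F x‖ ^ 2 * Real.exp (-(2 * Real.pi ^ 2 * δ * ∑ k, x k ^ 2))) := by
  have hg : Integrable fun x : Fin n → ℝ => Real.exp (-(2 * Real.pi ^ 2 * δ * ∑ k, x k ^ 2)) := by
    have h1 : (0 : ℝ) < 1 / (4 * Real.pi ^ 2 * δ) := by positivity
    have h2 := (gs_integrable (n := n) h1).const_mul (((Real.sqrt (2 * Real.pi * (1 / (4 * Real.pi ^ 2 * δ))))⁻¹ ^ n)⁻¹)
    refine h2.congr ?_
    filter_upwards with x
    have h3 : (Real.sqrt (2 * Real.pi * (1 / (4 * Real.pi ^ 2 * δ))))⁻¹ ^ n ≠ 0 := by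
      have : 0 < Real.sqrt (2 * Real.pi * (1 / (4 * Real.pi ^ 2 * δ))) := Real.sqrt_pos.2 (by positivity)
      positivity
    rw [gs_eq, ← mul_assoc, inv_mul_cancel₀ h3, one_mul]
    congr 1
    field_simp
    ring
  have hc : Continuous fun x : Fin n → ℝ => PP (XX b v x) ^ m * ‖FT F x‖ ^ 2 :=
    ((continuous_PP.comp (continuous_XX b v)).pow m).mul (((FT_cont_aux_b12 hF).norm).pow 2)
  have h4 := hg.bdd_mul (c := (∫ x, ‖F x‖) ^ 2) hc.aestronglyMeasurable ?_
  · refine h4.congr ?_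
    filter_upwards with x
    ring
  · filter_upwards with x
    rw [Real.norm_eq_abs, abs_of_nonneg (mul_nonneg (pow_nonneg (PP_nonneg _) _) (by positivity))]
    have h5 : PP (XX b v x) ^ m ≤ 1 := pow_le_one₀ (PP_nonneg _) (PP_le_one _)
    have h6 : ‖FT F x‖ ^ 2 ≤ (∫ x, ‖F x‖) ^ 2 := pow_le_pow_left₀ (norm_nonneg _) (FT_bd_aux_b12 F x) 2
    calc PP (XX b v x) ^ m * ‖FT F x‖ ^ 2 ≤ 1 * ‖FT F x‖ ^ 2 := mul_le_mul_of_nonneg_right h5 (by positivity)
      _ ≤ _ := by rw [one_mul]; exact h6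

theorem JJ_anti (v : Fin n → Fin d → ℝ) (m : ℕ) (b : Fin d → ℝ) {F : (Fin n → ℝ) → ℝ} (hF : Integrable F) {δ δ' : ℝ} (hδ : 0 < δ)
    (h : δ ≤ δ') : JJ v m b F δ' ≤ JJ v m b F δ := by
  unfold JJ
  refine integral_mono (JJ_int_b12 hF (lt_of_lt_of_le hδ h)) (JJ_int_b12 hF hδ) fun x => ?_
  refine mul_le_mul_of_nonneg_left (mul_le_mul_of_nonneg_left (Real.exp_le_exp.2 ?_) (by positivity)) (pow_nonneg (PP_nonneg _) _)
  have h1 : 0 ≤ ∑ k, x k ^ 2 := Finset.sum_nonneg fun _ _ => sq_nonneg _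
  have h2 : 0 ≤ Real.pi ^ 2 := by positivity
  have : 2 * Real.pi ^ 2 * δ * ∑ k, x k ^ 2 ≤ 2 * Real.pi ^ 2 * δ' * ∑ k, x k ^ 2 := by
    apply mul_le_mul_of_nonneg_right _ h1
    nlinarith
  linarith

end Pool.Agent.Lib.MP_d2370c_gt.ZN
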