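import Mathlib
import Pool.Agent.Lib.MP_d2370c_gt.ZN.FTb
import Pool.Agent.Lib.MP_d2370c_gt.SQ.Avg

/-! The integrals `II` and `JJ`: Fubini and the inversion formula of the Gaussian. -/

set_option autoImplicit false

open Finset MeasureTheory Filter Topology

namespace Pool.Agent.Lib.MP_d2370c_gt.ZN

open Pool.Agent.Lib.MP_d2370c_gt

variable {n d N : ℕ}

theorem II_nonneg {F : (Fin n → ℝ) → ℝ} (h0 : ∀ x, 0 ≤ F x) (δ : ℝ) (a : Fin n → ℝ) : 0 ≤ II F δ a := by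
  unfold II
  exact integral_nonneg fun c => integral_nonneg fun c' => mul_nonneg (mul_nonneg (h0 c) (h0 c')) (gs_nonneg _ _)

/-- the Gaussian weight -/
private noncomputable def jE (δ : ℝ) (x : Fin n → ℝ) : ℝ := Real.exp (-(2 * Real.pi ^ 2 * δ * ∑ k, x k ^ 2))

private theorem jE_int {δ : ℝ} (hδ : 0 < δ) : Integrable (jE (n := n) δ) := by
  have hb : 0 < 2 * Real.pi ^ 2 * δ := by positivity
  have h1 : Integrable (fun x : Fin n → ℝ => ∏ k, Real.exp (-(2 * Real.pi ^ 2 * δ) * x k ^ 2)) :=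
    Integrable.fintype_prod (f := fun (_ : Fin n) (t : ℝ) => Real.exp (-(2 * Real.pi ^ 2 * δ) * t ^ 2))
      fun _ => integrable_exp_neg_mul_sq hb
  refine h1.congr (Filter.Eventually.of_forall fun x => ?_)
  simp only [jE]
  rw [← Real.exp_sum, ← Finset.mul_sum]
  congr 1
  ring

/-- the triple integrand -/
private noncomputable def jH (F : (Fin n → ℝ) → ℝ) (δ : ℝ) (a : Fin n → ℝ)
    (q : (Fin n → ℝ) × ((Fin n → ℝ) × (Fin n → ℝ))) : ℂ :=
  (((jE δ q.1 * (F q.2.1 * F q.2.2) : ℝ)) : ℂ) * ee (∑ k, q.1 k * (q.2.1 k - q.2.2 k + a k))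

private theorem jH_int {F : (Fin n → ℝ) → ℝ} (hF : Integrable F) {δ : ℝ} (hδ : 0 < δ) (a : Fin n → ℝ) :
    Integrable (jH F δ a) (volume.prod (volume.prod volume)) := by
  have h1 : Integrable (fun p : (Fin n → ℝ) × (Fin n → ℝ) => F p.1 * F p.2) (volume.prod volume) := hF.mul_prod hF
  have h2 : Integrable (fun q : (Fin n → ℝ) × ((Fin n → ℝ) × (Fin n → ℝ)) => jE δ q.1 * (F q.2.1 * F q.2.2))
      (volume.prod (volume.prod volume)) := (jE_int hδ).mul_prod h1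
  refine h2.ofReal.mul_bdd (c := 1) ?_ ?_
  · have hc : Continuous fun q : (Fin n → ℝ) × ((Fin n → ℝ) × (Fin n → ℝ)) =>
        ee (∑ k, q.1 k * (q.2.1 k - q.2.2 k + a k)) := by
      apply continuous_ee.comp
      fun_prop
    exact hc.aestronglyMeasurable
  · exact Filter.Eventually.of_forall fun p => (norm_ee _).le

private theorem jH_sq (F : (Fin n → ℝ) → ℝ) (δ : ℝ) (a x : Fin n → ℝ) :
    ∫ p : (Fin n → ℝ) × (Fin n → ℝ), jH F δ a (x, p) ∂(volume.prod volume) =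
      ((‖FT F x‖ ^ 2 * Real.exp (-(2 * Real.pi ^ 2 * δ * ∑ k, x k ^ 2)) : ℝ) : ℂ) * ee (∑ k, x k * a k) := by
  have h1 : ∀ p : (Fin n → ℝ) × (Fin n → ℝ), jH F δ a (x, p) =
      (((jE δ x : ℝ) : ℂ) * ee (∑ k, x k * a k)) *
        (((F p.1 : ℂ) * ee (∑ k, p.1 k * x k)) * ((F p.2 : ℂ) * ee (∑ k, p.2 k * (-x) k))) := by
    intro p
    unfold jH
    have h2 : ee (∑ k, x k * (p.1 k - p.2 k + a k)) =
        ee (∑ k, x k * a k) * (ee (∑ k, p.1 k * x k) * ee (∑ k, p.2 k * (-x) k)) := by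
      rw [← ee_add, ← ee_add]
      congr 1
      rw [← Finset.sum_add_distrib, ← Finset.sum_add_distrib]
      refine Finset.sum_congr rfl fun k _ => ?_
      simp only [Pi.neg_apply]
      ring
    simp only
    rw [h2]
    push_cast
    ring
  simp_rw [h1]
  rw [integral_const_mul, integral_prod_mul (fun c : Fin n → ℝ => (F c : ℂ) * ee (∑ k, c k * x k))
    (fun c : Fin n → ℝ => (F c : ℂ) * ee (∑ k, c k * (-x) k))]
  have h3 : ∫ c : Fin n → ℝ, (F c : ℂ) * ee (∑ k, c k * (-x) k) = (starRingEnd ℂ) (FT F x) := by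
    rw [← FT_neg]
    rfl
  have h4 : ∫ c : Fin n → ℝ, (F c : ℂ) * ee (∑ k, c k * x k) = FT F x := rfl
  rw [h3, h4, Complex.mul_conj, Complex.normSq_eq_norm_sq]
  unfold jE
  push_cast
  ring

private theorem jH_x (F : (Fin n → ℝ) → ℝ) {δ : ℝ} (hδ : 0 < δ) (a : Fin n → ℝ) (p : (Fin n → ℝ) × (Fin n → ℝ)) :
    ∫ x : Fin n → ℝ, jH F δ a (x, p) = ((F p.1 * F p.2 * gs δ (p.1 - p.2 + a) : ℝ) : ℂ) := by
  have h1 := gs_inv (n := n) hδ (p.1 - p.2 + a)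
  unfold FT at h1
  have h2 : ∀ x : Fin n → ℝ, jH F δ a (x, p) = ((F p.1 * F p.2 : ℝ) : ℂ) *
      (((Real.exp (-(2 * Real.pi ^ 2 * δ * ∑ k, x k ^ 2)) : ℝ) : ℂ) * ee (∑ k, x k * (p.1 - p.2 + a) k)) := by
    intro x
    unfold jH jE
    simp only [Pi.add_apply, Pi.sub_apply]
    push_cast
    ring
  simp_rw [h2]
  rw [integral_const_mul, h1]
  push_cast
  ring

private theorem jG_int {F : (Fin n → ℝ) → ℝ} (hF : Integrable F) {δ : ℝ} (hδ : 0 < δ) :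
    Integrable (fun x : Fin n → ℝ => ‖FT F x‖ ^ 2 * Real.exp (-(2 * Real.pi ^ 2 * δ * ∑ k, x k ^ 2))) := by
  have h1 := (jH_int hF hδ 0).integral_prod_left
  have h2 := h1.re
  refine h2.congr (Filter.Eventually.of_forall fun x => ?_)
  simp only
  rw [jH_sq]
  have h3 : ee (∑ k, x k * (0 : Fin n → ℝ) k) = 1 := by
    simp [ee]
  rw [h3, mul_one]
  exact RCLike.ofReal_re _

private theorem jFT {F : (Fin n → ℝ) → ℝ} (hF : Integrable F) {δ : ℝ} (hδ : 0 < δ) (a : Fin n → ℝ) :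
    ∫ x : Fin n → ℝ, ((‖FT F x‖ ^ 2 * Real.exp (-(2 * Real.pi ^ 2 * δ * ∑ k, x k ^ 2)) : ℝ) : ℂ) * ee (∑ k, x k * a k) =
      ((II F δ a : ℝ) : ℂ) := by
  have hint := jH_int hF hδ a
  have h1 : ∫ x : Fin n → ℝ, ((‖FT F x‖ ^ 2 * Real.exp (-(2 * Real.pi ^ 2 * δ * ∑ k, x k ^ 2)) : ℝ) : ℂ) *
      ee (∑ k, x k * a k) = ∫ x : Fin n → ℝ, ∫ p : (Fin n → ℝ) × (Fin n → ℝ), jH F δ a (x, p) ∂(volume.prod volume) :=
    integral_congr_ae (Filter.Eventually.of_forall fun x => (jH_sq F δ a x).symm)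
  rw [h1, integral_integral_swap (f := fun x p => jH F δ a (x, p)) hint]
  have h2 := hint.integral_prod_right
  simp_rw [jH_x F hδ a] at h2 ⊢
  have h3 : Integrable (fun p : (Fin n → ℝ) × (Fin n → ℝ) => F p.1 * F p.2 * gs δ (p.1 - p.2 + a)) (volume.prod volume) := by
    refine h2.re.congr (Filter.Eventually.of_forall fun p => ?_)
    exact RCLike.ofReal_re _
  rw [integral_complex_ofReal, integral_prod _ h3]
  rfl

theorem JJ_eq (v : Fin n → Fin d → ℝ) (m : ℕ) (b : Fin d → ℝ) {F : (Fin n → ℝ) → ℝ} (hF : Integrable F) {δ : ℝ} (hδ : 0 < δ) :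
    JJ v m b F δ = ∑ κ ∈ ix d m, cf m κ * (Real.cos (2 * Real.pi * ∑ i, ((yy m κ i : ℤ) : ℝ) * b i) *
      II F δ (pr v fun i => ((yy m κ i : ℤ) : ℝ))) := by
  have h1 := SQ.J_eq (fun x : Fin n → ℝ => ‖FT F x‖ ^ 2 * Real.exp (-(2 * Real.pi ^ 2 * δ * ∑ k, x k ^ 2)))
    (jG_int hF hδ) b v m
  have h2 := congrArg Complex.re h1
  rw [Complex.ofReal_re, Complex.re_sum] at h2
  unfold JJ
  rw [h2]
  refine Finset.sum_congr rfl fun κ _ => ?_
  rw [jFT hF hδ, Complex.re_ofReal_mul, Complex.re_mul_ofReal]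
  congr 2
  unfold ee
  rw [Complex.exp_re]
  simp [mul_comm, mul_left_comm, mul_assoc]

/-- `m = 0` -/
theorem II_zero {F : (Fin n → ℝ) → ℝ} (hF : Integrable F) {δ : ℝ} (hδ : 0 < δ) :
    II F δ 0 = ∫ x : Fin n → ℝ, ‖FT F x‖ ^ 2 * Real.exp (-(2 * Real.pi ^ 2 * δ * ∑ k, x k ^ 2)) := by
  have h1 := jFT hF hδ (0 : Fin n → ℝ)
  have h3 : ∀ x : Fin n → ℝ, ee (∑ k, x k * (0 : Fin n → ℝ) k) = 1 := by
    intro x
    simp [ee]
  simp_rw [h3, mul_one] at h1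
  rw [integral_complex_ofReal] at h1
  exact (Complex.ofReal_injective h1).symm

end Pool.Agent.Lib.MP_d2370c_gt.ZN
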