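import Pool.Agent.Lib.MP_d2370c_gt.ZN.Defs
import Pool.Agent.Lib.MP_d2370c_gt.ClassR

/-!
Z8a. Position of Lewis: the determinant `det ∑ w j ⊗ b j` has a maximum over all `b` with `(|b j|)_j ∈ T`.
-/

set_option autoImplicit false

open Finset MeasureTheory Filter Topology

namespace Pool.Agent.Lib.MP_d2370c_gt.ZN

open Pool.Agent.Lib.MP_d2370c_gt

variable {n d N : ℕ}

private theorem lew1_pd (w : Fin N → Fin n → ℝ) (hw : ∀ c : Fin n → ℝ, (∀ j, ∑ k, w j k * c k = 0) → c = 0)
    (c : Fin N → ℝ) (hc : ∀ j, 0 < c j) : (Matrix.of fun i k => ∑ j, w j i * (c j * w j k)).det ≠ 0 := by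
  intro h0
  obtain ⟨x, hx, hx0⟩ := Matrix.exists_mulVec_eq_zero_iff.2 h0
  apply hx
  apply hw
  have h1 : ∑ j, c j * (∑ k, w j k * x k) ^ 2 = 0 := by
    have h2 : ∑ i, x i * (Matrix.of fun i k => ∑ j, w j i * (c j * w j k)).mulVec x i = 0 := by
      rw [hx0]
      simp
    rw [← h2]
    simp only [Matrix.mulVec, dotProduct, Matrix.of_apply]
    calc ∑ j, c j * (∑ k, w j k * x k) ^ 2 = ∑ j, ∑ i, ∑ k, x i * (w j i * (c j * w j k) * x k) := by
          refine sum_congr rfl fun j _ => ?_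
          rw [sq, sum_mul_sum, mul_sum]
          refine sum_congr rfl fun i _ => ?_
          rw [mul_sum]
          refine sum_congr rfl fun k _ => ?_
          ring
      _ = ∑ i, ∑ j, ∑ k, x i * (w j i * (c j * w j k) * x k) := sum_comm
      _ = _ := by
          refine sum_congr rfl fun i _ => ?_
          rw [sum_comm, mul_sum]
          refine sum_congr rfl fun k _ => ?_
          rw [sum_mul, mul_sum]
  intro j
  have h2 := (sum_eq_zero_iff_of_nonneg (fun j _ => mul_nonneg (hc j).le (sq_nonneg _))).1 h1 j (mem_univ j)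
  have h3 := (mul_eq_zero.1 h2).resolve_left (hc j).ne'
  exact pow_eq_zero_iff (two_ne_zero) |>.1 h3

private theorem lew1_cont : Continuous fun b : Fin N → Fin n → ℝ => (fun j => Real.sqrt (∑ k, b j k ^ 2)) := by
  fun_prop

private theorem lew1_compact {T : Set (Fin N → ℝ)} (hT : SolidConvex 2 T) :
    IsCompact {b : Fin N → Fin n → ℝ | (fun j => Real.sqrt (∑ k, b j k ^ 2)) ∈ T} := by
  apply Metric.isCompact_of_isClosed_isBounded
  · exact hT.isCompact.isClosed.preimage lew1_cont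
  · obtain ⟨R, hR⟩ := hT.isCompact.isBounded.exists_norm_le
    refine (Metric.isBounded_iff_subset_closedBall 0).2 ⟨max R 0, fun b hb => ?_⟩
    rw [mem_closedBall_zero_iff]
    refine (pi_norm_le_iff_of_nonneg (le_max_right _ _)).2 fun j => ?_
    refine (pi_norm_le_iff_of_nonneg (le_max_right _ _)).2 fun k => ?_
    have h1 := (norm_le_pi_norm (fun j => Real.sqrt (∑ k, b j k ^ 2)) j).trans (hR _ hb)
    rw [Real.norm_of_nonneg (Real.sqrt_nonneg _)] at h1
    refine le_trans ?_ (h1.trans (le_max_left _ _))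
    rw [Real.norm_eq_abs]
    apply Real.abs_le_sqrt
    exact single_le_sum (f := fun k => b j k ^ 2) (fun k _ => sq_nonneg _) (mem_univ k)

theorem lew_max (T : Set (Fin N → ℝ)) (hT : SolidConvex 2 T) (w : Fin N → Fin n → ℝ)
    (hw : ∀ c : Fin n → ℝ, (∀ j, ∑ k, w j k * c k = 0) → c = 0) :
    ∃ b : Fin N → Fin n → ℝ, (fun j => Real.sqrt (∑ k, b j k ^ 2)) ∈ T ∧
      (Matrix.of fun i k => ∑ j, w j i * b j k).det ≠ 0 ∧
      ∀ b' : Fin N → Fin n → ℝ, (fun j => Real.sqrt (∑ k, b' j k ^ 2)) ∈ T →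
        |(Matrix.of fun i k => ∑ j, w j i * b' j k).det| ≤ |(Matrix.of fun i k => ∑ j, w j i * b j k).det| := by
  obtain ⟨t, ht, ht0⟩ := hT.full
  -- a point with nonzero determinant
  set c : Fin N → ℝ := fun j => |t j| / (1 + Real.sqrt (∑ k, w j k ^ 2)) with hc
  have hcpos : ∀ j, 0 < c j := fun j => div_pos (abs_pos.2 (ht0 j)) (by positivity)
  have hmem : (fun j => Real.sqrt (∑ k, (c j * w j k) ^ 2)) ∈ T := by
    refine hT.solid t ht _ fun j => ?_
    rw [abs_of_nonneg (Real.sqrt_nonneg _)]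
    have h1 : ∑ k, (c j * w j k) ^ 2 = c j ^ 2 * ∑ k, w j k ^ 2 := by
      rw [mul_sum]
      exact sum_congr rfl fun k _ => by ring
    rw [h1, Real.sqrt_mul (sq_nonneg _), Real.sqrt_sq (hcpos j).le]
    simp only [hc]
    rw [div_mul_eq_mul_div, div_le_iff₀ (by positivity)]
    apply mul_le_mul_of_nonneg_left _ (abs_nonneg _)
    linarith
  have hcont : Continuous fun b : Fin N → Fin n → ℝ => |(Matrix.of fun i k => ∑ j, w j i * b j k).det| := by
    apply Continuous.abs
    apply Continuous.matrix_det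
    refine continuous_matrix fun i k => ?_
    simp only [Matrix.of_apply]
    fun_prop
  obtain ⟨b, hb, hmax⟩ := (lew1_compact (n := n) hT).exists_isMaxOn ⟨fun j k => c j * w j k, hmem⟩ hcont.continuousOn
  refine ⟨b, hb, ?_, fun b' hb' => hmax hb'⟩
  have h1 := hmax hmem
  have h2 := lew1_pd w hw c hcpos
  intro h3
  have h4 : |(Matrix.of fun i k => ∑ j, w j i * (c j * w j k)).det| ≤
      |(Matrix.of fun i k => ∑ j, w j i * b j k).det| := h1
  rw [h3, abs_zero] at h4
  exact h2 (abs_nonpos_iff.1 h4)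

end Pool.Agent.Lib.MP_d2370c_gt.ZN
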