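import Mathlib

/-!
# MP_d2370c_gt, ZN, row Z10a: the choice of `s`, and attained widths
-/

set_option autoImplicit false

open Finset MeasureTheory Filter Topology

namespace Pool.Agent.Lib.MP_d2370c_gt.ZN

variable {n d N : ℕ}

theorem small (E E' γ C : ℝ) (hE : E < E') (hγ : 0 < γ) (hC : 0 ≤ C) : ∃ s : ℝ, 0 < s ∧ C * Real.exp (-(γ ^ 2 / (8 * s))) ≤ 1 / 2 ∧
    Real.exp (-(s * E' / 2)) + C * Real.exp (-(γ ^ 2 / (8 * s))) < Real.exp (-(s * E / 2)) := by
  set b : ℝ := E' / 2 with hb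
  set η : ℝ := (E' - E) / 2 with hη
  have hη0 : 0 < η := by rw [hη]; linarith
  set K : ℝ := C * (128 / γ ^ 4) with hK
  have hK0 : 0 ≤ K := by positivity
  set s : ℝ := min (min 1 (1 / (2 * (|b| + 1)))) (min (η / (4 * (K + 1))) (1 / (2 * (K + 1)))) with hs
  have hs0 : 0 < s := by
    rw [hs]
    refine lt_min (lt_min one_pos (by positivity)) (lt_min (by positivity) (by positivity))
  have hs1 : s ≤ 1 := (min_le_left _ _).trans (min_le_left _ _)
  have hs2 : s ≤ 1 / (2 * (|b| + 1)) := (min_le_left _ _).trans (min_le_right _ _)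
  have hs3 : s ≤ η / (4 * (K + 1)) := (min_le_right _ _).trans (min_le_left _ _)
  have hs4 : s ≤ 1 / (2 * (K + 1)) := (min_le_right _ _).trans (min_le_right _ _)
  rw [le_div_iff₀ (by positivity)] at hs2 hs3 hs4
  have hsb : s * b ≤ 1 / 2 := by
    have h1 : s * b ≤ s * |b| := mul_le_mul_of_nonneg_left (le_abs_self b) hs0.le
    nlinarith
  -- the tail
  have htail : C * Real.exp (-(γ ^ 2 / (8 * s))) ≤ K * s ^ 2 := by
    have hx : 0 ≤ γ ^ 2 / (8 * s) := by positivity
    have h1 : (γ ^ 2 / (8 * s)) ^ 2 / 2 ≤ Real.exp (γ ^ 2 / (8 * s)) := by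
      have := Real.quadratic_le_exp_of_nonneg hx
      linarith
    have h2 : Real.exp (-(γ ^ 2 / (8 * s))) ≤ 128 / γ ^ 4 * s ^ 2 := by
      rw [Real.exp_neg]
      have h3 : 0 < (γ ^ 2 / (8 * s)) ^ 2 / 2 := by positivity
      calc (Real.exp (γ ^ 2 / (8 * s)))⁻¹ ≤ ((γ ^ 2 / (8 * s)) ^ 2 / 2)⁻¹ := inv_anti₀ h3 h1
        _ = 128 / γ ^ 4 * s ^ 2 := by
          field_simp
          norm_num
    calc C * Real.exp (-(γ ^ 2 / (8 * s))) ≤ C * (128 / γ ^ 4 * s ^ 2) := mul_le_mul_of_nonneg_left h2 hC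
      _ = K * s ^ 2 := by rw [hK]; ring
  have hKs : K * s ≤ 1 / 2 := by nlinarith
  have hKs2 : K * s ^ 2 ≤ K * s := by
    have : K * s ^ 2 = K * s * s := by ring
    rw [this]
    have h0 : 0 ≤ K * s := by positivity
    nlinarith
  refine ⟨s, hs0, by linarith, ?_⟩
  have e1 : Real.exp (-(s * E / 2)) = Real.exp (-(s * b)) * Real.exp (s * η) := by
    rw [← Real.exp_add, hb, hη]
    congr 1
    ring
  have e2 : Real.exp (-(s * E' / 2)) = Real.exp (-(s * b)) := by
    rw [hb]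
    congr 1
    ring
  rw [e1, e2]
  have h1 : 1 / 2 ≤ Real.exp (-(s * b)) := by
    have := Real.add_one_le_exp (-(s * b))
    linarith
  have h2 : 1 + s * η ≤ Real.exp (s * η) := by
    have := Real.add_one_le_exp (s * η)
    linarith
  have h3 : Real.exp (-(s * b)) * (1 + s * η) ≤ Real.exp (-(s * b)) * Real.exp (s * η) :=
    mul_le_mul_of_nonneg_left h2 (Real.exp_pos _).le
  have h4 : 1 / 2 * (s * η) ≤ Real.exp (-(s * b)) * (s * η) :=
    mul_le_mul_of_nonneg_right h1 (by positivity)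
  have h5 : K * s ^ 2 < 1 / 2 * (s * η) := by
    have h6 : K * s < 1 / 2 * η := by nlinarith
    have : K * s ^ 2 = K * s * s := by ring
    rw [this]
    nlinarith
  have h7 : Real.exp (-(s * b)) * (1 + s * η) = Real.exp (-(s * b)) + Real.exp (-(s * b)) * (s * η) := by ring
  linarith

/-- the sum of a difference of two points which differ in one coordinate -/
private theorem num_sum (c : Fin d → ℝ) (i : Fin d) (ρ : ℝ) (y : Fin d → ℤ) :
    ∑ j, (Function.update c i (c i + ρ) j - Function.update c i (c i - ρ) j) * (y j : ℝ) = 2 * ρ * y i := by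
  rw [sum_eq_single i]
  · rw [Function.update_self, Function.update_self]
    ring
  · intro j _ hj
    rw [Function.update_of_ne hj, Function.update_of_ne hj, sub_self, zero_mul]
  · intro h
    exact absurd (mem_univ i) h

private theorem num_ball (c : Fin d → ℝ) (i : Fin d) {ρ t : ℝ} (hρ : 0 ≤ ρ) (ht : |t| ≤ ρ) :
    Function.update c i (c i + t) ∈ Metric.closedBall c ρ := by
  rw [Metric.mem_closedBall, dist_pi_le_iff hρ]
  intro j
  by_cases hj : j = i
  · subst hj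
    rw [Function.update_self, Real.dist_eq]
    simpa using ht
  · rw [Function.update_of_ne hj, dist_self]
    exact hρ

/-- `K` contains a ball, so only finitely many integer directions have width `≤ W + 1` -/
theorem attain (K : Set (Fin d → ℝ)) (hint : (interior K).Nonempty) (W : ℝ)
    (h : ∀ ε : ℝ, 0 < ε → ∃ y : Fin d → ℤ, y ≠ 0 ∧ ∀ z ∈ K, ∀ z' ∈ K, ∑ i, (z i - z' i) * (y i : ℝ) ≤ W + ε) :
    ∃ y : Fin d → ℤ, y ≠ 0 ∧ ∀ z ∈ K, ∀ z' ∈ K, ∑ i, (z i - z' i) * (y i : ℝ) ≤ W := by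
  obtain ⟨c, hc⟩ := hint
  rw [mem_interior_iff_mem_nhds, Metric.nhds_basis_closedBall.mem_iff] at hc
  obtain ⟨ρ, hρ, hball⟩ := hc
  by_contra hcon
  push Not at hcon
  -- the finitely many directions
  set B : ℤ := ⌈(W + 1) / (2 * ρ)⌉ with hB
  set S : Set (Fin d → ℤ) := Set.Icc (fun _ => -B) (fun _ => B) ∩ {y | y ≠ 0} with hS
  have hfin : S.Finite := (Set.finite_Icc _ _).subset Set.inter_subset_left
  have hev : ∀ᶠ ε in 𝓝[>] (0 : ℝ), ∀ y ∈ S, ¬ ∀ z ∈ K, ∀ z' ∈ K, ∑ i, (z i - z' i) * (y i : ℝ) ≤ W + ε := by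
    rw [Filter.eventually_all_finite hfin]
    intro y hy
    obtain ⟨z, hz, z', hz', hlt⟩ := hcon y hy.2
    have h1 : ∀ᶠ ε in 𝓝[>] (0 : ℝ), ε < ∑ i, (z i - z' i) * (y i : ℝ) - W := by
      refine mem_nhdsWithin_of_mem_nhds ?_
      exact Iio_mem_nhds (by linarith)
    filter_upwards [h1] with ε hε hall
    have := hall z hz z' hz'
    linarith
  have hev1 : ∀ᶠ ε in 𝓝[>] (0 : ℝ), ε < 1 := mem_nhdsWithin_of_mem_nhds (Iio_mem_nhds one_pos)
  have hev2 : ∀ᶠ ε in 𝓝[>] (0 : ℝ), 0 < ε := self_mem_nhdsWithin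
  obtain ⟨ε, hε, hε1, hε0⟩ := (hev.and (hev1.and hev2)).exists
  obtain ⟨y, hy0, hy⟩ := h ε hε0
  refine hε y ⟨?_, hy0⟩ hy
  have hbd : ∀ i, |(y i : ℝ)| ≤ B := by
    intro i
    have h1 := hy _ (hball (num_ball c i hρ.le (t := ρ) (abs_of_pos hρ).le)) _
      (hball (num_ball c i hρ.le (t := -ρ) (by rw [abs_neg]; exact (abs_of_pos hρ).le)))
    have h2 := hy _ (hball (num_ball c i hρ.le (t := -ρ) (by rw [abs_neg]; exact (abs_of_pos hρ).le))) _
      (hball (num_ball c i hρ.le (t := ρ) (abs_of_pos hρ).le))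
    rw [← sub_eq_add_neg] at h1 h2
    rw [num_sum] at h1
    have e : ∑ j, (Function.update c i (c i - ρ) j - Function.update c i (c i + ρ) j) * (y j : ℝ) = -(2 * ρ * y i) := by
      rw [← num_sum c i ρ y, ← sum_neg_distrib]
      refine sum_congr rfl fun j _ => ?_
      ring
    rw [e] at h2
    have h3 : |(y i : ℝ)| ≤ (W + 1) / (2 * ρ) := by
      rw [abs_le]
      constructor
      · rw [neg_le, le_div_iff₀ (by positivity)]
        linarith
      · rw [le_div_iff₀ (by positivity)]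
        linarith
    exact h3.trans (Int.le_ceil _)
  rw [Set.mem_Icc]
  constructor
  · intro i
    have := (abs_le.1 (hbd i)).1
    exact_mod_cast this
  · intro i
    have := (abs_le.1 (hbd i)).2
    exact_mod_cast this

end Pool.Agent.Lib.MP_d2370c_gt.ZN
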