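import Mathlib

/-!
# MP_d2370c_gt, ZN: approximation of `∫ |⟨v, y⟩| dμ v` by finite sums `∑ |⟨w j, y⟩|`
-/

set_option autoImplicit false

open Finset MeasureTheory Filter Topology

namespace Pool.Agent.Lib.MP_d2370c_gt.ZN

variable {n d N : ℕ}

private theorem simple_abs_le (v y : Fin n → ℝ) : |∑ k, v k * y k| ≤ ‖v‖ * ∑ k, |y k| := by
  refine (abs_sum_le_sum_abs _ _).trans ?_
  rw [mul_sum]
  refine sum_le_sum fun k _ => ?_
  rw [abs_mul]
  exact mul_le_mul_of_nonneg_right (norm_le_pi_norm v k) (abs_nonneg _)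

private theorem simple_meas (y : Fin n → ℝ) : Measurable fun v : Fin n → ℝ => |∑ k, v k * y k| := by
  have : Continuous fun v : Fin n → ℝ => |∑ k, v k * y k| := by fun_prop
  exact this.measurable

private theorem simple_int {μ : Measure (Fin n → ℝ)} {f : (Fin n → ℝ) → Fin n → ℝ} (hf : Integrable f μ) (y : Fin n → ℝ) :
    Integrable (fun v => |∑ k, f v k * y k|) μ := by
  refine Integrable.mono' (hf.norm.mul_const (∑ k, |y k|))
    (((simple_meas y).comp_aemeasurable hf.aestronglyMeasurable.aemeasurable).aestronglyMeasurable)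
    (ae_of_all _ fun v => ?_)
  rw [Real.norm_eq_abs, abs_abs]
  exact simple_abs_le (f v) y

theorem approx_sum (μ : Measure (Fin n → ℝ)) (hμ : Integrable (fun w : Fin n → ℝ => w) μ) (ε : ℝ) (hε : 0 < ε) :
    ∃ (N : ℕ) (w : Fin N → Fin n → ℝ), ∀ y : Fin n → ℝ,
      abs ((∫ v : Fin n → ℝ, |∑ k, v k * y k| ∂μ) - ∑ j, |∑ k, w j k * y k|) ≤ ε * ∑ k, |y k| := by
  classical
  have hL : MemLp (fun w : Fin n → ℝ => w) 1 μ := memLp_one_iff_integrable.2 hμ
  obtain ⟨g, hg1, hg2⟩ := hL.exists_simpleFunc_eLpNorm_sub_lt ENNReal.one_ne_top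
    (ε := ENNReal.ofReal ε) (by rwa [Ne, ENNReal.ofReal_eq_zero, not_le])
  have hgi : Integrable g μ := memLp_one_iff_integrable.1 hg2
  have hdi : Integrable (fun v : Fin n → ℝ => v - g v) μ := hμ.sub hgi
  have hd : ∫ v : Fin n → ℝ, ‖v - g v‖ ∂μ ≤ ε := by
    rw [integral_norm_eq_lintegral_enorm hdi.aestronglyMeasurable]
    rw [eLpNorm_one_eq_lintegral_enorm] at hg1
    have h1 : (∫⁻ v : Fin n → ℝ, ‖v - g v‖ₑ ∂μ) ≤ ENNReal.ofReal ε := hg1.le
    have h2 := ENNReal.toReal_mono ENNReal.ofReal_ne_top h1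
    rwa [ENNReal.toReal_ofReal hε.le] at h2
  let e := g.range.equivFin
  refine ⟨g.range.card, fun j => μ.real (g ⁻¹' {((e.symm j : g.range) : Fin n → ℝ)}) • ((e.symm j : g.range) : Fin n → ℝ),
    fun y => ?_⟩
  have hsum : ∑ j, |∑ k, (μ.real (g ⁻¹' {((e.symm j : g.range) : Fin n → ℝ)}) •
      ((e.symm j : g.range) : Fin n → ℝ)) k * y k| = ∫ v : Fin n → ℝ, |∑ k, g v k * y k| ∂μ := by
    have h1 := SimpleFunc.map_integral (μ := μ) g (fun c : Fin n → ℝ => |∑ k, c k * y k|) hgi (by simp)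
    have h2 : Integrable (g.map fun c : Fin n → ℝ => |∑ k, c k * y k|) μ := simple_int hgi y
    rw [SimpleFunc.integral_eq_integral _ h2] at h1
    have h3 : ∫ v : Fin n → ℝ, |∑ k, g v k * y k| ∂μ =
        ∫ v : Fin n → ℝ, (g.map fun c : Fin n → ℝ => |∑ k, c k * y k|) v ∂μ := rfl
    rw [h3, h1]
    have h4 : ∀ c : Fin n → ℝ, |∑ k, (μ.real (g ⁻¹' {c}) • c) k * y k| = μ.real (g ⁻¹' {c}) • |∑ k, c k * y k| := by
      intro c
      have h5 : ∑ k, (μ.real (g ⁻¹' {c}) • c) k * y k = μ.real (g ⁻¹' {c}) * ∑ k, c k * y k := by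
        rw [mul_sum]
        refine sum_congr rfl fun k _ => ?_
        rw [Pi.smul_apply, smul_eq_mul]
        ring
      rw [h5, abs_mul, abs_of_nonneg measureReal_nonneg, smul_eq_mul]
    calc ∑ j, |∑ k, (μ.real (g ⁻¹' {((e.symm j : g.range) : Fin n → ℝ)}) • ((e.symm j : g.range) : Fin n → ℝ)) k * y k|
        = ∑ c : g.range, |∑ k, (μ.real (g ⁻¹' {(c : Fin n → ℝ)}) • (c : Fin n → ℝ)) k * y k| :=
          Equiv.sum_comp e.symm
            (fun c : g.range => |∑ k, (μ.real (g ⁻¹' {(c : Fin n → ℝ)}) • (c : Fin n → ℝ)) k * y k|)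
      _ = ∑ c ∈ g.range, |∑ k, (μ.real (g ⁻¹' {c}) • c) k * y k| :=
          sum_coe_sort g.range (fun c => |∑ k, (μ.real (g ⁻¹' {c}) • c) k * y k|)
      _ = ∑ c ∈ g.range, μ.real (g ⁻¹' {c}) • |∑ k, c k * y k| := sum_congr rfl fun c _ => h4 c
  rw [hsum, ← integral_sub (simple_int hμ y) (simple_int hgi y)]
  have h6 : |∫ v : Fin n → ℝ, (|∑ k, v k * y k| - |∑ k, g v k * y k|) ∂μ| ≤
      ∫ v : Fin n → ℝ, ‖v - g v‖ * ∑ k, |y k| ∂μ := by
    rw [← Real.norm_eq_abs]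
    refine norm_integral_le_of_norm_le (hdi.norm.mul_const _) (ae_of_all _ fun v => ?_)
    rw [Real.norm_eq_abs]
    refine (abs_abs_sub_abs_le_abs_sub _ _).trans ?_
    have h7 : ∑ k, v k * y k - ∑ k, g v k * y k = ∑ k, (v - g v) k * y k := by
      rw [← sum_sub_distrib]
      refine sum_congr rfl fun k _ => ?_
      rw [Pi.sub_apply]
      ring
    rw [h7]
    exact simple_abs_le _ _
  refine h6.trans ?_
  rw [integral_mul_const]
  exact mul_le_mul_of_nonneg_right hd (sum_nonneg fun _ _ => abs_nonneg _)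

private theorem simple_hom (μ : Measure (Fin n → ℝ)) (c : ℝ) (y : Fin n → ℝ) :
    ∫ v : Fin n → ℝ, |∑ k, v k * (c * y k)| ∂μ = |c| * ∫ v : Fin n → ℝ, |∑ k, v k * y k| ∂μ := by
  rw [← integral_const_mul]
  refine integral_congr_ae (ae_of_all _ fun v => ?_)
  have h : ∑ k, v k * (c * y k) = c * ∑ k, v k * y k := by
    rw [mul_sum]
    exact sum_congr rfl fun k _ => by ring
  simp only [h, abs_mul]

/-- a positive lower bound -/
private theorem simple_low (μ : Measure (Fin n → ℝ)) (hμ : Integrable (fun w : Fin n → ℝ => w) μ)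
    (h0 : ∀ y : Fin n → ℝ, ∫ v : Fin n → ℝ, |∑ k, v k * y k| ∂μ = 0 → y = 0) :
    ∃ m : ℝ, 0 < m ∧ ∀ y : Fin n → ℝ, m * ∑ k, |y k| ≤ ∫ v : Fin n → ℝ, |∑ k, v k * y k| ∂μ := by
  set g : (Fin n → ℝ) → ℝ := fun y => ∫ v : Fin n → ℝ, |∑ k, v k * y k| ∂μ with hg
  have hg0 : ∀ y, 0 ≤ g y := fun y => integral_nonneg fun v => abs_nonneg _
  set S : Set (Fin n → ℝ) := {y | ∑ k, |y k| = 1} with hS
  have hScl : IsClosed S := isClosed_eq (by fun_prop) continuous_const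
  have hSc : IsCompact S := by
    refine (isCompact_closedBall (0 : Fin n → ℝ) 1).of_isClosed_subset hScl fun y hy => ?_
    rw [mem_closedBall_zero_iff]
    refine (pi_norm_le_iff_of_nonneg zero_le_one).2 fun k => ?_
    rw [Real.norm_eq_abs]
    have h1 : |y k| ≤ ∑ k, |y k| := single_le_sum (f := fun k => |y k|) (fun k _ => abs_nonneg (y k)) (mem_univ k)
    have h2 : ∑ k, |y k| = 1 := hy
    linarith
  have hcont : ContinuousOn g S := by
    refine continuousOn_of_dominated (bound := fun v => ‖v‖) (fun y _ => (simple_meas y).aestronglyMeasurable)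
      (fun y hy => ae_of_all _ fun v => ?_) hμ.norm (ae_of_all _ fun v => ?_)
    · rw [Real.norm_eq_abs, abs_abs]
      have h1 := simple_abs_le v y
      have h2 : ∑ k, |y k| = 1 := hy
      rwa [h2, mul_one] at h1
    · have : Continuous fun y : Fin n → ℝ => |∑ k, v k * y k| := by fun_prop
      exact this.continuousOn
  have hhom : ∀ m : ℝ, (∀ y ∈ S, m ≤ g y) → ∀ y : Fin n → ℝ, m * ∑ k, |y k| ≤ g y := by
    intro m hm y
    rcases (sum_nonneg fun k _ => abs_nonneg (y k) : 0 ≤ ∑ k, |y k|).eq_or_lt with h | h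
    · rw [← h, mul_zero]
      exact hg0 y
    · set r : ℝ := ∑ k, |y k| with hr
      have h1 : (fun k => r⁻¹ * y k) ∈ S := by
        change ∑ k, |r⁻¹ * y k| = 1
        simp_rw [abs_mul]
        rw [← mul_sum, ← hr, abs_of_pos (inv_pos.2 h), inv_mul_cancel₀ h.ne']
      have h2 := hm _ h1
      have h3 : g (fun k => r⁻¹ * y k) = |r⁻¹| * g y := simple_hom μ r⁻¹ y
      rw [h3, abs_of_pos (inv_pos.2 h), inv_mul_eq_div, le_div_iff₀ h] at h2
      exact h2
  by_cases hne : S.Nonempty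
  · obtain ⟨y0, hy0, hmin⟩ := hSc.exists_isMinOn hne hcont
    refine ⟨g y0, lt_of_le_of_ne (hg0 y0) fun h => ?_, hhom _ fun y hy => hmin hy⟩
    have h1 : y0 = 0 := h0 y0 h.symm
    have h2 : ∑ k, |y0 k| = 1 := hy0
    rw [h1] at h2
    simp at h2
  · refine ⟨1, one_pos, hhom 1 fun y hy => absurd ⟨y, hy⟩ hne⟩

/-- `g y = ∫ |⟨v, y⟩|` is continuous and homogeneous: compactness of the sphere. Hence finite sums `h` with
`(1 - ε) g ≤ h ≤ (1 + ε) g` -/
theorem approx_rel (μ : Measure (Fin n → ℝ)) (hμ : Integrable (fun w : Fin n → ℝ => w) μ)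
    (h0 : ∀ y : Fin n → ℝ, ∫ v : Fin n → ℝ, |∑ k, v k * y k| ∂μ = 0 → y = 0) (ε : ℝ) (hε : 0 < ε) :
    ∃ (N : ℕ) (w : Fin N → Fin n → ℝ), ∀ y : Fin n → ℝ,
      (1 - ε) * (∫ v : Fin n → ℝ, |∑ k, v k * y k| ∂μ) ≤ ∑ j, |∑ k, w j k * y k| ∧
      ∑ j, |∑ k, w j k * y k| ≤ (1 + ε) * ∫ v : Fin n → ℝ, |∑ k, v k * y k| ∂μ := by
  obtain ⟨m, hm, hlow⟩ := simple_low μ hμ h0
  obtain ⟨N, w, hw⟩ := approx_sum μ hμ (ε * m) (mul_pos hε hm)
  refine ⟨N, w, fun y => ?_⟩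
  have h1 := abs_le.1 (hw y)
  have h2 : ε * m * ∑ k, |y k| ≤ ε * ∫ v : Fin n → ℝ, |∑ k, v k * y k| ∂μ := by
    rw [mul_assoc]
    exact mul_le_mul_of_nonneg_left (hlow y) hε.le
  constructor <;> linarith [h1.1, h1.2]

end Pool.Agent.Lib.MP_d2370c_gt.ZN
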