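import Pool.Agent.Lib.MP_d2370c_gt.ZN.CubeT
import Pool.Agent.Lib.MP_d2370c_gt.ZN.Simple
import Pool.Agent.Lib.MP_d2370c_gt.ZN.Num

/-!
# ZN, row ZA2: the unit ball of an `L_1` norm given by a measure
-/

set_option autoImplicit false

open Finset MeasureTheory Filter Topology

namespace Pool.Agent.Lib.MP_d2370c_gt.ZN

open Pool.Agent.Lib.MP_d2370c_gt

variable {n d N : ℕ}

theorem width_polar_meas (K : Set (Fin d → ℝ)) (hK : IsCompact K) (hconv : Convex ℝ K) (hint : (interior K).Nonempty)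
    (hfree : ∀ z : Fin d → ℤ, (fun i => (z i : ℝ)) ∉ interior K) (μ : Measure (Fin d → ℝ))
    (hμ : Integrable (fun w : Fin d → ℝ => w) μ) (x0 : Fin d → ℝ) (M : ℝ) (hM : 0 ≤ M)
    (hin : ∀ x : Fin d → ℝ, ∫ w : Fin d → ℝ, |∑ k, w k * x k| ∂μ ≤ 1 → x0 + x ∈ K)
    (hout : ∀ x : Fin d → ℝ, x0 + x ∈ K → ∫ w : Fin d → ℝ, |∑ k, w k * x k| ∂μ ≤ M) :
    ∃ y : Fin d → ℤ, y ≠ 0 ∧ ∀ z ∈ K, ∀ z' ∈ K, ∑ i, (z i - z' i) * (y i : ℝ) ≤ M * d := by
  classical
  -- the norm
  have hg0 : ∀ x : Fin d → ℝ, 0 ≤ ∫ w : Fin d → ℝ, |∑ k, w k * x k| ∂μ :=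
    fun x => integral_nonneg fun w => abs_nonneg _
  have h0 : ∀ x : Fin d → ℝ, ∫ w : Fin d → ℝ, |∑ k, w k * x k| ∂μ = 0 → x = 0 := by
    intro x hx
    have h1 : ∀ t : ℝ, x0 + t • x ∈ K := by
      intro t
      refine hin _ ?_
      have h2 : ∀ w : Fin d → ℝ, |∑ k, w k * (t • x) k| = |t| * |∑ k, w k * x k| := by
        intro w
        rw [← abs_mul]
        congr 1
        rw [mul_sum]
        refine sum_congr rfl fun k _ => ?_
        rw [Pi.smul_apply, smul_eq_mul]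
        ring
      simp_rw [h2]
      rw [integral_const_mul, hx, mul_zero]
      exact zero_le_one
    obtain ⟨C, hC⟩ := hK.isBounded.exists_norm_le
    by_contra hne
    have hxn : 0 < ‖x‖ := norm_pos_iff.2 hne
    have h3 := hC _ (h1 ((C + ‖x0‖ + 1) / ‖x‖))
    have hC0 : 0 ≤ C := (norm_nonneg _).trans h3
    have h4 : ‖((C + ‖x0‖ + 1) / ‖x‖) • x‖ = C + ‖x0‖ + 1 := by
      rw [norm_smul, Real.norm_of_nonneg (by positivity)]
      field_simp
    have h5 : ‖((C + ‖x0‖ + 1) / ‖x‖) • x‖ ≤ ‖x0 + ((C + ‖x0‖ + 1) / ‖x‖) • x‖ + ‖x0‖ := by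
      have := norm_sub_le (x0 + ((C + ‖x0‖ + 1) / ‖x‖) • x) x0
      rwa [add_sub_cancel_left] at this
    linarith
  refine attain K hint (M * d) fun ε hε => ?_
  set δ : ℝ := min (1 / 2) (ε / (4 * (M * d) + 1)) with hδ
  have hMd : 0 ≤ M * d := by positivity
  have hδ0 : 0 < δ := lt_min (by norm_num) (by positivity)
  have hδ1 : δ ≤ 1 / 2 := min_le_left _ _
  have hδ2 : δ * (4 * (M * d) + 1) ≤ ε := by
    rw [← le_div_iff₀ (by positivity)]
    exact min_le_right _ _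
  obtain ⟨N, w, hw⟩ := approx_rel μ hμ h0 δ hδ0
  have h1δ : 0 < 1 - δ := by linarith
  have hsc : ∀ x : Fin d → ℝ, ∑ j, |∑ k, (w j k / (1 - δ)) * x k| = (∑ j, |∑ k, w j k * x k|) / (1 - δ) := by
    intro x
    rw [sum_div]
    refine sum_congr rfl fun j _ => ?_
    have h2 : ∑ k, (w j k / (1 - δ)) * x k = (∑ k, w j k * x k) / (1 - δ) := by
      rw [sum_div]
      refine sum_congr rfl fun k _ => ?_
      ring
    rw [h2, abs_div, abs_of_pos h1δ]
  have hXX : ∀ x : Fin d → ℝ, XX x0 (fun k => Pi.single k (1 : ℝ)) x = x0 + x := by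
    intro x
    funext i
    simp [XX, Pi.single_apply]
  obtain ⟨y, hy0, hy⟩ := width_polar K hconv hint hfree (fun j k => w j k / (1 - δ))
    (fun x hx => by
      refine h0 x ?_
      have h2 : ∑ j, |∑ k, w j k * x k| = 0 := by
        have h3 : ∑ j, |∑ k, (w j k / (1 - δ)) * x k| = 0 :=
          sum_eq_zero fun j _ => by rw [hx j, abs_zero]
        rw [hsc, div_eq_zero_iff] at h3
        exact h3.resolve_right h1δ.ne'
      have h4 := (hw x).1
      rw [h2] at h4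
      have h5 := hg0 x
      nlinarith)
    (fun k => Pi.single k (1 : ℝ)) x0 (M * ((1 + δ) / (1 - δ))) (by positivity)
    (fun x hx => by
      rw [hXX]
      refine hin x ?_
      rw [hsc, div_le_one h1δ] at hx
      have h4 := (hw x).1
      nlinarith)
    (fun z hz => by
      refine ⟨z - x0, ?_, by rw [hXX]; abel⟩
      rw [hsc, ← mul_div_assoc]
      refine div_le_div_of_nonneg_right ?_ h1δ.le
      have h4 := (hw (z - x0)).2
      have h5 := hout (z - x0) (by rw [add_sub_cancel]; exact hz)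
      nlinarith)
  refine ⟨y, hy0, fun z hz z' hz' => (hy z hz z' hz').trans ?_⟩
  have h6 : M * ((1 + δ) / (1 - δ)) * d = M * d + M * d * (2 * δ / (1 - δ)) := by
    field_simp
    ring
  rw [h6]
  have h7 : 2 * δ / (1 - δ) ≤ 4 * δ := by
    rw [div_le_iff₀ h1δ]
    nlinarith
  have h8 : M * d * (2 * δ / (1 - δ)) ≤ M * d * (4 * δ) := mul_le_mul_of_nonneg_left h7 hMd
  nlinarith

end Pool.Agent.Lib.MP_d2370c_gt.ZN
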