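import Mathlib
import Pool.Agent.Lib.MP_d2370c_gt.ZN.CubeT
import Pool.Agent.Lib.MP_d2370c_gt.ZN.Simple
import Pool.Agent.Lib.MP_d2370c_gt.ZN.Num

/-! Zonoids given by a measure: approximation by zonotopes. -/

set_option autoImplicit false

open Finset MeasureTheory Filter Topology

namespace Pool.Agent.Lib.MP_d2370c_gt.ZN

open Pool.Agent.Lib.MP_d2370c_gt

variable {n d N : ℕ}

/-- the map `s ↦ ∑ s j w j` -/
private def mzT (w : Fin N → Fin d → ℝ) : (Fin N → ℝ) →ₗ[ℝ] (Fin d → ℝ) where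
  toFun s i := ∑ j, s j * w j i
  map_add' s t := by
    funext i
    simp only [Pi.add_apply, add_mul, Finset.sum_add_distrib]
  map_smul' c s := by
    funext i
    simp only [Pi.smul_apply, smul_eq_mul, RingHom.id_apply, Finset.mul_sum, mul_assoc]

private theorem mzT_dot (w : Fin N → Fin d → ℝ) (s : Fin N → ℝ) (y : Fin d → ℝ) :
    ∑ k, mzT w s k * y k = ∑ j, s j * ∑ k, w j k * y k := by
  change ∑ k, (∑ j, s j * w j k) * y k = _
  simp_rw [Finset.sum_mul, Finset.mul_sum]
  rw [Finset.sum_comm]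
  refine Finset.sum_congr rfl fun j _ => Finset.sum_congr rfl fun k _ => ?_
  ring

/-- a point below the support function of a zonotope lies in the zonotope -/
private theorem mz_sep (w : Fin N → Fin d → ℝ) {M : ℝ} (hM : 0 ≤ M) (x : Fin d → ℝ)
    (h : ∀ y : Fin d → ℝ, ∑ k, x k * y k ≤ M * ∑ j, |∑ k, w j k * y k|) :
    ∃ s : Fin N → ℝ, (∀ j, |s j| ≤ M) ∧ x = mzT w s := by
  set B : Set (Fin N → ℝ) := Set.pi Set.univ fun _ => Set.Icc (-M) M with hB
  have hBc : IsCompact B := isCompact_univ_pi fun _ => isCompact_Icc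
  have hBv : Convex ℝ B := convex_pi fun _ _ => convex_Icc _ _
  have hcont : Continuous (mzT w) := (mzT w).continuous_of_finiteDimensional
  have hZc : IsCompact (mzT w '' B) := hBc.image hcont
  have hZv : Convex ℝ (mzT w '' B) := hBv.linear_image (mzT w)
  have hmem : x ∈ mzT w '' B := by
    by_contra hx
    obtain ⟨f, u, hf1, hf2⟩ := geometric_hahn_banach_closed_point hZv hZc.isClosed hx
    set y : Fin d → ℝ := fun k => f (Pi.single k 1) with hy
    have hf : ∀ v : Fin d → ℝ, f v = ∑ k, v k * y k := by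
      intro v
      have h1 : v = ∑ k, v k • (Pi.single k (1 : ℝ) : Fin d → ℝ) := by
        funext i
        rw [Finset.sum_apply]
        simp [Pi.single_apply]
      conv_lhs => rw [h1]
      rw [map_sum]
      refine Finset.sum_congr rfl fun k _ => ?_
      rw [map_smul, smul_eq_mul]
    set s : Fin N → ℝ := fun j => if 0 ≤ ∑ k, w j k * y k then M else -M with hs
    have hsB : s ∈ B := by
      intro j _
      simp only [hs]
      split_ifs
      · exact ⟨by linarith, le_rfl⟩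
      · exact ⟨le_rfl, by linarith⟩
    have h2 := hf1 _ ⟨s, hsB, rfl⟩
    rw [hf, mzT_dot] at h2
    have h3 : ∑ j, s j * ∑ k, w j k * y k = M * ∑ j, |∑ k, w j k * y k| := by
      rw [Finset.mul_sum]
      refine Finset.sum_congr rfl fun j _ => ?_
      simp only [hs]
      split_ifs with h4
      · rw [abs_of_nonneg h4]
      · rw [abs_of_neg (not_le.1 h4)]
        ring
    rw [h3] at h2
    rw [hf] at hf2
    linarith [h y]
  obtain ⟨s, hs, hsx⟩ := hmem
  exact ⟨s, fun j => abs_le.2 (hs j trivial), hsx.symm⟩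

theorem width_zonoid_meas (K : Set (Fin d → ℝ)) (hK : IsCompact K) (hconv : Convex ℝ K) (hint : (interior K).Nonempty)
    (hfree : ∀ z : Fin d → ℤ, (fun i => (z i : ℝ)) ∉ interior K) (μ : Measure (Fin d → ℝ))
    (hμ : Integrable (fun w : Fin d → ℝ => w) μ) (x0 : Fin d → ℝ) (M : ℝ) (hM : 0 ≤ M)
    (hin : ∀ x : Fin d → ℝ, (∀ y : Fin d → ℝ, ∑ k, x k * y k ≤ ∫ w : Fin d → ℝ, |∑ k, w k * y k| ∂μ) → x0 + x ∈ K)
    (hout : ∀ x : Fin d → ℝ, x0 + x ∈ K → ∀ y : Fin d → ℝ, ∑ k, x k * y k ≤ M * ∫ w : Fin d → ℝ, |∑ k, w k * y k| ∂μ) :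
    ∃ y : Fin d → ℤ, y ≠ 0 ∧ ∀ z ∈ K, ∀ z' ∈ K, ∑ i, (z i - z' i) * (y i : ℝ) ≤ M * d := by
  have _ := hK
  set g : (Fin d → ℝ) → ℝ := fun y => ∫ w : Fin d → ℝ, |∑ k, w k * y k| ∂μ with hg
  have hgn : ∀ y, 0 ≤ g y := fun y => integral_nonneg fun w => abs_nonneg _
  have hgneg : ∀ y, g (-y) = g y := by
    intro y
    simp only [hg]
    refine integral_congr_ae (Filter.Eventually.of_forall fun w => ?_)
    simp only [Pi.neg_apply, mul_neg, Finset.sum_neg_distrib, abs_neg]
  have h0 : ∀ y : Fin d → ℝ, g y = 0 → y = 0 := by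
    intro y hy
    obtain ⟨c, hc⟩ := hint
    have hz : ∀ z ∈ K, ∑ k, (z k - x0 k) * y k = 0 := by
      intro z hz
      have hzK : x0 + (z - x0) ∈ K := by
        have : x0 + (z - x0) = z := by abel
        rwa [this]
      have h1 := hout (z - x0) hzK y
      have h2 := hout (z - x0) hzK (-y)
      change _ ≤ M * g y at h1
      change _ ≤ M * g (-y) at h2
      rw [hgneg, hy, mul_zero] at h2
      rw [hy, mul_zero] at h1
      simp only [Pi.sub_apply, Pi.neg_apply, mul_neg, Finset.sum_neg_distrib] at h1 h2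
      linarith
    have hcont : Continuous fun t : ℝ => c + t • y := by fun_prop
    have hnhds : ∀ᶠ t in 𝓝 (0 : ℝ), c + t • y ∈ K := by
      have h1 : Tendsto (fun t : ℝ => c + t • y) (𝓝 0) (𝓝 c) := by
        have := hcont.tendsto (0 : ℝ)
        simpa using this
      exact h1 (mem_interior_iff_mem_nhds.1 hc)
    obtain ⟨r, hr, hrK⟩ := Metric.eventually_nhds_iff.1 hnhds
    have h1 : c + (r / 2) • y ∈ K := by
      apply hrK
      rw [Real.dist_eq, sub_zero, abs_of_pos (by linarith)]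
      linarith
    have h2 := hz _ h1
    have h3 := hz c (interior_subset hc)
    have h4 : (r / 2) * ∑ k, y k * y k = 0 := by
      rw [Finset.mul_sum]
      have h5 : ∑ k, (r / 2) * (y k * y k) = ∑ k, ((c + (r / 2) • y) k - x0 k) * y k - ∑ k, (c k - x0 k) * y k := by
        rw [← Finset.sum_sub_distrib]
        refine Finset.sum_congr rfl fun k _ => ?_
        simp only [Pi.add_apply, Pi.smul_apply, smul_eq_mul]
        ring
      rw [h5, h2, h3, sub_zero]
    have h6 : ∑ k, y k * y k = 0 := by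
      rcases mul_eq_zero.1 h4 with h | h
      · linarith
      · exact h
    have h7 := (Finset.sum_eq_zero_iff_of_nonneg fun k _ => mul_self_nonneg (y k)).1 h6
    funext k
    exact mul_self_eq_zero.1 (h7 k (Finset.mem_univ k))
  refine attain K hint (M * d) fun e he => ?_
  have hMd : 0 ≤ M * d := mul_nonneg hM (Nat.cast_nonneg _)
  set ε : ℝ := min (1 / 2) (e / (4 * (M * d) + 1)) with hε
  have hε0 : 0 < ε := lt_min (by norm_num) (by positivity)
  have hε1 : ε ≤ 1 / 2 := min_le_left _ _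
  have hε2 : 4 * (M * d) * ε ≤ e := by
    have h1 : ε ≤ e / (4 * (M * d) + 1) := min_le_right _ _
    rw [le_div_iff₀ (by positivity)] at h1
    nlinarith
  obtain ⟨N, w, hw⟩ := approx_rel μ hμ h0 ε hε0
  set w' : Fin N → Fin d → ℝ := fun j k => w j k / (1 + ε) with hw'
  have hdot : ∀ (j : Fin N) (y : Fin d → ℝ), ∑ k, w' j k * y k = (∑ k, w j k * y k) / (1 + ε) := by
    intro j y
    rw [Finset.sum_div]
    refine Finset.sum_congr rfl fun k _ => ?_
    simp only [hw']
    ring
  have habs : ∀ y : Fin d → ℝ, ∑ j, |∑ k, w' j k * y k| = (∑ j, |∑ k, w j k * y k|) / (1 + ε) := by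
    intro y
    rw [Finset.sum_div]
    refine Finset.sum_congr rfl fun j _ => ?_
    rw [hdot, abs_div, abs_of_pos (show (0 : ℝ) < 1 + ε by linarith)]
  have hXX : ∀ s : Fin N → ℝ, XX x0 w' s = x0 + mzT w' s := fun s => rfl
  set M' : ℝ := M * (1 + ε) / (1 - ε) with hM'
  have h1ε : 0 < 1 - ε := by linarith
  have hM'0 : 0 ≤ M' := div_nonneg (mul_nonneg hM (by linarith)) h1ε.le
  have hin' : ∀ s : Fin N → ℝ, (∀ j, |s j| ≤ 1) → XX x0 w' s ∈ K := by
    intro s hs
    rw [hXX]
    refine hin _ fun y => ?_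
    change _ ≤ g y
    rw [mzT_dot]
    have h2 : ∑ j, s j * ∑ k, w' j k * y k ≤ ∑ j, |∑ k, w' j k * y k| := by
      refine Finset.sum_le_sum fun j _ => ?_
      refine (le_abs_self _).trans ?_
      rw [abs_mul]
      exact mul_le_of_le_one_left (abs_nonneg _) (hs j)
    refine h2.trans ?_
    rw [habs, div_le_iff₀ (by linarith), mul_comm]
    exact (hw y).2
  have hout' : ∀ z ∈ K, ∃ s : Fin N → ℝ, (∀ j, |s j| ≤ M') ∧ z = XX x0 w' s := by
    intro z hz
    have hzK : x0 + (z - x0) ∈ K := by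
      have : x0 + (z - x0) = z := by abel
      rwa [this]
    obtain ⟨s, hs, hsx⟩ := mz_sep w' hM'0 (z - x0) (fun y => by
      have h1 := hout (z - x0) hzK y
      change _ ≤ M * g y at h1
      have h2 : (1 - ε) * g y ≤ ∑ j, |∑ k, w j k * y k| := (hw y).1
      refine h1.trans ?_
      rw [habs, hM']
      have h3 : g y ≤ (∑ j, |∑ k, w j k * y k|) / (1 - ε) := by
        rw [le_div_iff₀ h1ε, mul_comm]
        exact h2
      calc M * g y ≤ M * ((∑ j, |∑ k, w j k * y k|) / (1 - ε)) := mul_le_mul_of_nonneg_left h3 hM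
        _ = M * (1 + ε) / (1 - ε) * ((∑ j, |∑ k, w j k * y k|) / (1 + ε)) := by
          have : (1 + ε) ≠ 0 := by linarith
          field_simp)
    refine ⟨s, hs, ?_⟩
    rw [hXX, ← hsx]
    abel
  obtain ⟨y, hy0, hy⟩ := width_zono K hconv hint hfree w' x0 M' hM'0 hin' hout'
  refine ⟨y, hy0, fun z hz z' hz' => (hy z hz z' hz').trans ?_⟩
  have h2 : M' * d = M * d + (M * d) * (2 * ε / (1 - ε)) := by
    rw [hM']
    field_simp
    ring_nf
  have h3 : 2 * ε / (1 - ε) ≤ 4 * ε := by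
    rw [div_le_iff₀ h1ε]
    nlinarith
  rw [h2]
  have h4 := mul_le_mul_of_nonneg_left h3 hMd
  linarith

end Pool.Agent.Lib.MP_d2370c_gt.ZN
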