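import Pool.Agent.Lib.MP_d2370c_gt.ZN.Defs
import Pool.Agent.Lib.MP_d2370c_gt.ZN.FTb
import Pool.Agent.Lib.MP_d2370c_gt.ZN.DDb
import Pool.Agent.Lib.MP_d2370c_gt.ZN.GapD
import Pool.Agent.Lib.MP_d2370c_gt.ZN.Gap
import Pool.Agent.Lib.MP_d2370c_gt.ZN.Num

set_option autoImplicit false

open Finset MeasureTheory Filter Topology

namespace Pool.Agent.Lib.MP_d2370c_gt.ZN

open Pool.Agent.Lib.MP_d2370c_gt

variable {n d N : ℕ}

private theorem pa_int (v : Fin n → Fin d → ℝ) (m : ℕ) (b : Fin d → ℝ) {F H : (Fin n → ℝ) → ℝ}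
    (hF : Integrable F) (hH : Integrable H) :
    Integrable (fun p : (Fin n → ℝ) × (Fin n → ℝ) => PP (XX b v (p.1 - p.2)) ^ m * F p.1 * H p.2)
      (volume.prod volume) := by
  have h1 : Integrable (fun p : (Fin n → ℝ) × (Fin n → ℝ) => F p.1 * H p.2) (volume.prod volume) :=
    hF.mul_prod hH
  have hc : Continuous fun p : (Fin n → ℝ) × (Fin n → ℝ) => PP (XX b v (p.1 - p.2)) ^ m :=
    (continuous_PP.comp ((continuous_XX b v).comp (continuous_fst.sub continuous_snd))).pow m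
  have h2 := h1.bdd_mul (c := 1) hc.aestronglyMeasurable (Filter.Eventually.of_forall fun p => by
    rw [Real.norm_eq_abs, abs_of_nonneg (pow_nonneg (PP_nonneg _) m)]
    exact pow_le_one₀ (PP_nonneg _) (PP_le_one _))
  refine h2.congr (Filter.Eventually.of_forall fun p => ?_)
  simp only
  ring

private theorem pa_mono (v : Fin n → Fin d → ℝ) (m : ℕ) (b : Fin d → ℝ) {F H H' : (Fin n → ℝ) → ℝ}
    (hF : Integrable F) (hH : Integrable H) (hH' : Integrable H') (h0 : ∀ x, 0 ≤ F x)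
    (h : ∀ x, H x ≤ H' x) : DD v m b F H ≤ DD v m b F H' := by
  unfold DD
  have i1 := pa_int v m b hF hH
  have i2 := pa_int v m b hF hH'
  rw [← integral_prod _ i1, ← integral_prod _ i2]
  refine integral_mono i1 i2 fun p => ?_
  exact mul_le_mul_of_nonneg_left (h _) (mul_nonneg (pow_nonneg (PP_nonneg _) m) (h0 _))

private theorem pa_smul (v : Fin n → Fin d → ℝ) (m : ℕ) (b : Fin d → ℝ) (F H : (Fin n → ℝ) → ℝ) (c : ℝ) :
    DD v m b F (fun x => c * H x) = c * DD v m b F H := by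
  unfold DD
  rw [← integral_const_mul]
  congr 1
  funext x
  rw [← integral_const_mul]
  congr 1
  funext x'
  ring

theorem partA (v : Fin n → Fin d → ℝ) (x0 : Fin d → ℝ) (F : (Fin n → ℝ) → ℝ) (Z : Set (Fin n → ℝ)) (E : ℝ) (hF : Sub F Z E)
    (hZ : IsCompact Z) (h : ∀ x ∈ Z, ∀ x' ∈ Z, ∀ z : Fin d → ℤ, XX x0 v (x - x') ≠ fun i => (z i : ℝ)) (η : ℝ) (hη : 0 < η) :
    ∃ y : Fin d → ℤ, y ≠ 0 ∧ 4 * Real.pi ^ 2 * ∑ k, (pr v fun i => (y i : ℝ)) k ^ 2 < E + η := by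
  by_contra hcon
  push Not at hcon
  obtain ⟨γ, hγ, q, hq0, hq1, hgap⟩ := gap v x0 Z hZ h
  obtain ⟨s, hs, hs1, hs2⟩ := small E (E + η) γ (Real.sqrt 2 ^ n) (by linarith) hγ (by positivity)
  have hFi : Integrable F := hF.integrable hZ
  have hgi : Integrable (gm s F) := gm_meas_int hFi hs
  set θ : ℝ := Real.exp (-(s * E / 2)) with hθ
  set κ' : ℝ := Real.exp (-(s * (E + η) / 2)) with hκ'
  set w : ℝ := Real.sqrt 2 ^ n * Real.exp (-(γ ^ 2 / (4 * s))) with hw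
  have hw1 : w ≤ Real.sqrt 2 ^ n * Real.exp (-(γ ^ 2 / (8 * s))) := by
    refine mul_le_mul_of_nonneg_left (Real.exp_le_exp.2 (neg_le_neg ?_)) (by positivity)
    exact div_le_div_of_nonneg_left (sq_nonneg γ) (by positivity) (by linarith)
  have hpos : 0 < θ - κ' - w := by linarith
  refine no_bound d (θ - κ' - w) q hpos hq0 hq1 fun m hm => ?_
  set D : ℝ := DD v m 0 F F with hD
  set a : (Fin d → ℕ) → Fin n → ℝ := fun κ => pr v fun i => ((yy m κ i : ℤ) : ℝ) with ha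
  set Ft : (Fin d → ℕ) → ℝ := fun κ => ‖FT F (a κ)‖ ^ 2 with hFt
  have hFt0 : ∀ κ, 0 ≤ Ft κ := fun κ => sq_nonneg _
  have hD0 : D = ∑ κ ∈ ix d m, cf m κ * Ft κ := by
    rw [hD, DD_self v m 0 hFi]
    refine Finset.sum_congr rfl fun κ _ => ?_
    simp [Ft, a]
  have hDx : DD v m x0 F F = ∑ κ ∈ ix d m, cf m κ * (Real.cos (2 * Real.pi * ∑ i, ((yy m κ i : ℤ) : ℝ) * x0 i) * Ft κ) :=
    DD_self v m x0 hFi
  have hDx0 : 0 ≤ DD v m x0 F F := by
    unfold DD
    refine integral_nonneg fun x => integral_nonneg fun x' => ?_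
    exact mul_nonneg (mul_nonneg (pow_nonneg (PP_nonneg _) m) (hF.nn _)) (hF.nn _)
  have hG0 : DD v m 0 F (gm s F) = ∑ κ ∈ ix d m, cf m κ * (Real.exp (-(2 * Real.pi ^ 2 * s * ∑ k, a κ k ^ 2)) * Ft κ) := by
    rw [DD_gm v m 0 hFi hs]
    refine Finset.sum_congr rfl fun κ _ => ?_
    simp [Ft, a]
  have hGx : DD v m x0 F (gm s F) = ∑ κ ∈ ix d m, cf m κ *
      (Real.cos (2 * Real.pi * ∑ i, ((yy m κ i : ℤ) : ℝ) * x0 i) *
      (Real.exp (-(2 * Real.pi ^ 2 * s * ∑ k, a κ k ^ 2)) * Ft κ)) := DD_gm v m x0 hFi hs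
  -- (i)
  have h1 : θ * D ≤ DD v m 0 F (gm s F) := by
    rw [hD, ← pa_smul]
    exact pa_mono v m 0 hFi (hFi.const_mul θ) hgi hF.nn fun x => hF.sub s hs x
  -- (ii)
  have h2 : DD v m 0 F (gm s F) - DD v m x0 F (gm s F) ≤ κ' * D := by
    have e1 : DD v m 0 F (gm s F) - DD v m x0 F (gm s F) ≤ κ' * (D - DD v m x0 F F) := by
      rw [hG0, hGx, hD0, hDx, ← Finset.sum_sub_distrib, ← Finset.sum_sub_distrib, Finset.mul_sum]
      refine Finset.sum_le_sum fun κ _ => ?_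
      have hc := Real.cos_le_one (2 * Real.pi * ∑ i, ((yy m κ i : ℤ) : ℝ) * x0 i)
      have hcf := cf_nonneg m κ
      by_cases hκ : yy m κ = 0
      · simp [hκ]
      · have e2 := hcon (yy m κ) hκ
        have e3 : Real.exp (-(2 * Real.pi ^ 2 * s * ∑ k, a κ k ^ 2)) ≤ κ' := by
          rw [hκ']
          refine Real.exp_le_exp.2 (neg_le_neg ?_)
          have : (E + η) ≤ 4 * Real.pi ^ 2 * ∑ k, a κ k ^ 2 := e2
          nlinarith
        have e4 : 0 ≤ cf m κ * ((1 - Real.cos (2 * Real.pi * ∑ i, ((yy m κ i : ℤ) : ℝ) * x0 i)) * Ft κ) :=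
          mul_nonneg hcf (mul_nonneg (by linarith) (hFt0 κ))
        have e5 := mul_le_mul_of_nonneg_right e3 e4
        linarith
    refine e1.trans (mul_le_mul_of_nonneg_left (by linarith) (Real.exp_pos _).le)
  -- (iii)
  have h3 := DD_gap v x0 F Z E hF hZ γ q s hγ hq0 hs hgap m
  -- (iv)
  have h4 : cf m (fun _ : Fin d => m) * (∫ x, F x) ^ 2 ≤ D := by
    rw [hD0]
    have e1 : cf m (fun _ : Fin d => m) * (∫ x, F x) ^ 2 = cf m (fun _ : Fin d => m) * Ft (fun _ => m) := by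
      have e2 : a (fun _ => m) = 0 := by
        funext k
        simp [a, pr, yy]
      have e3 : FT F 0 = ((∫ x, F x : ℝ) : ℂ) := by
        unfold FT
        rw [← integral_complex_ofReal]
        congr 1
        funext x
        simp [ee_zero]
      rw [hFt]
      simp only
      rw [e2, e3, Complex.norm_real, Real.norm_eq_abs, sq_abs]
    rw [e1]
    exact Finset.single_le_sum (f := fun κ => cf m κ * Ft κ)
      (fun κ _ => mul_nonneg (cf_nonneg m κ) (hFt0 κ)) (mem_ix m)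
  have hI : 0 < (∫ x, F x) ^ 2 := pow_pos hF.pos 2
  have h5 : (θ - κ' - w) * D ≤ q ^ m * (∫ x, F x) ^ 2 := by linarith
  have h6 : (θ - κ' - w) * (cf m (fun _ : Fin d => m) * (∫ x, F x) ^ 2) ≤ q ^ m * (∫ x, F x) ^ 2 :=
    (mul_le_mul_of_nonneg_left h4 hpos.le).trans h5
  have h7 : (θ - κ' - w) * cf m (fun _ : Fin d => m) ≤ q ^ m := by
    refine le_of_mul_le_mul_right ?_ hI
    linarith
  calc (1 / (2 * (m : ℝ))) ^ d * (θ - κ' - w) ≤ cf m (fun _ : Fin d => m) * (θ - κ' - w) :=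
        mul_le_mul_of_nonneg_right (cf_lower m hm) hpos.le
    _ ≤ q ^ m := by linarith

end Pool.Agent.Lib.MP_d2370c_gt.ZN
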