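import Pool.Agent.Lib.MP_d2370c_gt.ZN.Defs
import Pool.Agent.Lib.MP_d2370c_gt.ZN.FTb
import Pool.Agent.Lib.MP_d2370c_gt.ZN.JJb
import Pool.Agent.Lib.MP_d2370c_gt.ZN.IIb
import Pool.Agent.Lib.MP_d2370c_gt.ZN.Num

set_option autoImplicit false

open Finset MeasureTheory Filter Topology

namespace Pool.Agent.Lib.MP_d2370c_gt.ZN

open Pool.Agent.Lib.MP_d2370c_gt

variable {n d N : ℕ}

private theorem pb_FT_cont {F : (Fin n → ℝ) → ℝ} (hF : Integrable F) : Continuous (FT F) := by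
  unfold FT
  refine continuous_of_dominated (bound := fun x => ‖F x‖) (fun a => ?_) (fun a => ?_) hF.norm ?_
  · refine (hF.ofReal.aestronglyMeasurable).mul (Continuous.aestronglyMeasurable ?_)
    exact continuous_ee.comp (by fun_prop)
  · refine Filter.Eventually.of_forall fun x => ?_
    rw [norm_mul, norm_ee, mul_one, Complex.norm_real]
  · refine Filter.Eventually.of_forall fun x => ?_
    exact continuous_const.mul (continuous_ee.comp (by fun_prop))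

private theorem pb_FT_le (F : (Fin n → ℝ) → ℝ) (a : Fin n → ℝ) : ‖FT F a‖ ≤ ∫ x, ‖F x‖ := by
  unfold FT
  refine (norm_integral_le_integral_norm _).trans (le_of_eq ?_)
  congr 1
  funext x
  rw [norm_mul, norm_ee, mul_one, Complex.norm_real]

private theorem pb_gauss {c : ℝ} (hc : 0 < c) :
    Integrable (fun x : Fin n → ℝ => Real.exp (-(c * ∑ k, x k ^ 2))) := by
  have h1 : Integrable (fun x : Fin n → ℝ => ∏ k, Real.exp (-c * x k ^ 2)) :=
    Integrable.fintype_prod (f := fun (_ : Fin n) (t : ℝ) => Real.exp (-c * t ^ 2)) fun _ =>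
      integrable_exp_neg_mul_sq hc
  refine h1.congr (Filter.Eventually.of_forall fun x => ?_)
  simp only
  rw [← Real.exp_sum, ← Finset.mul_sum, neg_mul]

/-- the density -/
private noncomputable def pbG (F : (Fin n → ℝ) → ℝ) (δ : ℝ) (x : Fin n → ℝ) : ℝ :=
  ‖FT F x‖ ^ 2 * Real.exp (-(2 * Real.pi ^ 2 * δ * ∑ k, x k ^ 2))

private theorem pbG_nonneg (F : (Fin n → ℝ) → ℝ) (δ : ℝ) (x : Fin n → ℝ) : 0 ≤ pbG F δ x :=
  mul_nonneg (sq_nonneg _) (Real.exp_pos _).le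

private theorem pbG_int {F : (Fin n → ℝ) → ℝ} (hF : Integrable F) {δ : ℝ} (hδ : 0 < δ) :
    Integrable (pbG F δ) := by
  have h1 := pb_gauss (n := n) (show 0 < 2 * Real.pi ^ 2 * δ by positivity)
  refine h1.bdd_mul (c := (∫ x, ‖F x‖) ^ 2) ((pb_FT_cont hF).norm.pow 2).aestronglyMeasurable
    (Filter.Eventually.of_forall fun x => ?_)
  rw [norm_pow, norm_norm]
  exact pow_le_pow_left₀ (norm_nonneg _) (pb_FT_le F x) 2

private theorem pbP_int {F : (Fin n → ℝ) → ℝ} (hF : Integrable F) {δ : ℝ} (hδ : 0 < δ)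
    (v : Fin n → Fin d → ℝ) (m : ℕ) (b : Fin d → ℝ) :
    Integrable (fun x => PP (XX b v x) ^ m * pbG F δ x) := by
  refine (pbG_int hF hδ).bdd_mul (c := 1)
    ((continuous_PP.comp (continuous_XX b v)).pow m).aestronglyMeasurable
    (Filter.Eventually.of_forall fun x => ?_)
  rw [Real.norm_eq_abs, abs_of_nonneg (pow_nonneg (PP_nonneg _) m)]
  exact pow_le_one₀ (PP_nonneg _) (PP_le_one _)

theorem partB (v : Fin n → Fin d → ℝ) (x0 : Fin d → ℝ) (F : (Fin n → ℝ) → ℝ) (Z : Set (Fin n → ℝ)) (E : ℝ) (hF : Sub F Z E)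
    (hZ : IsCompact Z) (γ : ℝ) (hγ : 0 < γ)
    (hy : ∀ y : Fin d → ℤ, y ≠ 0 → ∀ c ∈ Z, ∀ c' ∈ Z, γ ^ 2 ≤ ∑ k, (c k - c' k + pr v (fun i => (y i : ℝ)) k) ^ 2)
    (β : ℝ) (hβ0 : 0 ≤ β) (hβ : E < 4 * Real.pi ^ 2 * β ^ 2) :
    ∃ z : Fin d → ℤ, ∃ x : Fin n → ℝ, ∑ k, x k ^ 2 ≤ β ^ 2 ∧ XX x0 v x = fun i => (z i : ℝ) := by
  by_contra hcon
  push Not at hcon
  have hFi : Integrable F := hF.integrable hZ
  obtain ⟨s, hs, hs1, hs2⟩ := small E (4 * Real.pi ^ 2 * β ^ 2) γ (4 * Real.sqrt 2 ^ n) hβ hγ (by positivity)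
  have hKc : IsCompact (XX x0 v '' {t : Fin n → ℝ | ∑ j, t j ^ 2 ≤ β ^ 2}) :=
    (isCompact_ball' (β ^ 2) (sq_nonneg _)).image (continuous_XX x0 v)
  obtain ⟨q, hq0, hq1, hq⟩ := exists_q _ hKc (by
    rintro z ⟨t, ht, hz⟩
    exact hcon z t ht hz)
  set θ : ℝ := Real.exp (-(s * E / 2)) with hθ
  set κ' : ℝ := Real.exp (-(s * (4 * Real.pi ^ 2 * β ^ 2) / 2)) with hκ'
  set w : ℝ := Real.sqrt 2 ^ n * Real.exp (-(γ ^ 2 / (8 * s))) with hw
  have hw0 : 0 < w := by positivity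
  have hw1 : 4 * w ≤ 1 / 2 := by rw [hw]; linarith
  have hpos : 0 < θ - κ' - 4 * w := by rw [hw]; linarith
  have hκ1 : κ' ≤ 1 := by
    rw [hκ', Real.exp_le_one_iff]
    have : 0 ≤ s * (4 * Real.pi ^ 2 * β ^ 2) / 2 := by positivity
    linarith
  have hκ0 : 0 < κ' := Real.exp_pos _
  have hws : Real.sqrt 2 ^ n * Real.exp (-(γ ^ 2 / (4 * s))) ≤ w := by
    refine mul_le_mul_of_nonneg_left (Real.exp_le_exp.2 (neg_le_neg ?_)) (by positivity)
    exact div_le_div_of_nonneg_left (sq_nonneg γ) (by positivity) (by linarith)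
  have hw2s : Real.sqrt 2 ^ n * Real.exp (-(γ ^ 2 / (4 * (s + s)))) ≤ w := by
    rw [hw]
    have : 4 * (s + s) = 8 * s := by ring
    rw [this]
  refine no_bound d (θ - κ' - 4 * w) q hpos hq0 hq1 fun m hm => ?_
  set c : ℝ := cf m (fun _ : Fin d => m) with hc
  have hc0 : 0 ≤ c := cf_nonneg m _
  set a : (Fin d → ℕ) → Fin n → ℝ := fun κ => pr v fun i => ((yy m κ i : ℤ) : ℝ) with ha
  have ha0 : a (fun _ => m) = 0 := by
    funext k
    simp [a, pr, yy]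
  set S : ℝ → ℝ := fun δ => ∑ κ ∈ (ix d m).erase (fun _ => m), cf m κ * II F δ (a κ) with hS
  have hII0 : ∀ δ a', 0 ≤ II F δ a' := fun δ a' => II_nonneg hF.nn δ a'
  have hS0 : ∀ δ, 0 ≤ S δ := fun δ => Finset.sum_nonneg fun κ _ => mul_nonneg (cf_nonneg m κ) (hII0 _ _)
  have hJ0 : ∀ δ, 0 < δ → JJ v m 0 F δ = c * II F δ 0 + S δ := by
    intro δ hδ
    rw [JJ_eq v m 0 hFi hδ, ← Finset.add_sum_erase _ _ (mem_ix m)]
    have e0 : (pr v fun i => ((yy m (fun _ : Fin d => m) i : ℤ) : ℝ)) = 0 := ha0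
    rw [e0]
    simp [S, a, c]
  have hfar : ∀ κ ∈ (ix d m).erase (fun _ => m), ∀ δ, 0 < δ →
      II F δ (a κ) ≤ Real.sqrt 2 ^ n * Real.exp (-(γ ^ 2 / (4 * δ))) * II F (2 * δ) (a κ) := by
    intro κ hκ δ hδ
    have hne : yy m κ ≠ 0 := fun h => (Finset.ne_of_mem_erase hκ) (yy_eq_zero h)
    exact II_far hF hZ hδ _ (hy (yy m κ) hne)
  -- (1)
  have h1 : ∀ δ, 0 < δ → Real.sqrt 2 ^ n * Real.exp (-(γ ^ 2 / (4 * δ))) ≤ w → S δ ≤ 2 * w * (c * II F δ 0) := by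
    intro δ hδ hwδ
    have e1 : S δ ≤ w * S (2 * δ) := by
      rw [hS]
      simp only
      rw [Finset.mul_sum]
      refine Finset.sum_le_sum fun κ hκ => ?_
      have e2 := hfar κ hκ δ hδ
      have e3 : II F δ (a κ) ≤ w * II F (2 * δ) (a κ) :=
        e2.trans (mul_le_mul_of_nonneg_right hwδ (hII0 _ _))
      calc cf m κ * II F δ (a κ) ≤ cf m κ * (w * II F (2 * δ) (a κ)) :=
            mul_le_mul_of_nonneg_left e3 (cf_nonneg m κ)
        _ = _ := by ring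
    have e2 : S (2 * δ) ≤ JJ v m 0 F (2 * δ) := by
      rw [hJ0 _ (by positivity)]
      have := mul_nonneg hc0 (hII0 (2 * δ) 0)
      linarith
    have e3 : JJ v m 0 F (2 * δ) ≤ JJ v m 0 F δ := JJ_anti v m 0 hFi hδ (by linarith)
    have e4 := hJ0 δ hδ
    have e5 : S δ ≤ w * (c * II F δ 0 + S δ) := by
      rw [← e4]
      exact e1.trans (mul_le_mul_of_nonneg_left (e2.trans e3) hw0.le)
    have e6 : w * S δ ≤ 1 / 8 * S δ := mul_le_mul_of_nonneg_right (by linarith) (hS0 δ)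
    have e7 : 0 ≤ w * (c * II F δ 0) := mul_nonneg hw0.le (mul_nonneg hc0 (hII0 _ _))
    linarith
  set I1 : ℝ := II F s 0 with hI1
  set I2 : ℝ := II F (s + s) 0 with hI2
  have hI1pos : 0 < I1 := II_pos hF hZ hs
  -- (2)
  have h2a : θ * I1 ≤ I2 := II_sub hF hZ hs hs
  have h2b : I2 ≤ I1 := by
    have e1 := JJ_anti v 0 (0 : Fin d → ℝ) hFi hs (show s ≤ s + s by linarith)
    have e2 : ∀ δ, 0 < δ → JJ v 0 (0 : Fin d → ℝ) F δ = II F δ 0 := by
      intro δ hδ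
      rw [II_zero hFi hδ]
      unfold JJ
      simp only [pow_zero, one_mul]
    rw [e2 _ hs, e2 _ (by linarith)] at e1
    exact e1
  -- (3)
  have h3 : JJ v m x0 F (s + s) ≤ κ' * JJ v m x0 F s + q ^ m * I1 := by
    have i1 := pbP_int hFi hs v m x0
    have i2 := pbP_int hFi (show 0 < s + s by linarith) v m x0
    have i3 := pbG_int hFi hs
    have e1 : JJ v m x0 F s = ∫ x, PP (XX x0 v x) ^ m * pbG F s x := rfl
    have e2 : JJ v m x0 F (s + s) = ∫ x, PP (XX x0 v x) ^ m * pbG F (s + s) x := rfl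
    have e3 : I1 = ∫ x, pbG F s x := II_zero hFi hs
    rw [e1, e2, e3, ← integral_const_mul, ← integral_const_mul, ← integral_add (i1.const_mul _) (i3.const_mul _)]
    refine integral_mono i2 ((i1.const_mul _).add (i3.const_mul _)) fun x => ?_
    simp only
    have g0 := pbG_nonneg F s x
    have p0 : 0 ≤ PP (XX x0 v x) ^ m := pow_nonneg (PP_nonneg _) m
    have g1 : pbG F (s + s) x = pbG F s x * Real.exp (-(2 * Real.pi ^ 2 * s * ∑ k, x k ^ 2)) := by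
      unfold pbG
      rw [mul_assoc (‖FT F x‖ ^ 2), ← Real.exp_add]
      congr 2
      ring
    have hx0 : 0 ≤ ∑ k, x k ^ 2 := Finset.sum_nonneg fun k _ => sq_nonneg _
    rw [g1]
    rcases le_total (β ^ 2) (∑ k, x k ^ 2) with hx | hx
    · have g2 : Real.exp (-(2 * Real.pi ^ 2 * s * ∑ k, x k ^ 2)) ≤ κ' := by
        rw [hκ']
        refine Real.exp_le_exp.2 (neg_le_neg ?_)
        have : 2 * Real.pi ^ 2 * s * β ^ 2 ≤ 2 * Real.pi ^ 2 * s * ∑ k, x k ^ 2 :=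
          mul_le_mul_of_nonneg_left hx (by positivity)
        linarith
      have g3 : PP (XX x0 v x) ^ m * (pbG F s x * Real.exp (-(2 * Real.pi ^ 2 * s * ∑ k, x k ^ 2))) ≤
          κ' * (PP (XX x0 v x) ^ m * pbG F s x) := by
        have := mul_le_mul_of_nonneg_left g2 (mul_nonneg p0 g0)
        linarith
      have g4 : 0 ≤ q ^ m * pbG F s x := mul_nonneg (pow_nonneg hq0 m) g0
      linarith
    · have g2 : Real.exp (-(2 * Real.pi ^ 2 * s * ∑ k, x k ^ 2)) ≤ 1 := by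
        rw [Real.exp_le_one_iff]
        have : 0 ≤ 2 * Real.pi ^ 2 * s * ∑ k, x k ^ 2 := by positivity
        linarith
      have g3 : PP (XX x0 v x) ^ m ≤ q ^ m := pow_le_pow_left₀ (PP_nonneg _) (hq _ ⟨x, hx, rfl⟩) m
      have g4 : PP (XX x0 v x) ^ m * (pbG F s x * Real.exp (-(2 * Real.pi ^ 2 * s * ∑ k, x k ^ 2))) ≤
          q ^ m * pbG F s x := by
        have g5 : pbG F s x * Real.exp (-(2 * Real.pi ^ 2 * s * ∑ k, x k ^ 2)) ≤ pbG F s x :=
          mul_le_of_le_one_right g0 g2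
        exact mul_le_mul g3 g5 (mul_nonneg g0 (Real.exp_pos _).le) (pow_nonneg hq0 m)
      have g6 : 0 ≤ κ' * (PP (XX x0 v x) ^ m * pbG F s x) := mul_nonneg hκ0.le (mul_nonneg p0 g0)
      linarith
  -- (4)
  have hJx : ∀ δ, 0 < δ → |JJ v m x0 F δ - c * II F δ 0| ≤ S δ := by
    intro δ hδ
    rw [JJ_eq v m x0 hFi hδ, ← Finset.add_sum_erase _ _ (mem_ix m)]
    have e0 : (pr v fun i => ((yy m (fun _ : Fin d => m) i : ℤ) : ℝ)) = 0 := ha0
    have e00 : (∑ i, ((yy m (fun _ : Fin d => m) i : ℤ) : ℝ) * x0 i) = 0 := by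
      simp [yy]
    rw [e0, e00, mul_zero, Real.cos_zero, one_mul, add_sub_cancel_left]
    refine (Finset.abs_sum_le_sum_abs _ _).trans (Finset.sum_le_sum fun κ _ => ?_)
    rw [abs_mul, abs_mul, abs_of_nonneg (cf_nonneg m κ), abs_of_nonneg (hII0 _ _)]
    refine mul_le_mul_of_nonneg_left ?_ (cf_nonneg m κ)
    exact mul_le_of_le_one_left (hII0 _ _) (Real.abs_cos_le_one _)
  have h4a : JJ v m x0 F s ≤ (1 + 2 * w) * (c * I1) := by
    have e1 := (abs_le.1 (hJx s hs)).2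
    have e2 := h1 s hs hws
    linarith
  have h4b : c * I2 - 2 * w * (c * I1) ≤ JJ v m x0 F (s + s) := by
    have e1 := (abs_le.1 (hJx (s + s) (by linarith))).1
    have e2 := h1 (s + s) (by linarith) hw2s
    have e3 : 2 * w * (c * I2) ≤ 2 * w * (c * I1) :=
      mul_le_mul_of_nonneg_left (mul_le_mul_of_nonneg_left h2b hc0) (by linarith)
    linarith
  have h5 : c * (θ * I1) ≤ c * I2 := mul_le_mul_of_nonneg_left h2a hc0
  have h6 : κ' * JJ v m x0 F s ≤ κ' * ((1 + 2 * w) * (c * I1)) := mul_le_mul_of_nonneg_left h4a hκ0.le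
  have h7 : κ' * (2 * w * (c * I1)) ≤ 2 * w * (c * I1) :=
    mul_le_of_le_one_left (by positivity) hκ1
  have h8 : (θ - κ' - 4 * w) * c * I1 ≤ q ^ m * I1 := by linarith
  have h9 : (θ - κ' - 4 * w) * c ≤ q ^ m := le_of_mul_le_mul_right h8 hI1pos
  calc (1 / (2 * (m : ℝ))) ^ d * (θ - κ' - 4 * w) ≤ c * (θ - κ' - 4 * w) :=
        mul_le_mul_of_nonneg_right (cf_lower m hm) hpos.le
    _ ≤ q ^ m := by linarith

end Pool.Agent.Lib.MP_d2370c_gt.ZN
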